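import Mathlib
import Pool.Agent.K6.H94.TG.Lvl
import Pool.Agent.N996.BP.Tr

/-!
# Explicit bounds: definitions and statements of pieces

Aim: an explicit number `N`, depending only on the size of the matrices and on the bounds of the weights,
such that all matrix coefficients of bounded level of **all** groups generated by cocharacters with
bounded weights (and preserving a non-degenerate form) are polynomials of degree at most `N`.
-/

set_option autoImplicit false

namespace Pool.Agent.K6.H94.XB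

open Matrix Polynomial
open Pool.Agent.K6.H94.TG (kpw Mon Lv mc Ep)

/-- The bound of the degrees of numerators and denominators. -/
def bdM (r a : ℕ) : ℕ := 2 * (r + 2) * (2 * a * (r + 1) + 1) ^ r

/-- The bound of the degrees of the matrix coefficients. -/
def bdN (b w₀ w : ℕ) : ℕ := 2 * bdM (b ^ 2) (max w₀ w) * (2 * w + 1) ^ (b ^ 2)

/-- A filtration of the field `K` by subspaces of finite dimension whose dimensions are bounded by those of
the spaces of Laurent polynomials in `r` variables with exponents between `-u` and `u`. -/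
structure IsFil (C K : Type) [Field C] [Field K] [Algebra C K] (r : ℕ) (V : ℕ → Submodule C K) :
    Prop where
  fin : ∀ u, FiniteDimensional C (V u)
  dim : ∀ u, Module.finrank C (V u) ≤ (2 * u + 1) ^ r
  one : (1 : K) ∈ V 0
  mono : ∀ u u', u ≤ u' → V u ≤ V u'
  mul : ∀ u u', ∀ z ∈ V u, ∀ z' ∈ V u', z * z' ∈ V (u + u')

/-- The point `(θ + s f, s, y)` with coordinates in `K[s]`. -/
noncomputable def pt {K : Type} [Field K] {r : ℕ} (y : Fin r → K) (θ f : K) :
    Option (Option (Fin r)) → K[X]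
  | none => Polynomial.C θ + Polynomial.X * Polynomial.C f
  | some none => Polynomial.X
  | some (some i) => Polynomial.C (y i)

/-- The point `(θ, y)`. -/
def pt₀ {K : Type} {r : ℕ} (y : Fin r → K) (θ : K) : Option (Fin r) → K := fun o => o.elim θ y

/-- **Piece CNT** (counting dimensions). -/
def S_CNT : Prop :=
  ∀ (C K : Type) [Field C] [Field K] [Algebra C K] (r a : ℕ) (V : ℕ → Submodule C K),
    IsFil C K r V → ∀ (y : Fin r → K) (θ f : K), (∀ i, y i ∈ V a) → θ ∈ V a → f ∈ V a →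
    ∃ Φ : MvPolynomial (Option (Option (Fin r))) C, Φ ≠ 0 ∧ Φ.totalDegree ≤ bdM r a ∧
      MvPolynomial.aeval (pt y θ f) Φ = 0

/-- **Piece DEG** (the degree of `θ + s f`). -/
def S_DEG : Prop :=
  ∀ (F K : Type) [Field F] [Field K] [Algebra F K] (θ f : K), IsIntegral F θ →
    f ∈ IntermediateField.adjoin F {θ} →
    ∃ L : F[X][X], L ≠ 0 ∧ L.natDegree ≤ (minpoly F θ).natDegree ∧
      Polynomial.eval₂ (Polynomial.mapRingHom (algebraMap F K))
        (Polynomial.C θ + Polynomial.X * Polynomial.C f) L = 0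

/-- **Piece DRV** (the derivative does not vanish at `s = 0`). The inner variable is `s`. -/
def S_DRV : Prop :=
  ∀ (R F K : Type) [CommRing R] [IsDomain R] [UniqueFactorizationMonoid R] [CharZero R] [Field F]
    [Algebra R F] [IsFractionRing R F] [Field K] [Algebra R K] [Algebra F K] [IsScalarTower R F K]
    (θ f : K), IsAlgebraic F θ → f ∈ IntermediateField.adjoin F {θ} →
    ∀ Φ : R[X][X], Irreducible Φ →
      Polynomial.eval₂ (Polynomial.mapRingHom (algebraMap R K))
        (Polynomial.C θ + Polynomial.X * Polynomial.C f) Φ = 0 →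
      Polynomial.eval₂ ((algebraMap R K).comp Polynomial.constantCoeff) θ
        (Polynomial.derivative Φ) ≠ 0

/-- **Piece WRP**: `f` is a quotient of polynomials in `y` and `θ` of bounded degree. -/
def S_WRP : Prop :=
  ∀ (C K : Type) [Field C] [CharZero C] [Field K] [Algebra C K] (r : ℕ) (y : Fin r → K) (θ f : K),
    AlgebraicIndependent C y → IsAlgebraic (IntermediateField.adjoin C (Set.range y)) θ →
    f ∈ IntermediateField.adjoin (IntermediateField.adjoin C (Set.range y)) {θ} →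
    ∀ Φ : MvPolynomial (Option (Option (Fin r))) C, Φ ≠ 0 →
      MvPolynomial.aeval (pt y θ f) Φ = 0 →
      ∃ P Q : MvPolynomial (Option (Fin r)) C, P.totalDegree ≤ Φ.totalDegree ∧
        Q.totalDegree ≤ Φ.totalDegree ∧ MvPolynomial.aeval (pt₀ y θ) Q ≠ 0 ∧
        MvPolynomial.aeval (pt₀ y θ) Q * f = MvPolynomial.aeval (pt₀ y θ) P

/-- **Piece PRM** (a linear combination with coefficients in `C` is a primitive element). -/
def S_PRM : Prop :=
  ∀ (C K : Type) [Field C] [CharZero C] [Field K] [Algebra C K] (F : IntermediateField C K)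
    (m : Type) [Fintype m] (x : m → K), (∀ i, IsAlgebraic F (x i)) →
    ∃ c : m → C, ∀ i, x i ∈ IntermediateField.adjoin F {∑ j, algebraMap C K (c j) * x j}

/-- **Piece TRA**. -/
def S_TRA : Prop :=
  ∀ (C K : Type) [Field C] [Field K] [Algebra C K] (r : ℕ) (y : Fin r → K) (z : K),
    AlgebraicIndependent C y → ∀ Φ : MvPolynomial (Option (Option (Fin r))) C, Φ ≠ 0 →
      MvPolynomial.aeval (pt y z 0) Φ = 0 →
      IsAlgebraic (IntermediateField.adjoin C (Set.range y)) z

/-- **Piece STAR** (bounded denominators), from CNT, WRP, PRM, TRA. -/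
def S_STAR : Prop :=
  ∀ (C K : Type) [Field C] [CharZero C] [Field K] [Algebra C K] (r a : ℕ)
    (V : ℕ → Submodule C K), IsFil C K r V → ∀ (m : Type) [Fintype m] (x : m → K)
    (l : Fin r → m → C), (∀ i, x i ∈ V a) →
    AlgebraicIndependent C (fun k => ∑ j, algebraMap C K (l k j) * x j) →
    ∀ F : MvPolynomial m C, MvPolynomial.aeval x F ∈ V a →
    ∃ P Q : MvPolynomial m C, P.totalDegree ≤ bdM r a ∧ Q.totalDegree ≤ bdM r a ∧
      MvPolynomial.aeval x Q ≠ 0 ∧
      MvPolynomial.aeval x Q * MvPolynomial.aeval x F = MvPolynomial.aeval x P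

/-- **Piece DUA** (dual bases of spaces of functions). -/
def S_DUA : Prop :=
  ∀ (C G : Type) [Field C] (J : Submodule C (G → C)), FiniteDimensional C J →
    ∃ (k : ℕ) (y : Fin k → G) (b : Fin k → G → C), (∀ l, b l ∈ J) ∧
      ∀ h ∈ J, ∀ z, h z = ∑ l, h (y l) * b l z

/-- **Piece JAR** (translates of a denominator). -/
def S_JAR : Prop :=
  ∀ (C : Type) [Field C] (G : Type) [Monoid G] (iv : G → G),
    (∀ x, iv x * x = 1 ∧ x * iv x = 1) →
    ∀ (F : ℕ → Submodule C (G → C)) (E : Submodule C (G → C)) (D M : ℕ),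
    (∀ m m', m ≤ m' → F m ≤ F m') → (1 : G → C) ∈ F 0 →
    (∀ m m', ∀ h ∈ F m, ∀ h' ∈ F m', h * h' ∈ F (m + m')) →
    (∀ m, FiniteDimensional C (F m)) →
    (∀ m, ∀ h ∈ F m, (∀ a, (fun x => h (a * x)) ∈ F m ∧ (fun x => h (x * a)) ∈ F m) ∧
      (fun x => h (iv x)) ∈ F m) →
    (∀ m m', ∀ h ∈ F m, ∀ h' ∈ F m', h * h' = 0 → h = 0 ∨ h' = 0) →
    FiniteDimensional C E → Module.finrank C E ≤ D →
    (∀ f ∈ E, ∀ a, (fun x => f (a * x)) ∈ E ∧ (fun x => f (x * a)) ∈ E) →
    (∀ f ∈ E, ∃ Q ∈ F M, ∃ P ∈ F M, Q ≠ 0 ∧ Q * f = P) →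
    ∀ f ∈ E, f ∈ F (2 * M * D)

/-- **Piece GP** (generic point with as many parameters as independent functions). -/
def S_GP : Prop :=
  ∀ (C : Type) [Field C] [CharZero C] (ι : Type) [Fintype ι] [DecidableEq ι] (A : Type)
    (w₀ : ℕ) (P : A → ℤ → Matrix ι ι C) (lam : A → Cˣ → Matrix ι ι C),
    (∀ a t, lam a t = ∑ k ∈ Finset.Icc (-w₀ : ℤ) w₀, ((t ^ k : Cˣ) : C) • P a k) →
    (∀ a, lam a 1 = 1) →
    ∃ (r : ℕ) (K : Type) (_ : Field K) (_ : Algebra C K) (g : ι × ι → K)
      (V : ℕ → Submodule C K) (l : Fin r → ι × ι → C),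
      r ≤ Fintype.card ι ^ 2 ∧ IsFil C K r V ∧ (∀ p, g p ∈ V w₀) ∧
      AlgebraicIndependent C (fun k => ∑ p, algebraMap C K (l k p) * g p) ∧
      (∀ w n, ∀ v ∈ Lv lam w n, ∀ i, MvPolynomial.aeval g (mc n v i) ∈ V w) ∧
      ∀ f : MvPolynomial (ι × ι) C, MvPolynomial.aeval g f = 0 ↔
        ∀ h ∈ Mon lam, MvPolynomial.eval (Pool.Agent.K6.H94.TG.ent h) f = 0

/-- **Piece FNL**, from GP, STAR, JAR: matrix coefficients of bounded level have bounded degree, with an
explicit bound. -/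
def S_FNL : Prop :=
  ∀ (C : Type) [Field C] [CharZero C] (ι : Type) [Fintype ι] [DecidableEq ι] (A : Type)
    (w₀ : ℕ) (P : A → ℤ → Matrix ι ι C) (lam : A → Cˣ → Matrix ι ι C),
    (∀ a t, lam a t = ∑ k ∈ Finset.Icc (-w₀ : ℤ) w₀, ((t ^ k : Cˣ) : C) • P a k) →
    (∀ a, lam a 1 = 1) → (∀ a t, lam a t⁻¹ * lam a t = 1) →
    ∀ B B' : Matrix ι ι C, B' * B = 1 → (∀ a t, (lam a t)ᵀ * B * lam a t = B) →
    ∀ (w n : ℕ), ∀ v ∈ Lv lam w n, ∀ i, ∃ q ∈ Ep C ι (bdN (Fintype.card ι) w₀ w),
      ∀ h ∈ Mon lam, MvPolynomial.eval (Pool.Agent.K6.H94.TG.ent h) (mc n v i) =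
        MvPolynomial.eval (Pool.Agent.K6.H94.TG.ent h) q

end Pool.Agent.K6.H94.XB
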