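import Pool.Agent.K6.H94.FG.Fin
import Pool.Agent.K6.H94.XB.Stm

/-!
# Matrix coefficients of bounded level for Hodge structures, with an explicit bound
-/

set_option autoImplicit false
set_option linter.unusedSectionVars false

namespace Pool.Agent.K6.H94.XB

open Matrix Pool.Agent.N996.BP
open Pool.Agent.K6.H94.TG (kpw Mon mc Ep eval_mc)
open Pool.Agent.K6.H94.FG (Ent coef_mem Lv_rei)

variable {ι : Type} [Fintype ι] [DecidableEq ι] (H : HData ι)

/-- The conjugates of the cocharacter. -/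
noncomputable def lamH (σ : ℂ ≃+* ℂ) (t : ℂˣ) : Matrix ι ι ℂ := (H.l (σ.symm t)).map σ

variable {H}

lemma lamH_eq (σ : ℂ ≃+* ℂ) (t : ℂˣ) : lamH H σ t =
    ∑ k ∈ Finset.Icc (-H.w : ℤ) H.w, ((t ^ k : ℂˣ) : ℂ) • (H.π k).map σ := by
  rw [lamH, H.l_apply]
  ext i j
  rw [Matrix.sum_apply, Matrix.map_apply, Matrix.sum_apply, map_sum]
  refine Finset.sum_congr rfl fun k _ => ?_
  rw [Matrix.smul_apply, Matrix.smul_apply, smul_eq_mul, smul_eq_mul, map_mul, map_zpow₀,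
    RingEquiv.apply_symm_apply, Units.val_zpow_eq_zpow_val]
  rfl

lemma lamH_symm (σ : ℂ ≃+* ℂ) {t : ℂ} (ht : t ≠ 0) :
    lamH H σ (Units.mk0 (σ t) ((map_ne_zero σ).2 ht)) = (H.l t).map σ := by
  rw [lamH, Units.val_mk0, RingEquiv.symm_apply_apply]

lemma symm_ne (σ : ℂ ≃+* ℂ) (t : ℂˣ) : σ.symm (t : ℂ) ≠ 0 := (map_ne_zero σ.symm).2 t.ne_zero

lemma mon_eq : Mon (lamH H) = GG H := by
  rw [Mon, GG]
  congr 1
  ext h
  constructor
  · rintro ⟨σ, t, rfl⟩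
    exact ⟨σ, _, symm_ne σ t, rfl⟩
  · rintro ⟨σ, t, ht, rfl⟩
    exact ⟨σ, _, (lamH_symm σ ht).symm⟩

lemma lv_le {w n : ℕ} {v : (Fin n → ι) → ℂ} (hv : v ∈ FG.Lv H w (Fin n)) :
    v ∈ TG.Lv (lamH H) w n := by
  intro h hh σ
  rw [mon_eq] at hh
  obtain ⟨c, hc⟩ := hv h hh σ
  refine ⟨c, fun t => ?_⟩
  have h1 := hc (σ.symm t) (symm_ne σ t)
  simp only [RingEquiv.apply_symm_apply] at h1
  refine Eq.trans h1 (Finset.sum_congr rfl fun k _ => ?_)
  rw [Units.val_zpow_eq_zpow_val]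

/-- The coordinates of the orbit maps of the arrays of level at most `w` are combinations of the entries of
the Kronecker power with `N` factors. -/
def CoefN (H : HData ι) (w N : ℕ) : Prop :=
  ∀ (κ : Type) [Fintype κ] [DecidableEq κ], ∀ v ∈ FG.Lv H w κ, ∀ i : κ → ι,
    (fun γ : GG H => (kp κ (γ : Matrix ι ι ℂ) *ᵥ v) i) ∈ Ent H N

/-- **The explicit bound.** -/
theorem coefN (hF : S_FNL) (H : HData ι) {w N : ℕ} (hN : bdN (Fintype.card ι) H.w w ≤ N) :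
    CoefN H w N := by
  intro κ _ _ v hv i
  obtain ⟨m, e⟩ : ∃ m, Nonempty (κ ≃ Fin m) := ⟨Fintype.card κ, ⟨Fintype.equivFin κ⟩⟩
  obtain ⟨e⟩ := e
  have hv' := Lv_rei e hv
  have h1 : ∀ γ : Matrix ι ι ℂ, (kp κ γ *ᵥ v) i = (kp (Fin m) γ *ᵥ rei e v) (i ∘ e.symm) := by
    intro γ
    rw [kp_rei, rei]
    congr 1
    funext x
    simp
  have hB : cQ H.Qir * cQ H.Qr = 1 := by
    rw [mul_eq_one_comm, ← cQ_mul, H.Qr_Qir, cQ_one]
  have hlt : ∀ σ (t : ℂˣ), (lamH H σ t)ᵀ * cQ H.Qr * lamH H σ t = cQ H.Qr := by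
    intro σ t
    have h2 := congrArg (fun M : Matrix ι ι ℂ => M.map σ) (H.l_Q (symm_ne σ t))
    rw [map_mul', map_mul', cQ_map] at h2
    exact h2
  have hinv : ∀ σ (t : ℂˣ), lamH H σ t⁻¹ * lamH H σ t = 1 := by
    intro σ t
    have h2 : σ.symm ((t⁻¹ : ℂˣ) : ℂ) = (σ.symm (t : ℂ))⁻¹ := by
      rw [Units.val_inv_eq_inv_val, map_inv₀]
    rw [lamH, lamH, h2, ← map_mul', H.l_inv' (symm_ne σ t)]
    exact Matrix.map_one _ (map_zero σ) (map_one σ)
  have hone : ∀ σ, lamH H σ 1 = 1 := by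
    intro σ
    rw [lamH, Units.val_one, map_one, H.l_one]
    exact Matrix.map_one _ (map_zero σ) (map_one σ)
  obtain ⟨q, hq, hqe⟩ := hF ℂ ι (ℂ ≃+* ℂ) H.w (fun σ k => (H.π k).map σ) (lamH H) lamH_eq hone
    hinv (cQ H.Qr) (cQ H.Qir) hB hlt w m (rei e v) (lv_le hv') (i ∘ e.symm)
  have h4 : (fun γ : GG H => (kp κ (γ : Matrix ι ι ℂ) *ᵥ v) i) =
      fun γ : GG H => MvPolynomial.eval (TG.ent (γ : Matrix ι ι ℂ)) q := by
    funext γ
    rw [h1, ← hqe γ (by rw [mon_eq]; exact γ.2), eval_mc]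
    rfl
  rw [h4]
  clear h4 hqe
  rw [Ep] at hq
  induction hq using Submodule.span_induction with
  | mem f hf =>
    obtain ⟨m, hm, v, i, rfl⟩ := hf
    have h5 := coef_mem (H := H) (hm.trans hN) v i
    have h6 : (fun γ : GG H => MvPolynomial.eval (TG.ent (γ : Matrix ι ι ℂ)) (mc m v i)) =
        fun γ : GG H => (kp (Fin m) (γ : Matrix ι ι ℂ) *ᵥ v) i := by
      funext γ
      rw [eval_mc]
      rfl
    rw [h6]
    exact h5
  | zero =>
    have h6 : (fun γ : GG H => MvPolynomial.eval (TG.ent (γ : Matrix ι ι ℂ))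
        (0 : MvPolynomial (ι × ι) ℂ)) = 0 := by
      funext γ; simp
    rw [h6]
    exact Submodule.zero_mem _
  | add x y _ _ hx hy =>
    have h6 : (fun γ : GG H => MvPolynomial.eval (TG.ent (γ : Matrix ι ι ℂ)) (x + y)) =
        (fun γ : GG H => MvPolynomial.eval (TG.ent (γ : Matrix ι ι ℂ)) x) +
          fun γ : GG H => MvPolynomial.eval (TG.ent (γ : Matrix ι ι ℂ)) y := by
      funext γ; simp
    rw [h6]
    exact Submodule.add_mem _ hx hy
  | smul c x _ hx =>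
    have h6 : (fun γ : GG H => MvPolynomial.eval (TG.ent (γ : Matrix ι ι ℂ)) (c • x)) =
        c • fun γ : GG H => MvPolynomial.eval (TG.ent (γ : Matrix ι ι ℂ)) x := by
      funext γ; simp
    rw [h6]
    exact Submodule.smul_mem _ _ hx

end Pool.Agent.K6.H94.XB
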