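import Pool.Agent.K6.H94.FG.Desc
import Pool.Agent.K6.H94.XB.Hbr

/-!
# The identity of the arrays of bounded level, with an explicit bound
-/

set_option autoImplicit false
set_option linter.unusedSectionVars false

namespace Pool.Agent.K6.H94.XB

open Matrix Pool.Agent.N996.BP Pool.Agent.K6.H94.FG

variable {ι : Type} [Fintype ι] [DecidableEq ι] (H : HData ι)

/-- **The identity of the arrays of bounded level factors through arrays with `N` factors.** -/
theorem id_of {w N : ℕ} (h : CoefN H w N) (δ : Type) [Fintype δ] [DecidableEq δ] :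
    ∃ e ∈ Il H (Fin N ⊕ δ) (Fin N), ∀ v ∈ Lv H w (Fin N ⊕ δ), e *ᵥ v = v := by
  obtain ⟨P, hP1, hP2, hPG⟩ := exists_P (H := H) (κ := Fin N ⊕ δ) (l := Fin N)
  have hPs : P ∈ Subalgebra.toSubmodule (GA H (Fin N ⊕ δ)) := hPG
  rw [GA_eq_span, Set.image_eq_range] at hPs
  obtain ⟨c, hc⟩ := Finsupp.mem_span_range_iff_exists_finsupp.1 hPs
  have hPv : ∀ v i, (P *ᵥ v) i = c.sum fun γ a => a * (kp (Fin N ⊕ δ) (γ : Matrix ι ι ℂ) *ᵥ v) i := by
    intro v i
    rw [← hc, Finsupp.sum, Matrix.sum_mulVec, Finset.sum_apply, Finsupp.sum]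
    refine Finset.sum_congr rfl fun γ _ => ?_
    rw [Matrix.smul_mulVec, Pi.smul_apply, smul_eq_mul]
  -- the combination is zero on the arrays with `N` factors
  have hN0 : ∀ (y : (Fin N → ι) → ℂ) (i : Fin N → ι),
      (c.sum fun γ a => a * (kp (Fin N) (γ : Matrix ι ι ℂ) *ᵥ y) i) = 0 := by
    intro y i
    have h1 : P *ᵥ (tens y (uni ℂ H.D.o δ)) = 0 := by
      rw [← Jm_mulVec]
      exact hP2 _ (img_mem (Jm_mem H N δ) y)
    have h2 := congrFun h1 (Sum.elim i fun _ => H.D.o)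
    rw [hPv, Pi.zero_apply] at h2
    rw [← h2]
    refine Finset.sum_congr rfl fun γ _ => ?_
    change c γ * _ = c γ * _
    rw [kp_tens, uni_fix H δ γ.2, tens_elim]
    have h3 : uni ℂ H.D.o δ (fun _ => H.D.o) = 1 := by simp [uni]
    rw [h3, mul_one]
  -- the functional
  have hE : ∀ F ∈ Ent H N, (c.sum fun γ a => a * F γ) = 0 := by
    intro F hF
    induction hF using Submodule.span_induction with
    | mem F hF =>
      obtain ⟨i, j, rfl⟩ := hF
      have h1 := hN0 (Pi.single j 1) i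
      rw [← h1]
      refine Finset.sum_congr rfl fun γ _ => ?_
      change c γ * _ = c γ * _
      rw [Matrix.mulVec_single_one]
      rfl
    | zero => simp
    | add F G _ _ hF hG =>
      have h1 : (c.sum fun γ a => a * (F + G) γ) =
          (c.sum fun γ a => a * F γ) + c.sum fun γ a => a * G γ := by
        rw [← Finsupp.sum_add]
        refine Finset.sum_congr rfl fun γ _ => ?_
        change c γ * (F γ + G γ) = _
        ring
      rw [h1, hF, hG, add_zero]
    | smul r F _ hF =>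
      have h1 : (c.sum fun γ a => a * (r • F) γ) = r * c.sum fun γ a => a * F γ := by
        rw [Finsupp.mul_sum]
        refine Finset.sum_congr rfl fun γ _ => ?_
        change c γ * (r * F γ) = _
        ring
      rw [h1, hF, mul_zero]
  obtain ⟨e, he, hey⟩ := exists_e (H := H) (κ := Fin N ⊕ δ) (l := Fin N)
  refine ⟨e, he, fun v hv => hey v ?_⟩
  have hPv0 : P *ᵥ v = 0 := by
    funext i
    rw [hPv]
    exact hE _ (h _ v hv i)
  obtain ⟨a, ha, b, hb, rfl⟩ := exists_dec (H := H) (l := Fin N) v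
  rw [Matrix.mulVec_add, hP1 a ha, hP2 b hb, add_zero] at hPv0
  rw [hPv0, zero_add]
  exact hb

/-- **The identity of the rational arrays of bounded level factors through `N` factors.** -/
theorem idQ_of {w N : ℕ} (h : CoefN H w N) {n : ℕ} (hn : N ≤ n) :
    ∃ (r : ℕ) (a : Fin r → Matrix (Fin n → ι) (Fin N → ι) ℚ)
      (b : Fin r → Matrix (Fin N → ι) (Fin n → ι) ℚ),
      (∀ i, a i ∈ ComQ H (Fin n) (Fin N)) ∧ (∀ i, b i ∈ ComQ H (Fin N) (Fin n)) ∧
      ∀ y : (Fin n → ι) → ℚ, ca y ∈ Lv H w (Fin n) → ∑ i, a i *ᵥ (b i *ᵥ y) = y := by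
  obtain ⟨d, rfl⟩ := Nat.exists_eq_add_of_le hn
  obtain ⟨e₀, he₀, hev₀⟩ := id_of H h (Fin d)
  obtain ⟨e, he, hee⟩ := Il_rei (finSumFinEquiv (m := N) (n := d)) he₀
  have hev : ∀ v ∈ Lv H w (Fin (N + d)), e *ᵥ v = v := by
    intro v hv
    rw [hee, hev₀ _ (Lv_rei _ hv), rei_symm]
  -- the rational arrays of bounded level
  let L : Submodule ℚ ((Fin (N + d) → ι) → ℚ) :=
    { carrier := {y | ca y ∈ Lv H w (Fin (N + d))}
      add_mem' := fun {a b} ha hb => by
        have e : ca (a + b) = ca a + ca b := by funext i; simp [ca]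
        change ca (a + b) ∈ Lv H w (Fin (N + d))
        rw [e]; exact Submodule.add_mem _ ha hb
      zero_mem' := by
        have e : ca (0 : (Fin (N + d) → ι) → ℚ) = 0 := by funext i; simp [ca]
        change ca 0 ∈ Lv H w (Fin (N + d))
        rw [e]; exact Submodule.zero_mem _
      smul_mem' := fun c a ha => by
        have e : ca (c • a) = (c : ℂ) • ca a := by funext i; simp [ca]
        change ca (c • a) ∈ Lv H w (Fin (N + d))
        rw [e]; exact Submodule.smul_mem _ _ ha }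
  let B := Module.finBasis ℚ L
  let V : Matrix (Fin (N + d) → ι) (Fin (Module.finrank ℚ L)) ℚ :=
    Matrix.of fun i j => ((B j : L) : (Fin (N + d) → ι) → ℚ) i
  have hcol : ∀ (M : Matrix (Fin (N + d) → ι) (Fin (N + d) → ι) ℂ) (i) (j),
      (M * cQ V) i j = (M *ᵥ ca ((B j : L) : (Fin (N + d) → ι) → ℚ)) i := fun M i j => rfl
  have heV : e * cQ V = cQ V := by
    ext i j
    rw [hcol, hev _ (B j).2]
    rfl
  -- descent
  have h1 : cQ V ∈ Submodule.span ℂ {M | ∃ a ∈ ComQ H (Fin (N + d)) (Fin N),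
      ∃ b ∈ ComQ H (Fin N) (Fin (N + d)), M = cQ (a * b * V)} := by
    rw [← heV]
    have he' := Il_span he
    clear hee hev heV he
    induction he' using Submodule.span_induction with
    | mem x hx =>
      obtain ⟨a, ha, b, hb, rfl⟩ := hx
      exact Submodule.subset_span ⟨a, ha, b, hb, (cQ_mul _ _).symm⟩
    | zero => rw [Matrix.zero_mul]; exact Submodule.zero_mem _
    | add a b _ _ ha hb => rw [Matrix.add_mul]; exact Submodule.add_mem _ ha hb
    | smul c a _ ha => rw [Matrix.smul_mul]; exact Submodule.smul_mem _ _ ha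
  let un : ∀ {R : Type}, Matrix (Fin (N + d) → ι) (Fin (Module.finrank ℚ L)) R →
      ((Fin (N + d) → ι) × Fin (Module.finrank ℚ L) → R) := fun M z => M z.1 z.2
  have h2 : cv (un V) ∈ Submodule.span ℂ {w | ∃ u ∈ {u | ∃ a ∈ ComQ H (Fin (N + d)) (Fin N),
      ∃ b ∈ ComQ H (Fin N) (Fin (N + d)), u = un (a * b * V)}, w = cv u} := by
    have h3 : ∀ M ∈ Submodule.span ℂ {M | ∃ a ∈ ComQ H (Fin (N + d)) (Fin N),
        ∃ b ∈ ComQ H (Fin N) (Fin (N + d)), M = cQ (a * b * V)},
        un M ∈ Submodule.span ℂ {w | ∃ u ∈ {u | ∃ a ∈ ComQ H (Fin (N + d)) (Fin N),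
      ∃ b ∈ ComQ H (Fin N) (Fin (N + d)), u = un (a * b * V)}, w = cv u} := by
      intro M hM
      induction hM using Submodule.span_induction with
      | mem x hx =>
        obtain ⟨a, ha, b, hb, rfl⟩ := hx
        exact Submodule.subset_span ⟨_, ⟨a, ha, b, hb, rfl⟩, rfl⟩
      | zero => exact Submodule.zero_mem _
      | add a b _ _ ha hb => exact Submodule.add_mem _ ha hb
      | smul c a _ ha => exact Submodule.smul_mem _ c ha
    exact h3 _ h1
  have h4 := rat_span h2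
  obtain ⟨r, c, g, hg, hsum⟩ : ∃ (r : ℕ) (c : Fin r → ℚ)
      (g : Fin r → ((Fin (N + d) → ι) × Fin (Module.finrank ℚ L) → ℚ)),
      (∀ i, ∃ a ∈ ComQ H (Fin (N + d)) (Fin N), ∃ b ∈ ComQ H (Fin N) (Fin (N + d)),
        g i = un (a * b * V)) ∧ ∑ i, c i • g i = un V := by
    obtain ⟨r, c, g, h5⟩ := Submodule.mem_span_set'.1 h4
    exact ⟨r, c, fun i => g i, fun i => (g i).2, h5⟩
  choose a ha b hb hab using hg
  refine ⟨r, fun i => c i • a i, b, fun i => Submodule.smul_mem _ _ (ha i), hb, fun y hy => ?_⟩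
  -- the columns
  have hV : ∀ j, ∑ i, (c i • a i) *ᵥ (b i *ᵥ ((B j : L) : (Fin (N + d) → ι) → ℚ)) =
      ((B j : L) : (Fin (N + d) → ι) → ℚ) := by
    intro j
    funext x
    have h5 := congrFun hsum (x, j)
    rw [Finset.sum_apply] at h5 ⊢
    have h6 : un V (x, j) = ((B j : L) : (Fin (N + d) → ι) → ℚ) x := rfl
    rw [← h6, ← h5]
    refine Finset.sum_congr rfl fun i _ => ?_
    rw [Matrix.smul_mulVec, Pi.smul_apply, Pi.smul_apply, hab i, Matrix.mulVec_mulVec]
    rfl
  have h5 : (⟨y, hy⟩ : L) = ∑ j, B.repr ⟨y, hy⟩ j • B j := (B.sum_repr _).symm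
  have h6 : y = ∑ j, B.repr ⟨y, hy⟩ j • ((B j : L) : (Fin (N + d) → ι) → ℚ) := by
    have := congrArg Subtype.val h5
    rw [AddSubmonoidClass.coe_finsetSum] at this
    exact this
  have h7 : ∀ i, (c i • a i) *ᵥ (b i *ᵥ y) = ∑ j, B.repr ⟨y, hy⟩ j •
      ((c i • a i) *ᵥ (b i *ᵥ ((B j : L) : (Fin (N + d) → ι) → ℚ))) := by
    intro i
    conv_lhs => rw [h6]
    rw [Matrix.mulVec_sum, Matrix.mulVec_sum]
    refine Finset.sum_congr rfl fun j _ => ?_
    rw [Matrix.mulVec_smul, Matrix.mulVec_smul]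
  rw [Finset.sum_congr rfl fun i _ => h7 i, Finset.sum_comm]
  conv_rhs => rw [h6]
  refine Finset.sum_congr rfl fun j _ => ?_
  rw [← Finset.smul_sum, hV]

end Pool.Agent.K6.H94.XB
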