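import Pool.Agent.K6.H94.XB.Stm

/-!
# CNT: counting dimensions (piece of helper37)
-/

set_option autoImplicit false

namespace Pool.Agent.K6.H94.XB

open Polynomial

namespace CNT

theorem numer (r a B : ℕ) (hB : B = 2 * (2 * a * (r + 1) + 1) ^ r) :
    (2 * B + 1) * (2 * (a * (r + 1) * B) + 1) ^ r < (B + 1) ^ (r + 2) := by
  have hA : 0 < (2 * a * (r + 1) + 1) ^ r := by positivity
  have h1 : 2 * (a * (r + 1) * B) + 1 ≤ (2 * a * (r + 1) + 1) * (B + 1) := by
    nlinarith [Nat.zero_le (a * (r + 1)), Nat.zero_le B]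
  have h2 : (2 * (a * (r + 1) * B) + 1) ^ r ≤ (2 * a * (r + 1) + 1) ^ r * (B + 1) ^ r := by
    rw [← mul_pow]
    exact Nat.pow_le_pow_left h1 r
  have h3 : 0 < (2 * a * (r + 1) + 1) ^ r * (B + 1) ^ r := by positivity
  calc (2 * B + 1) * (2 * (a * (r + 1) * B) + 1) ^ r
      ≤ (2 * B + 1) * ((2 * a * (r + 1) + 1) ^ r * (B + 1) ^ r) := Nat.mul_le_mul_left _ h2
    _ < (2 * (B + 1)) * ((2 * a * (r + 1) + 1) ^ r * (B + 1) ^ r) :=
        Nat.mul_lt_mul_of_pos_right (by omega) h3
    _ = (2 * (2 * a * (r + 1) + 1) ^ r) * (B + 1) ^ (r + 1) := by ring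
    _ = B * (B + 1) ^ (r + 1) := by rw [← hB]
    _ ≤ (B + 1) * (B + 1) ^ (r + 1) := Nat.mul_le_mul_right _ (by omega)
    _ = (B + 1) ^ (r + 2) := by ring

variable {C K : Type} [Field C] [Field K] [Algebra C K] {r : ℕ} {V : ℕ → Submodule C K}

/-- the coefficients are in `V n` -/
def CI (V : ℕ → Submodule C K) (n : ℕ) (P : K[X]) : Prop := ∀ j, P.coeff j ∈ V n

theorem CI.mono (hV : IsFil C K r V) {n m : ℕ} (h : n ≤ m) {P : K[X]} (hP : CI V n P) :
    CI V m P := fun j => hV.mono n m h (hP j)

theorem CI.one (hV : IsFil C K r V) : CI V 0 (1 : K[X]) := by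
  intro j
  rw [coeff_one]
  split_ifs
  · exact hV.one
  · exact Submodule.zero_mem _

theorem CI.mul (hV : IsFil C K r V) {n m : ℕ} {P Q : K[X]} (hP : CI V n P) (hQ : CI V m Q) :
    CI V (n + m) (P * Q) := by
  intro j
  rw [coeff_mul]
  exact Submodule.sum_mem _ fun x _ => hV.mul n m _ (hP _) _ (hQ _)

theorem CI.pow (hV : IsFil C K r V) {n : ℕ} {P : K[X]} (hP : CI V n P) (k : ℕ) :
    CI V (n * k) (P ^ k) := by
  induction k with
  | zero =>
    rw [pow_zero, mul_zero]
    exact CI.one hV
  | succ k ih =>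
    rw [pow_succ, Nat.mul_succ]
    exact CI.mul hV ih hP

theorem CI.prod (hV : IsFil C K r V) {ι : Type} (s : Finset ι) (n : ι → ℕ) (P : ι → K[X])
    (h : ∀ i ∈ s, CI V (n i) (P i)) : CI V (∑ i ∈ s, n i) (∏ i ∈ s, P i) := by
  classical
  induction s using Finset.induction_on with
  | empty =>
    rw [Finset.sum_empty, Finset.prod_empty]
    exact CI.one hV
  | insert a s ha ih =>
    rw [Finset.sum_insert ha, Finset.prod_insert ha]
    exact CI.mul hV (h a (Finset.mem_insert_self _ _))
      (ih fun i hi => h i (Finset.mem_insert_of_mem hi))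

/-- the weight of a variable -/
def wt (r a : ℕ) : Option (Option (Fin r)) → ℕ
  | none => a
  | some none => 0
  | some (some _) => a

/-- the degree of a variable in `s` -/
def dg (r : ℕ) : Option (Option (Fin r)) → ℕ
  | none => 1
  | some none => 1
  | some (some _) => 0

theorem CI.const {n : ℕ} {x : K} (hx : x ∈ V n) : CI V n (Polynomial.C x) := by
  intro j
  rw [coeff_C]
  split_ifs
  · exact hx
  · exact Submodule.zero_mem _

theorem CI.X (hV : IsFil C K r V) : CI V 0 (Polynomial.X : K[X]) := by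
  intro j
  rw [coeff_X]
  split_ifs
  · exact hV.one
  · exact Submodule.zero_mem _

theorem CI.pt (hV : IsFil C K r V) {a : ℕ} {y : Fin r → K} {θ f : K} (hy : ∀ i, y i ∈ V a)
    (hθ : θ ∈ V a) (hf : f ∈ V a) (o : Option (Option (Fin r))) : CI V (wt r a o) (pt y θ f o) := by
  rcases o with _ | _ | i
  · intro j
    change (Polynomial.C θ + Polynomial.X * Polynomial.C f).coeff j ∈ V a
    rw [coeff_add]
    refine Submodule.add_mem _ (CI.const hθ j) ?_
    have := CI.mul hV (CI.X hV) (CI.const hf) j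
    rwa [zero_add] at this
  · exact CI.X hV
  · exact CI.const (hy i)

theorem deg_pt {y : Fin r → K} {θ f : K} (o : Option (Option (Fin r))) :
    (pt y θ f o).natDegree ≤ dg r o := by
  rcases o with _ | _ | i
  · change (Polynomial.C θ + Polynomial.X * Polynomial.C f).natDegree ≤ 1
    refine (natDegree_add_le _ _).trans (max_le ?_ ?_)
    · rw [natDegree_C]
      exact Nat.zero_le _
    · refine natDegree_mul_le.trans ?_
      rw [natDegree_C]
      exact natDegree_X_le
  · exact natDegree_X_le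
  · exact (natDegree_C _).le

theorem sum_wt {r a B : ℕ} (e : Option (Option (Fin r)) → Fin (B + 1)) :
    ∑ o, wt r a o * (e o : ℕ) ≤ a * (r + 1) * B := by
  rw [Fintype.sum_option, Fintype.sum_option]
  have h0 : (e none : ℕ) ≤ B := Nat.lt_succ_iff.1 (e none).2
  have h1 : ∑ i : Fin r, wt r a (some (some i)) * (e (some (some i)) : ℕ) ≤ ∑ _i : Fin r, a * B :=
    Finset.sum_le_sum fun i _ => Nat.mul_le_mul_left a (Nat.lt_succ_iff.1 (e (some (some i))).2)
  rw [Finset.sum_const, Finset.card_univ, Fintype.card_fin, smul_eq_mul] at h1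
  have h2 : wt r a none * (e none : ℕ) ≤ a * B := Nat.mul_le_mul_left a h0
  have h3 : wt r a (some none) * (e (some none) : ℕ) = 0 := Nat.zero_mul _
  rw [h3, zero_add]
  calc _ ≤ a * B + r * (a * B) := Nat.add_le_add h2 h1
    _ = a * (r + 1) * B := by ring

theorem sum_dg {r B : ℕ} (e : Option (Option (Fin r)) → Fin (B + 1)) :
    ∑ o, dg r o * (e o : ℕ) ≤ 2 * B := by
  rw [Fintype.sum_option, Fintype.sum_option]
  have h0 : (e none : ℕ) ≤ B := Nat.lt_succ_iff.1 (e none).2
  have h1 : (e (some none) : ℕ) ≤ B := Nat.lt_succ_iff.1 (e (some none)).2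
  have h2 : ∑ i : Fin r, dg r (some (some i)) * (e (some (some i)) : ℕ) = 0 :=
    Finset.sum_eq_zero fun i _ => Nat.zero_mul _
  have h3 : dg r none * (e none : ℕ) = (e none : ℕ) := Nat.one_mul _
  have h4 : dg r (some none) * (e (some none) : ℕ) = (e (some none) : ℕ) := Nat.one_mul _
  rw [h2, h3, h4]
  omega

end CNT

open CNT

theorem t_CNT : S_CNT := by
  intro C K _ _ _ r a V hV y θ f hy hθ hf
  classical
  obtain ⟨B, hB⟩ : ∃ B, B = 2 * (2 * a * (r + 1) + 1) ^ r := ⟨_, rfl⟩
  set u : ℕ := a * (r + 1) * B with hu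
  let val : (Option (Option (Fin r)) → Fin (B + 1)) → K[X] := fun e =>
    ∏ o, pt y θ f o ^ (e o : ℕ)
  have hval : ∀ e, CI V u (val e) := by
    intro e
    refine CI.mono hV (sum_wt (a := a) e) ?_
    exact CI.prod hV Finset.univ _ _ fun o _ => CI.pow hV (CI.pt hV hy hθ hf o) _
  have hdeg : ∀ e, (val e).natDegree ≤ 2 * B := by
    intro e
    refine le_trans ?_ (sum_dg e)
    refine (natDegree_prod_le _ _).trans (Finset.sum_le_sum fun o _ => ?_)
    refine natDegree_pow_le.trans ?_
    rw [mul_comm]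
    exact Nat.mul_le_mul_right _ (deg_pt o)
  let L : ((Option (Option (Fin r)) → Fin (B + 1)) → C) →ₗ[C] K[X] :=
    Fintype.linearCombination C val
  have hL : ∀ c, L c = ∑ e, c e • val e := fun c => Fintype.linearCombination_apply C val c
  have hLc : ∀ c j, (L c).coeff j ∈ V u := by
    intro c j
    rw [hL, finsetSum_coeff]
    refine Submodule.sum_mem _ fun e _ => ?_
    rw [coeff_smul]
    exact Submodule.smul_mem _ _ (hval e j)
  let T : ((Option (Option (Fin r)) → Fin (B + 1)) → C) →ₗ[C] (Fin (2 * B + 1) → V u) :=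
    LinearMap.pi fun j =>
      LinearMap.codRestrict (V u)
        (((Polynomial.lcoeff K (j : ℕ)).restrictScalars C).comp L) fun c => hLc c j
  have hT : ∀ c j, ((T c j : V u) : K) = (L c).coeff (j : ℕ) := fun c j => rfl
  have hfinV := hV.fin u
  have hlt : Module.finrank C (Fin (2 * B + 1) → V u) <
      Module.finrank C ((Option (Option (Fin r)) → Fin (B + 1)) → C) := by
    rw [Module.finrank_pi_fintype, Module.finrank_pi]
    simp only [Finset.sum_const, Finset.card_univ, Fintype.card_fin, smul_eq_mul,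
      Fintype.card_fun, Fintype.card_option]
    refine lt_of_le_of_lt (Nat.mul_le_mul_left _ (hV.dim u)) ?_
    exact numer r a B hB
  obtain ⟨c, hcT, hc0⟩ : ∃ c, T c = 0 ∧ c ≠ 0 := by
    by_contra hcon
    push Not at hcon
    have hinj : Function.Injective T := by
      rw [← LinearMap.ker_eq_bot, LinearMap.ker_eq_bot']
      exact hcon
    exact absurd (LinearMap.finrank_le_finrank_of_injective hinj) (not_le.2 hlt)
  have hLc0 : L c = 0 := by
    ext j
    rw [coeff_zero]
    by_cases hj : j < 2 * B + 1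
    · have h1 := hT c ⟨j, hj⟩
      rw [hcT] at h1
      exact h1.symm
    · apply coeff_eq_zero_of_natDegree_lt
      refine lt_of_le_of_lt (b := 2 * B) ?_ (by omega)
      rw [hL]
      refine natDegree_sum_le_of_forall_le _ _ fun e _ => ?_
      exact (natDegree_smul_le _ _).trans (hdeg e)
  let mon : (Option (Option (Fin r)) → Fin (B + 1)) → (Option (Option (Fin r)) →₀ ℕ) := fun e =>
    Finsupp.equivFunOnFinite.symm fun o => (e o : ℕ)
  have hmon : Function.Injective mon := by
    intro e e' h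
    funext o
    have := DFunLike.congr_fun h o
    exact Fin.ext this
  refine ⟨∑ e, MvPolynomial.monomial (mon e) (c e), ?_, ?_, ?_⟩
  · obtain ⟨e0, he0⟩ : ∃ e, c e ≠ 0 := by
      by_contra hcon
      push Not at hcon
      exact hc0 (funext hcon)
    intro h
    have h1 := congrArg (MvPolynomial.coeff (mon e0)) h
    rw [MvPolynomial.coeff_sum, MvPolynomial.coeff_zero] at h1
    rw [Finset.sum_eq_single e0] at h1
    · rw [MvPolynomial.coeff_monomial, if_pos rfl] at h1
      exact he0 h1
    · intro e _ hne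
      rw [MvPolynomial.coeff_monomial, if_neg]
      exact fun h2 => hne (hmon h2)
    · intro h2
      exact absurd (Finset.mem_univ _) h2
  · refine MvPolynomial.totalDegree_finsetSum_le fun e _ => ?_
    refine (MvPolynomial.totalDegree_monomial_le _ _).trans ?_
    rw [Finsupp.sum_fintype _ _ fun _ => rfl]
    have h1 : ∀ o ∈ (Finset.univ : Finset (Option (Option (Fin r)))), (mon e o) ≤ B :=
      fun o _ => Nat.lt_succ_iff.1 (e o).2
    refine (Finset.sum_le_card_nsmul _ _ _ h1).trans ?_
    simp only [Finset.card_univ, Fintype.card_option, Fintype.card_fin, smul_eq_mul]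
    rw [bdM, hB]
    apply le_of_eq
    ring
  · rw [map_sum, ← hLc0, hL]
    refine Finset.sum_congr rfl fun e _ => ?_
    rw [MvPolynomial.aeval_monomial, Algebra.smul_def]
    congr 1
    rw [Finsupp.prod_fintype _ _ fun _ => pow_zero _]
    rfl

end Pool.Agent.K6.H94.XB
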