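import Mathlib

/-!
# The explicit number of factors: definition
-/

set_option autoImplicit false

namespace Pool.Agent.K6.H94.XB

/-- The explicit number of factors. Here `b` is the sum of the Betti numbers and `d` the dimension of the
variety `X`, and `u` is the bound of the levels. -/
def factors (b d u : ℕ) : ℕ :=
  max (4 * (b ^ 2 + 2) * (2 * max d u * (b ^ 2 + 1) + 1) ^ (b ^ 2) * (2 * u + 1) ^ (b ^ 2))
    ((2 * b * (b ^ 2 + 1)) ^ (b ^ 2 + 1))

end Pool.Agent.K6.H94.XB
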