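import Mathlib
import Pool.Agent.K6.H94.XB.Stm

/-!
# Piece DEG: the degree of `θ + s f`

By Cayley–Hamilton for the multiplication with `θ + s f` on `M[s]`, `M = F(θ)`.
-/

set_option autoImplicit false

namespace Pool.Agent.K6.H94.XB

open Polynomial

namespace DegP

theorem main {F M : Type} [Field F] [Field M] [Algebra F M] {e : ℕ}
    (b : Module.Basis (Fin e) F M) (θ f : M) :
    ∃ L : F[X][X], L ≠ 0 ∧ L.natDegree = e ∧
      eval₂ (mapRingHom (algebraMap F M)) (C θ + X * C f) L = 0 := by
  classical
  let ψ : M[X] →+* Matrix (Fin e) (Fin e) F[X] :=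
    ((matPolyEquiv : Matrix (Fin e) (Fin e) F[X] ≃ₐ[F] (Matrix (Fin e) (Fin e) F)[X]).symm :
      (Matrix (Fin e) (Fin e) F)[X] →+* Matrix (Fin e) (Fin e) F[X]).comp
      (mapRingHom (Algebra.leftMulMatrix b : M →+* Matrix (Fin e) (Fin e) F))
  have hψ : Function.Injective ψ := by
    have h1 : Function.Injective
        (mapRingHom (Algebra.leftMulMatrix b : M →+* Matrix (Fin e) (Fin e) F)) := by
      rw [coe_mapRingHom]
      exact Polynomial.map_injective _ (Algebra.leftMulMatrix_injective b)
    exact ((matPolyEquiv : Matrix (Fin e) (Fin e) F[X] ≃ₐ[F]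
      (Matrix (Fin e) (Fin e) F)[X]).symm.injective).comp h1
  have hc : ψ.comp (mapRingHom (algebraMap F M)) =
      algebraMap F[X] (Matrix (Fin e) (Fin e) F[X]) := by
    refine Polynomial.ringHom_ext (fun a => ?_) ?_
    · show (matPolyEquiv.symm (Polynomial.map (Algebra.leftMulMatrix b :
        M →+* Matrix (Fin e) (Fin e) F) (Polynomial.map (algebraMap F M) (C a)))) = _
      rw [Polynomial.map_C, Polynomial.map_C, matPolyEquiv_symm_C]
      have : (Algebra.leftMulMatrix b : M →+* Matrix (Fin e) (Fin e) F) (algebraMap F M a) =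
          algebraMap F (Matrix (Fin e) (Fin e) F) a :=
        (Algebra.leftMulMatrix b).commutes a
      rw [this, Matrix.algebraMap_eq_diagonal, Matrix.algebraMap_eq_diagonal]
      ext i j
      rw [Matrix.map_apply, Matrix.diagonal_apply, Matrix.diagonal_apply]
      split_ifs <;> simp
    · show (matPolyEquiv.symm (Polynomial.map (Algebra.leftMulMatrix b :
        M →+* Matrix (Fin e) (Fin e) F) (Polynomial.map (algebraMap F M) X))) = _
      rw [Polynomial.map_X, Polynomial.map_X, matPolyEquiv_symm_X,
        Matrix.algebraMap_eq_diagonal]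
      rfl
  refine ⟨(ψ (C θ + X * C f)).charpoly, (Matrix.charpoly_monic _).ne_zero, ?_, ?_⟩
  · rw [Matrix.charpoly_natDegree_eq_dim, Fintype.card_fin]
  · apply hψ
    rw [map_zero, hom_eval₂, hc]
    exact Matrix.aeval_self_charpoly _

end DegP

theorem t_DEG : S_DEG := by
  intro F K _ _ _ θ f hθ hf
  obtain ⟨L, h0, hd, he⟩ := DegP.main
    ((IntermediateField.adjoin.powerBasis hθ).basis) (IntermediateField.AdjoinSimple.gen F θ)
    (⟨f, hf⟩ : IntermediateField.adjoin F {θ})
  refine ⟨L, h0, ?_, ?_⟩
  · rw [hd, IntermediateField.adjoin.powerBasis_dim]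
  · have h1 := congrArg (mapRingHom (algebraMap (IntermediateField.adjoin F {θ}) K)) he
    rw [map_zero, hom_eval₂] at h1
    have h2 : (mapRingHom (algebraMap (IntermediateField.adjoin F {θ}) K)).comp
        (mapRingHom (algebraMap F (IntermediateField.adjoin F {θ}))) =
        mapRingHom (algebraMap F K) := by
      rw [mapRingHom_comp]
      rfl
    rw [h2] at h1
    rw [← h1]
    congr 1
    simp

end Pool.Agent.K6.H94.XB
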