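import Mathlib
import Pool.Agent.K6.H94.XB.Stm
import Pool.Agent.N996.BP.Gauss

/-!
# Piece DRV: the derivative does not vanish at `s = 0`
-/

set_option autoImplicit false

namespace Pool.Agent.K6.H94.XB

open Polynomial

namespace DrvP

lemma clear {R F : Type} [CommRing R] [IsDomain R] [Field F] [Algebra R F] [IsFractionRing R F]
    (L : F[X][X]) : ∃ (r : R) (G : R[X][X]), r ≠ 0 ∧
      G.map (mapRingHom (algebraMap R F)) = C (C (algebraMap R F r)) * L := by
  classical
  obtain ⟨b, hb⟩ := IsLocalization.exist_integer_multiples_of_finset (nonZeroDivisors R)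
    (L.support.biUnion fun i => (L.coeff i).support.image fun j => (L.coeff i).coeff j)
  have hb' : ∀ i j, algebraMap R F (b : R) * (L.coeff i).coeff j ∈ Set.range (algebraMap R F) := by
    intro i j
    by_cases hj : (L.coeff i).coeff j = 0
    · rw [hj, mul_zero]
      exact ⟨0, map_zero _⟩
    · have hi : L.coeff i ≠ 0 := by
        intro h
        exact hj (by rw [h, coeff_zero])
      obtain ⟨c, hc⟩ := hb ((L.coeff i).coeff j) (Finset.mem_biUnion.2 ⟨i, mem_support_iff.2 hi,
        Finset.mem_image.2 ⟨j, mem_support_iff.2 hj, rfl⟩⟩)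
      refine ⟨c, ?_⟩
      rw [hc, Algebra.smul_def]
  have hl : C (C (algebraMap R F (b : R))) * L ∈ lifts (mapRingHom (algebraMap R F)) := by
    rw [lifts_iff_coeff_lifts]
    intro i
    rw [coeff_C_mul]
    have h1 : C (algebraMap R F (b : R)) * L.coeff i ∈ lifts (algebraMap R F) := by
      rw [lifts_iff_coeff_lifts]
      intro j
      rw [coeff_C_mul]
      exact hb' i j
    obtain ⟨q, hq⟩ := (mem_lifts _ ).1 h1
    exact ⟨q, hq⟩
  obtain ⟨G, hG⟩ := (mem_lifts _).1 hl
  exact ⟨b, G, nonZeroDivisors.coe_ne_zero b, hG⟩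

end DrvP

theorem t_DRV (h : S_DEG) : S_DRV := by
  intro R F K _ _ _ _ _ _ _ _ _ _ _ θ f hθ hf Φ hΦ he
  have hRF : Function.Injective (algebraMap R F) := IsFractionRing.injective R F
  have hRK : Function.Injective (algebraMap R K) := by
    rw [IsScalarTower.algebraMap_eq R F K]
    exact (algebraMap F K).injective.comp hRF
  obtain ⟨L, hL0, hLd, hLe⟩ := h F K θ f hθ.isIntegral hf
  obtain ⟨r, G, hr, hG⟩ := DrvP.clear (R := R) L
  have hmRF : Function.Injective (mapRingHom (algebraMap R F)) := by
    rw [coe_mapRingHom]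
    exact Polynomial.map_injective _ hRF
  have hmRK : Function.Injective (mapRingHom (algebraMap R K)) := by
    rw [coe_mapRingHom]
    exact Polynomial.map_injective _ hRK
  have hr' : (C (algebraMap R F r) : F[X]) ≠ 0 := by
    rw [Ne, C_eq_zero, map_eq_zero_iff _ hRF]
    exact hr
  have hGd : G.natDegree = L.natDegree := by
    rw [← natDegree_map_eq_of_injective hmRF, hG, natDegree_C_mul hr']
  have hG0 : G ≠ 0 := by
    rintro rfl
    rw [Polynomial.map_zero] at hG
    exact mul_ne_zero (C_ne_zero.2 hr') hL0 hG.symm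
  -- the value of `G`
  have hGe : eval₂ (mapRingHom (algebraMap R K)) (C θ + X * C f) G = 0 := by
    have h1 : mapRingHom (algebraMap R K) =
        (mapRingHom (algebraMap F K)).comp (mapRingHom (algebraMap R F)) := by
      rw [mapRingHom_comp, ← IsScalarTower.algebraMap_eq]
    rw [h1, ← eval₂_map, hG, eval₂_mul, hLe, mul_zero]
  let φ : R[X][X] →+* K[X] := eval₂RingHom (mapRingHom (algebraMap R K)) (C θ + X * C f)
  have hφC : φ.comp C = mapRingHom (algebraMap R K) := by
    refine RingHom.ext fun a => ?_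
    show eval₂ _ _ (C a) = _
    rw [eval₂_C]
  have hφ : Function.Injective (φ.comp C) := by rw [hφC]; exact hmRK
  have hd : Φ.natDegree ≠ 0 := by
    intro hd
    obtain ⟨u, hu⟩ := natDegree_eq_zero.1 hd
    apply hΦ.ne_zero
    have : u = 0 := hφ (by rw [map_zero]; show φ (C u) = 0; rw [hu]; exact he)
    rw [← hu, this, C_0]
  have hle : Φ.natDegree ≤ (minpoly F θ).natDegree := by
    have h1 := (Pool.Agent.N996.BP.mem_ker_iff φ hφ hΦ hd he G).1 hGe
    have hinj : Function.Injective (algebraMap R[X] (FractionRing R[X])) :=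
      IsFractionRing.injective _ _
    have h2 := natDegree_le_of_dvd h1
      (by rw [Ne, Polynomial.map_eq_zero_iff hinj]; exact hG0)
    rw [natDegree_map_eq_of_injective hinj, natDegree_map_eq_of_injective hinj] at h2
    omega
  -- the specialization
  have hP0 : Φ.map constantCoeff ≠ 0 := by
    intro h0
    have h1 : (C X : R[X][X]) ∣ Φ := by
      rw [C_dvd_iff_dvd_coeff]
      intro i
      rw [X_dvd_iff]
      have := congrArg (fun p => p.coeff i) h0
      simpa using this
    obtain ⟨Φ', hΦ'⟩ := h1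
    rcases hΦ.isUnit_or_isUnit hΦ' with hu | hu
    · exact not_isUnit_X (isUnit_C.1 hu)
    · apply hd
      rw [hΦ', natDegree_C_mul X_ne_zero]
      exact natDegree_eq_zero_of_isUnit hu
  have hPe : eval₂ (algebraMap R K) θ (Φ.map constantCoeff) = 0 := by
    have h1 := congrArg (evalRingHom (0 : K)) he
    rw [map_zero, hom_eval₂] at h1
    rw [eval₂_map, ← h1]
    congr 1
    · refine Polynomial.ringHom_ext (fun a => ?_) ?_
      · simp
      · simp
    · simp
  have hnc : (Φ.map constantCoeff).natDegree ≠ 0 := by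
    intro hd
    obtain ⟨u, hu⟩ := natDegree_eq_zero.1 hd
    apply hP0
    rw [← hu, eval₂_C] at hPe
    rw [← hu, (map_eq_zero_iff _ hRK).1 hPe, C_0]
  intro hz
  have hz' : eval₂ (algebraMap R K) θ (derivative (Φ.map constantCoeff)) = 0 := by
    rw [derivative_map, eval₂_map]
    exact hz
  have hD0 : derivative (Φ.map constantCoeff) ≠ 0 := fun h0 => hnc (derivative_eq_zero.1 h0)
  have hDF : (derivative (Φ.map constantCoeff)).map (algebraMap R F) ≠ 0 := by
    rw [Ne, Polynomial.map_eq_zero_iff hRF]
    exact hD0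
  have h3 : minpoly F θ ∣ (derivative (Φ.map constantCoeff)).map (algebraMap R F) := by
    apply minpoly.dvd
    rw [aeval_def, eval₂_map, ← IsScalarTower.algebraMap_eq]
    exact hz'
  have h4 := natDegree_le_of_dvd h3 hDF
  rw [natDegree_map_eq_of_injective hRF] at h4
  have h5 := natDegree_derivative_lt hnc
  have h6 : (Φ.map constantCoeff).natDegree ≤ Φ.natDegree := natDegree_map_le
  omega

end Pool.Agent.K6.H94.XB
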