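import Mathlib
import Pool.Agent.K6.H94.XB.Stm

/-!
# Piece `DUA` of call94x: dual bases of spaces of functions
(helper35 for helper94)
-/

set_option autoImplicit false

namespace Pool.Agent.K6.H94.XB

open Matrix Polynomial

namespace DUA

variable {C G : Type} [Field C]

/-- evaluation at a point -/
def ev (J : Submodule C (G → C)) (z : G) : Module.Dual C J :=
  (LinearMap.proj z : (G → C) →ₗ[C] C).comp J.subtype

theorem ev_apply (J : Submodule C (G → C)) (z : G) (h : J) : ev J z h = (h : G → C) z := rfl

theorem main (J : Submodule C (G → C)) [FiniteDimensional C J] :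
    ∃ (k : ℕ) (y : Fin k → G) (b : Fin k → G → C), (∀ l, b l ∈ J) ∧
      ∀ h ∈ J, ∀ z, h z = ∑ l, h (y l) * b l z := by
  classical
  obtain ⟨s, hs, hspan, hli⟩ := exists_linearIndependent C (Set.range (ev J))
  haveI : Finite s := hli.finite
  haveI : Fintype s := Fintype.ofFinite s
  set k : ℕ := Fintype.card s with hk
  let e : Fin k ≃ s := (Fintype.equivFin s).symm
  have hy : ∀ l : Fin k, ∃ z, ev J z = ((e l : s) : Module.Dual C J) := fun l => hs (e l).2
  choose y hy using hy
  let Φ : J →ₗ[C] (Fin k → C) := LinearMap.pi fun l => ev J (y l)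
  have hΦ : ∀ (h : J) (l : Fin k), Φ h l = (h : G → C) (y l) := fun h l => rfl
  have hinj : Function.Injective Φ := by
    rw [← LinearMap.ker_eq_bot, LinearMap.ker_eq_bot']
    intro h hh
    have h1 : ∀ φ ∈ s, φ h = 0 := by
      intro φ hφ
      have h2 := congrFun hh (e.symm ⟨φ, hφ⟩)
      have h3 := hy (e.symm ⟨φ, hφ⟩)
      rw [Equiv.apply_symm_apply] at h3
      have h4 : Φ h (e.symm ⟨φ, hφ⟩) = φ h := by
        show ev J (y (e.symm ⟨φ, hφ⟩)) h = φ h
        rw [h3]
      rw [← h4, h2]
      rfl
    have h5 : ∀ φ ∈ Submodule.span C (Set.range (ev J)), φ h = 0 := by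
      intro φ hφ
      rw [← hspan] at hφ
      refine Submodule.span_induction (p := fun φ _ => φ h = 0) (fun φ hφ => h1 φ hφ) ?_ ?_ ?_ hφ
      · rfl
      · intro a b _ _ ha hb
        rw [LinearMap.add_apply, ha, hb, add_zero]
      · intro c a _ ha
        rw [LinearMap.smul_apply, ha, smul_zero]
    apply Subtype.ext
    funext z
    exact h5 (ev J z) (Submodule.subset_span ⟨z, rfl⟩)
  have hle : k ≤ Module.finrank C J := by
    have h1 := hli.fintype_card_le_finrank
    rwa [Subspace.dual_finrank_eq] at h1
  have hge : Module.finrank C J ≤ k := by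
    have h1 := LinearMap.finrank_le_finrank_of_injective hinj
    rwa [Module.finrank_fin_fun] at h1
  have hsurj : Function.Surjective Φ :=
    (LinearMap.injective_iff_surjective_of_finrank_eq_finrank
      (by rw [Module.finrank_fin_fun]; exact le_antisymm hge hle)).1 hinj
  choose b hb using fun l : Fin k => hsurj (Pi.single l 1)
  refine ⟨k, y, fun l => (b l : G → C), fun l => (b l).2, ?_⟩
  intro h hh z
  have h1 : (⟨h, hh⟩ : J) = ∑ l, h (y l) • b l := by
    apply hinj
    rw [map_sum]
    funext j
    rw [Finset.sum_apply, hΦ]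
    rw [Finset.sum_eq_single j]
    · rw [map_smul, hb, Pi.smul_apply, Pi.single_eq_same, smul_eq_mul, mul_one]
    · intro l _ hl
      rw [map_smul, hb, Pi.smul_apply, Pi.single_eq_of_ne (Ne.symm hl), smul_zero]
    · intro hj
      exact absurd (Finset.mem_univ j) hj
  have h2 := congrArg (fun x : J => ev J z x) h1
  simp only [map_sum, map_smul, smul_eq_mul] at h2
  exact h2

end DUA

theorem t_DUA : S_DUA := by
  intro C G _ J hJ
  exact DUA.main J

end Pool.Agent.K6.H94.XB
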