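import Mathlib
import Pool.Agent.K6.H94.XB.Stm

/-!
# Bounded denominators, from the pieces
-/

set_option autoImplicit false
set_option linter.unusedSectionVars false

namespace Pool.Agent.K6.H94.XB

open MvPolynomial

section Sub

variable {C K : Type} [Field C] [Field K] [Algebra C K] {m o : Type} [Fintype m]

/-- The linear form with given coefficients. -/
noncomputable def lfm (c : m → C) : MvPolynomial m C := ∑ j, MvPolynomial.C (c j) * X j

lemma lfm_deg (c : m → C) : (lfm c).totalDegree ≤ 1 := by
  refine totalDegree_finsetSum_le fun k _ => ?_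
  refine (totalDegree_mul _ _).trans ?_
  rw [totalDegree_C, zero_add]
  exact (totalDegree_X (R := C) k).le

lemma aeval_lfm (c : m → C) (x : m → K) : aeval x (lfm c) = ∑ j, algebraMap C K (c j) * x j := by
  rw [lfm, map_sum]
  refine Finset.sum_congr rfl fun j _ => ?_
  rw [map_mul, aeval_C, aeval_X]

/-- Substitution of linear forms does not raise the degree. -/
lemma sub_deg {s : o → MvPolynomial m C} (hs : ∀ i, (s i).totalDegree ≤ 1)
    (G : MvPolynomial o C) : (aeval s G).totalDegree ≤ G.totalDegree := by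
  classical
  rw [aeval_def, eval₂_eq]
  refine totalDegree_finsetSum_le fun d hd => ?_
  refine (totalDegree_mul _ _).trans ?_
  have h1 : (algebraMap C (MvPolynomial m C) (coeff d G)).totalDegree = 0 := by
    rw [algebraMap_eq, totalDegree_C]
  rw [h1, zero_add]
  refine (totalDegree_finsetProd _ _).trans ?_
  refine le_trans (Finset.sum_le_sum (g := fun i => d i) fun i _ => ?_) (le_totalDegree hd)
  refine (totalDegree_pow _ _).trans ?_
  calc d i * (s i).totalDegree ≤ d i * 1 := Nat.mul_le_mul_left _ (hs i)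
    _ = d i := mul_one _

end Sub

/-- **Bounded denominators.** -/
theorem t_STAR (hC : S_CNT) (hW : S_WRP) (hP : S_PRM) (hT : S_TRA) : S_STAR := by
  intro C K _ _ _ _ r a V hV m _ x l hx hy F hF
  have hsm : ∀ (c : m → C), ∑ j, algebraMap C K (c j) * x j ∈ V a := by
    intro c
    refine Submodule.sum_mem _ fun j _ => ?_
    rw [← Algebra.smul_def]
    exact Submodule.smul_mem _ _ (hx j)
  obtain ⟨y, hydef⟩ : ∃ y : Fin r → K, y = fun k => ∑ j, algebraMap C K (l k j) * x j := ⟨_, rfl⟩
  rw [← hydef] at hy
  have hyV : ∀ i, y i ∈ V a := fun i => by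
    rw [hydef]
    exact hsm (l i)
  have h0 : (0 : K) ∈ V a := Submodule.zero_mem _
  have halg : ∀ i, IsAlgebraic (IntermediateField.adjoin C (Set.range y)) (x i) := by
    intro i
    obtain ⟨Φ, hΦ, -, hΦ0⟩ := hC C K r a V hV y (x i) 0 hyV (hx i) h0
    exact hT C K r y (x i) hy Φ hΦ hΦ0
  obtain ⟨c, hc⟩ := hP C K (IntermediateField.adjoin C (Set.range y)) m x halg
  obtain ⟨θ, hθdef⟩ : ∃ θ : K, θ = ∑ j, algebraMap C K (c j) * x j := ⟨_, rfl⟩
  rw [← hθdef] at hc
  have hcst : ∀ b : C, algebraMap C K b =
      algebraMap (IntermediateField.adjoin C (Set.range y)) K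
        (algebraMap C (IntermediateField.adjoin C (Set.range y)) b) := fun b => rfl
  have hθ : IsAlgebraic (IntermediateField.adjoin C (Set.range y)) θ := by
    rw [hθdef]
    rw [isAlgebraic_iff_isIntegral]
    refine IsIntegral.sum _ fun j _ => ?_
    rw [hcst]
    exact isIntegral_algebraMap.mul (isAlgebraic_iff_isIntegral.1 (halg j))
  have hf : aeval x F ∈
      IntermediateField.adjoin (IntermediateField.adjoin C (Set.range y)) {θ} := by
    clear hF
    induction F using MvPolynomial.induction_on with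
    | C b =>
      rw [aeval_C, hcst]
      exact IntermediateField.algebraMap_mem _ _
    | add p q hp hq =>
      rw [map_add]
      exact add_mem hp hq
    | mul_X p j hp =>
      rw [map_mul, aeval_X]
      exact mul_mem hp (hc j)
  obtain ⟨Φ, hΦ, hΦd, hΦ0⟩ := hC C K r a V hV y θ (aeval x F) hyV (by rw [hθdef]; exact hsm c) hF
  obtain ⟨P, Q, hPd, hQd, hQ0, hPQ⟩ := hW C K r y θ _ hy hθ hf Φ hΦ hΦ0
  let s : Option (Fin r) → MvPolynomial m C := fun o => o.elim (lfm c) fun k => lfm (l k)
  have hs1 : ∀ i, (s i).totalDegree ≤ 1 := by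
    rintro (_ | i)
    · exact lfm_deg _
    · exact lfm_deg _
  have hs : ∀ G : MvPolynomial (Option (Fin r)) C,
      aeval x (aeval (R := C) s G) = aeval (pt₀ y θ) G := by
    intro G
    have h : (aeval x).comp (aeval (R := C) s) = aeval (R := C) (pt₀ y θ) := by
      apply MvPolynomial.algHom_ext
      rintro (_ | i)
      · rw [AlgHom.comp_apply, aeval_X, aeval_X]
        change aeval x (lfm c) = θ
        rw [aeval_lfm, hθdef]
      · rw [AlgHom.comp_apply, aeval_X, aeval_X]
        change aeval x (lfm (l i)) = y i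
        rw [aeval_lfm, hydef]
    exact DFunLike.congr_fun h G
  refine ⟨aeval s P, aeval s Q, (sub_deg hs1 P).trans (hPd.trans hΦd),
    (sub_deg hs1 Q).trans (hQd.trans hΦd), ?_, ?_⟩
  · rw [hs]
    exact hQ0
  · rw [hs, hs]
    exact hPQ

end Pool.Agent.K6.H94.XB
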