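import Mathlib
import Pool.Agent.K6.H94.XB.Star

/-!
# Matrix coefficients of bounded level have explicitly bounded degree, from the pieces
-/

set_option autoImplicit false
set_option linter.unusedSectionVars false

namespace Pool.Agent.K6.H94.XB

open MvPolynomial Matrix
open Pool.Agent.K6.H94.TG (kpw Mon Lv mc Ep kpw_mul kpw_one kpw_apply eval_mc Lv_Mon ent)

section Ep

variable {C : Type} [Field C] [CharZero C] {ι : Type} [Fintype ι] [DecidableEq ι]

lemma mc_single (n : ℕ) (i j : Fin n → ι) :
    mc n (Pi.single j (1 : C)) i = ∏ a, X (i a, j a) := by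
  rw [mc, Finset.sum_eq_single j]
  · rw [Pi.single_eq_same, map_one, one_mul]
  · intro b _ hb
    rw [Pi.single_eq_of_ne hb, map_zero, zero_mul]
  · intro h
    exact absurd (Finset.mem_univ j) h

lemma list_mem (L : List (ι × ι)) {N : ℕ} (hL : L.length ≤ N) :
    (L.map (X : ι × ι → MvPolynomial (ι × ι) C)).prod ∈ Ep C ι N := by
  have h1 : (L.map (X : ι × ι → MvPolynomial (ι × ι) C)).prod =
      mc L.length (Pi.single (fun a => (L.get a).2) (1 : C)) fun a => (L.get a).1 := by
    rw [mc_single, ← List.prod_ofFn]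
    congr 1
    conv_lhs => rw [← List.ofFn_get L]
    rw [List.map_ofFn]
    rfl
  rw [h1]
  exact Submodule.subset_span ⟨L.length, hL, _, _, rfl⟩

/-- Polynomials of degree at most `N` are combinations of the entries of Kronecker powers. -/
lemma mem_Ep {N : ℕ} {q : MvPolynomial (ι × ι) C} (hq : q.totalDegree ≤ N) : q ∈ Ep C ι N := by
  classical
  rw [q.as_sum]
  refine Submodule.sum_mem _ fun d hd => ?_
  have h1 : monomial d (coeff d q) = coeff d q •
      ((d.toMultiset.toList).map (X : ι × ι → MvPolynomial (ι × ι) C)).prod := by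
    have h2 : ((d.toMultiset.toList).map (X : ι × ι → MvPolynomial (ι × ι) C)).prod =
        d.prod fun a n => X a ^ n := by
      rw [← Multiset.prod_coe, ← Multiset.map_coe, Multiset.coe_toList, Finsupp.toMultiset_map,
        Finsupp.prod_toMultiset, Finsupp.prod_mapDomain_index]
      · intro a; exact pow_zero _
      · intro a m n; exact pow_add _ _ _
    rw [h2, monomial_eq, C_mul']
  rw [h1]
  refine Submodule.smul_mem _ _ (list_mem _ ?_)
  rw [Multiset.length_toList, Finsupp.card_toMultiset]
  exact (le_totalDegree hd).trans hq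

/-- Substitution of a linear map. -/
lemma lin_sub (φ : Matrix ι ι C →ₗ[C] Matrix ι ι C) :
    ∃ s : ι × ι → MvPolynomial (ι × ι) C, (∀ p, (s p).totalDegree ≤ 1) ∧
      ∀ (y : Matrix ι ι C) (f : MvPolynomial (ι × ι) C),
        eval (ent (φ y)) f = eval (ent y) (aeval s f) := by
  refine ⟨fun p => lfm fun q => φ (Matrix.single q.1 q.2 1) p.1 p.2, fun p => lfm_deg _,
    fun y f => ?_⟩
  have hy : ∀ p : ι × ι, ent (φ y) p =
      ∑ q : ι × ι, φ (Matrix.single q.1 q.2 1) p.1 p.2 * ent y q := by
    intro p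
    have h1 : y = ∑ q : ι × ι, y q.1 q.2 • Matrix.single q.1 q.2 (1 : C) := by
      rw [Fintype.sum_prod_type]
      conv_lhs => rw [Matrix.matrix_eq_sum_single y]
      refine Finset.sum_congr rfl fun i _ => Finset.sum_congr rfl fun j _ => ?_
      rw [Matrix.smul_single, smul_eq_mul, mul_one]
    have h2 : φ y = ∑ q : ι × ι, y q.1 q.2 • φ (Matrix.single q.1 q.2 (1 : C)) := by
      conv_lhs => rw [h1]
      rw [map_sum]
      exact Finset.sum_congr rfl fun q _ => map_smul _ _ _
    change φ y p.1 p.2 = _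
    rw [h2, Matrix.sum_apply]
    refine Finset.sum_congr rfl fun q _ => ?_
    rw [Matrix.smul_apply, smul_eq_mul, mul_comm]
    rfl
  have h3 : (eval (ent y)).comp
      ((aeval (R := C) fun p : ι × ι => lfm fun q => φ (Matrix.single q.1 q.2 1) p.1 p.2 :
        MvPolynomial (ι × ι) C →ₐ[C] MvPolynomial (ι × ι) C) :
          MvPolynomial (ι × ι) C →+* MvPolynomial (ι × ι) C) = eval (ent (φ y)) := by
    apply MvPolynomial.ringHom_ext
    · intro a
      simp
    · intro p
      rw [RingHom.comp_apply, RingHom.coe_coe, aeval_X, eval_X, hy, lfm, map_sum]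
      refine Finset.sum_congr rfl fun q _ => ?_
      rw [map_mul, eval_C, eval_X]
  exact (RingHom.congr_fun h3 f).symm

end Ep

/-- Factorisation of linear maps. -/
lemma exists_factor {C P K M : Type} [Field C] [AddCommGroup P] [Module C P] [AddCommGroup K]
    [Module C K] [AddCommGroup M] [Module C M] (a : P →ₗ[C] K) (b : P →ₗ[C] M)
    (h : LinearMap.ker a ≤ LinearMap.ker b) : ∃ ψ : K →ₗ[C] M, ψ ∘ₗ a = b := by
  obtain ⟨ψ, hψ⟩ := LinearMap.exists_extend
    (((LinearMap.ker a).liftQ b h) ∘ₗ a.quotKerEquivRange.symm.toLinearMap)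
  refine ⟨ψ, ?_⟩
  ext x
  have h1 := LinearMap.congr_fun hψ ⟨a x, ⟨x, rfl⟩⟩
  rw [LinearMap.comp_apply] at h1 ⊢
  refine Eq.trans h1 ?_
  have h2 : a.quotKerEquivRange.symm ⟨a x, ⟨x, rfl⟩⟩ = Submodule.Quotient.mk x := by
    rw [LinearEquiv.symm_apply_eq]
    rfl
  change ((LinearMap.ker a).liftQ b h) (a.quotKerEquivRange.symm ⟨a x, ⟨x, rfl⟩⟩) = b x
  rw [h2]
  rfl

/-- **Matrix coefficients of bounded level have explicitly bounded degree.** -/
theorem t_FNL (hG : S_GP) (hS : S_STAR) (hJ : S_JAR) : S_FNL := by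
  intro C _ _ ι _ _ A w₀ P lam hlam h1 hinv B B' hB hBf w n v hv i
  obtain ⟨r, K, _, _, g, V, l, hr, hV, hg, hl, hlv, hker⟩ := hG C ι A w₀ P lam hlam h1
  -- restriction to the monoid
  let res : MvPolynomial (ι × ι) C →ₗ[C] (Mon lam → C) :=
    { toFun := fun f x => eval (ent (x : Matrix ι ι C)) f
      map_add' := fun f g => by funext x; rw [map_add]; rfl
      map_smul' := fun a f => by
        funext x
        rw [MvPolynomial.smul_eval]
        rfl }
  have hres : ∀ f x, res f x = eval (ent (x : Matrix ι ι C)) f := fun f x => rfl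
  have hresm : ∀ f f', res (f * f') = res f * res f' := by
    intro f f'
    funext x
    rw [Pi.mul_apply, hres, hres, hres, map_mul]
  have hres0 : ∀ f, res f = 0 ↔ aeval g f = 0 := by
    intro f
    rw [hker]
    constructor
    · intro h x hx
      exact congrFun h ⟨x, hx⟩
    · intro h
      funext x
      exact h x x.2
  -- inverses
  have hform : ∀ x ∈ Mon lam, xᵀ * B * x = B := by
    intro x hx
    rw [Mon] at hx
    induction hx using Submonoid.closure_induction with
    | mem x hx =>
      obtain ⟨a, t, rfl⟩ := hx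
      exact hBf a t
    | one => rw [Matrix.transpose_one, Matrix.one_mul, Matrix.mul_one]
    | mul x y _ _ hx hy =>
      rw [Matrix.transpose_mul]
      calc yᵀ * xᵀ * B * (x * y) = yᵀ * (xᵀ * B * x) * y := by simp only [Matrix.mul_assoc]
        _ = B := by rw [hx, hy]
  have hinv' : ∀ x ∈ Mon lam, B' * xᵀ * B * x = 1 := by
    intro x hx
    rw [Matrix.mul_assoc, Matrix.mul_assoc, ← Matrix.mul_assoc xᵀ, hform x hx, hB]
  have hmem : ∀ x ∈ Mon lam, ∃ y ∈ Mon lam, y * x = 1 := by
    intro x hx
    rw [Mon] at hx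
    induction hx using Submonoid.closure_induction with
    | mem x hx =>
      obtain ⟨a, t, rfl⟩ := hx
      exact ⟨lam a t⁻¹, Submonoid.subset_closure ⟨a, t⁻¹, rfl⟩, hinv a t⟩
    | one => exact ⟨1, Submonoid.one_mem _, Matrix.one_mul _⟩
    | mul x y _ _ hx hy =>
      obtain ⟨x', hx', hxx⟩ := hx
      obtain ⟨y', hy', hyy⟩ := hy
      refine ⟨y' * x', Submonoid.mul_mem _ hy' hx', ?_⟩
      calc y' * x' * (x * y) = y' * (x' * x) * y := by simp only [Matrix.mul_assoc]
        _ = 1 := by rw [hxx, Matrix.mul_one, hyy]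
  have hivm : ∀ x ∈ Mon lam, B' * xᵀ * B ∈ Mon lam := by
    intro x hx
    obtain ⟨y, hy, hyx⟩ := hmem x hx
    have h2 : x * y = 1 := mul_eq_one_comm.1 hyx
    have h3 : B' * xᵀ * B = y := by
      calc B' * xᵀ * B = B' * xᵀ * B * (x * y) := by rw [h2, Matrix.mul_one]
        _ = (B' * xᵀ * B * x) * y := by simp only [Matrix.mul_assoc]
        _ = y := by rw [hinv' x hx, Matrix.one_mul]
    rw [h3]
    exact hy
  let iv : Mon lam → Mon lam := fun x => ⟨B' * (x : Matrix ι ι C)ᵀ * B, hivm x x.2⟩
  have hiv : ∀ x, iv x * x = 1 ∧ x * iv x = 1 := by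
    intro x
    have h2 : B' * (x : Matrix ι ι C)ᵀ * B * (x : Matrix ι ι C) = 1 := hinv' x x.2
    exact ⟨Subtype.ext h2, Subtype.ext (mul_eq_one_comm.1 h2)⟩
  -- the spaces
  let F : ℕ → Submodule C (Mon lam → C) := fun m =>
    (MvPolynomial.restrictTotalDegree (ι × ι) C m).map res
  have hF : ∀ {m h}, h ∈ F m ↔ ∃ f : MvPolynomial (ι × ι) C, f.totalDegree ≤ m ∧ res f = h := by
    intro m h
    simp only [F, Submodule.mem_map, MvPolynomial.mem_restrictTotalDegree]
  let S : Submodule C (MvPolynomial (ι × ι) C) :=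
    Submodule.span C {f | ∃ n, ∃ v ∈ Lv lam w n, ∃ i, f = mc n v i}
  let E : Submodule C (Mon lam → C) := S.map res
  have hSV : ∀ f ∈ S, aeval g f ∈ V w := by
    intro f hf
    induction hf using Submodule.span_induction with
    | mem f hf =>
      obtain ⟨n, v, hv, i, rfl⟩ := hf
      exact hlv w n v hv i
    | zero => rw [map_zero]; exact Submodule.zero_mem _
    | add x y _ _ hx hy => rw [map_add]; exact Submodule.add_mem _ hx hy
    | smul c x _ hx => rw [map_smul]; exact Submodule.smul_mem _ _ hx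
  obtain ⟨ψ, hψ⟩ := exists_factor (aeval (R := C) g).toLinearMap res (by
    intro f hf
    rw [LinearMap.mem_ker] at hf ⊢
    exact (hres0 f).2 hf)
  have hEV : E ≤ (V w).map ψ := by
    rintro _ ⟨f, hf, rfl⟩
    exact ⟨aeval g f, hSV f hf, LinearMap.congr_fun hψ f⟩
  have := hV.fin w
  have hEfin : FiniteDimensional C E := Submodule.finiteDimensional_of_le hEV
  have hEdim : Module.finrank C E ≤ (2 * w + 1) ^ r := by
    refine (Submodule.finrank_mono hEV).trans ?_
    exact (Submodule.finrank_map_le _ _).trans (hV.dim w)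
  -- stability
  have hsub : ∀ (φ : Matrix ι ι C →ₗ[C] Matrix ι ι C) (hφ : ∀ x ∈ Mon lam, φ x ∈ Mon lam) (m : ℕ),
      ∀ h ∈ F m, (fun x : Mon lam => h ⟨φ x, hφ x x.2⟩) ∈ F m := by
    intro φ hφ m h hh
    obtain ⟨f, hf, rfl⟩ := hF.1 hh
    obtain ⟨s, hs, hsf⟩ := lin_sub φ
    refine hF.2 ⟨aeval s f, (sub_deg hs f).trans hf, ?_⟩
    funext x
    rw [hres, ← hsf]
    rfl
  have hJ' := hJ C (Mon lam) iv hiv F E ((2 * w + 1) ^ r) (bdM r (max w₀ w))
    (fun m m' hm => by
      intro h hh
      obtain ⟨f, hf, rfl⟩ := hF.1 hh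
      exact hF.2 ⟨f, hf.trans hm, rfl⟩)
    (hF.2 ⟨1, by rw [totalDegree_one], by
      funext x
      rw [hres, map_one]
      rfl⟩)
    (fun m m' h hh h' hh' => by
      obtain ⟨f, hf, rfl⟩ := hF.1 hh
      obtain ⟨f', hf', rfl⟩ := hF.1 hh'
      exact hF.2 ⟨f * f', (totalDegree_mul _ _).trans (Nat.add_le_add hf hf'), hresm f f'⟩)
    (fun m => inferInstance)
    (fun m h hh => ⟨fun a => ⟨?_, ?_⟩, ?_⟩)
    (fun m m' h hh h' hh' h0 => by
      obtain ⟨f, hf, rfl⟩ := hF.1 hh
      obtain ⟨f', hf', rfl⟩ := hF.1 hh'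
      rw [← hresm, hres0, map_mul, mul_eq_zero] at h0
      rw [hres0, hres0]
      exact h0)
    hEfin hEdim
    (fun f hf a => ?_)
    (fun f hf => ?_)
    (res (mc n v i)) ⟨mc n v i, Submodule.subset_span ⟨n, v, hv, i, rfl⟩, rfl⟩
  · obtain ⟨q, hq, hqe⟩ := hF.1 hJ'
    refine ⟨q, mem_Ep (hq.trans ?_), fun h hh => ?_⟩
    · have hM : bdM r (max w₀ w) ≤ bdM (Fintype.card ι ^ 2) (max w₀ w) := by
        unfold bdM
        refine Nat.mul_le_mul (Nat.mul_le_mul_left _ (by omega)) ?_
        calc (2 * max w₀ w * (r + 1) + 1) ^ r ≤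
              (2 * max w₀ w * (Fintype.card ι ^ 2 + 1) + 1) ^ r := by
              refine Nat.pow_le_pow_left ?_ _
              have := Nat.mul_le_mul_left (2 * max w₀ w)
                (show r + 1 ≤ Fintype.card ι ^ 2 + 1 by omega)
              omega
          _ ≤ _ := Nat.pow_le_pow_right (Nat.succ_pos _) hr
      unfold bdN
      exact Nat.mul_le_mul (Nat.mul_le_mul_left _ hM) (Nat.pow_le_pow_right (Nat.succ_pos _) hr)
    · exact (congrFun hqe ⟨h, hh⟩).symm
  · exact hsub (LinearMap.mulLeft C (a : Matrix ι ι C))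
      (fun x hx => Submonoid.mul_mem _ a.2 hx) m h hh
  · exact hsub (LinearMap.mulRight C (a : Matrix ι ι C))
      (fun x hx => Submonoid.mul_mem _ hx a.2) m h hh
  · exact hsub ((LinearMap.mulRight C B).comp ((LinearMap.mulLeft C B').comp
      (Matrix.transposeLinearEquiv ι ι C C).toLinearMap)) (fun x hx => hivm x hx) m h hh
  · -- stability of `E`
    obtain ⟨p, hp, rfl⟩ := hf
    constructor
    · induction hp using Submodule.span_induction with
      | mem p hp =>
        obtain ⟨n, v, hv, i, rfl⟩ := hp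
        have h2 : (fun x => res (mc n v i) (a * x)) =
            ∑ j, kpw n (a : Matrix ι ι C) i j • res (mc n v j) := by
          funext x
          rw [hres, eval_mc, Finset.sum_apply]
          change (kpw n ((a : Matrix ι ι C) * (x : Matrix ι ι C)) *ᵥ v) i = _
          rw [kpw_mul, ← Matrix.mulVec_mulVec, Matrix.mulVec, dotProduct]
          refine Finset.sum_congr rfl fun j _ => ?_
          rw [Pi.smul_apply, hres, eval_mc, smul_eq_mul]
        rw [h2]
        exact Submodule.sum_mem _ fun j _ => Submodule.smul_mem _ _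
          ⟨_, Submodule.subset_span ⟨n, v, hv, j, rfl⟩, rfl⟩
      | zero => 
        have h2 : (fun x => res 0 (a * x)) = 0 := by
          funext x
          rw [map_zero]; rfl
        rw [h2]
        exact Submodule.zero_mem _
      | add x y _ _ hx hy =>
        have h2 : (fun z => res (x + y) (a * z)) =
            (fun z => res x (a * z)) + fun z => res y (a * z) := by
          funext z
          rw [map_add]; rfl
        rw [h2]
        exact Submodule.add_mem _ hx hy
      | smul c x _ hx =>
        have h2 : (fun z => res (c • x) (a * z)) = c • fun z => res x (a * z) := by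
          funext z
          rw [map_smul]; rfl
        rw [h2]
        exact Submodule.smul_mem _ _ hx
    · induction hp using Submodule.span_induction with
      | mem p hp =>
        obtain ⟨n, v, hv, i, rfl⟩ := hp
        have h2 : (fun x => res (mc n v i) (x * a)) =
            res (mc n (kpw n (a : Matrix ι ι C) *ᵥ v) i) := by
          funext x
          rw [hres, eval_mc, hres, eval_mc]
          change (kpw n ((x : Matrix ι ι C) * (a : Matrix ι ι C)) *ᵥ v) i = _
          rw [kpw_mul, ← Matrix.mulVec_mulVec]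
        rw [h2]
        exact ⟨_, Submodule.subset_span ⟨n, _, Lv_Mon hv a.2, i, rfl⟩, rfl⟩
      | zero =>
        have h2 : (fun x => res 0 (x * a)) = 0 := by
          funext x
          rw [map_zero]; rfl
        rw [h2]
        exact Submodule.zero_mem _
      | add x y _ _ hx hy =>
        have h2 : (fun z => res (x + y) (z * a)) =
            (fun z => res x (z * a)) + fun z => res y (z * a) := by
          funext z
          rw [map_add]; rfl
        rw [h2]
        exact Submodule.add_mem _ hx hy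
      | smul c x _ hx =>
        have h2 : (fun z => res (c • x) (z * a)) = c • fun z => res x (z * a) := by
          funext z
          rw [map_smul]; rfl
        rw [h2]
        exact Submodule.smul_mem _ _ hx
  · -- denominators
    obtain ⟨p, hp, rfl⟩ := hf
    obtain ⟨P', Q', hPd, hQd, hQ0, hPQ⟩ := hS C K r (max w₀ w) V hV (ι × ι) g l
      (fun p => hV.mono _ _ (le_max_left _ _) (hg p)) hl p
      (hV.mono _ _ (le_max_right _ _) (hSV p hp))
    refine ⟨res Q', hF.2 ⟨Q', hQd, rfl⟩, res P', hF.2 ⟨P', hPd, rfl⟩, fun h0 => hQ0 ((hres0 _).1 h0),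
      ?_⟩
    rw [← hresm, ← sub_eq_zero, ← map_sub, hres0, map_sub, map_mul, hPQ, sub_self]

end Pool.Agent.K6.H94.XB
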