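import Mathlib
import Pool.Agent.K6.H94.XB.Fnl
import Pool.Agent.K6.H94.TG.EvM

/-!
# Explicit bounds and the parity: statements of pieces
-/

set_option autoImplicit false

namespace Pool.Agent.K6.H94.XB

open Matrix
open Pool.Agent.K6.H94.TG

/-- The bound for even tensors. -/
def bdE (b w₀ w : ℕ) : ℕ := 4 * bdM (b ^ 2) (max (2 * w₀) w) * (2 * w + 1) ^ (b ^ 2)

/-- The bound for all tensors. -/
def bdP (b w₀ w : ℕ) : ℕ := bdE b w₀ (w + w₀) + 1

/-- **Piece TRX**: algebraically independent linear forms in the `x'`, if the `x` are algebraic over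
the `x'`. -/
def S_TRX : Prop :=
  ∀ (C K : Type) [Field C] [Field K] [Algebra C K] (r : ℕ) (m m' : Type) [Fintype m]
    [Fintype m'] (x : m → K) (x' : m' → K) (l : Fin r → m → C),
    AlgebraicIndependent C (fun k => ∑ j, algebraMap C K (l k j) * x j) →
    (∀ j, IsAlgebraic (Algebra.adjoin C (Set.range x')) (x j)) →
    ∃ l' : Fin r → m' → C, AlgebraicIndependent C (fun k => ∑ j, algebraMap C K (l' k j) * x' j)

/-- **Piece EVE**: the matrix coefficients of even tensors. -/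
def S_EVE : Prop :=
  ∀ (C : Type) [Field C] [CharZero C] (ι : Type) [Fintype ι] [DecidableEq ι] (A : Type)
    (w₀ : ℕ) (P : A → ℤ → Matrix ι ι C) (lam : A → Cˣ → Matrix ι ι C),
    (∀ a t, lam a t = ∑ k ∈ Finset.Icc (-w₀ : ℤ) w₀, ((t ^ k : Cˣ) : C) • P a k) →
    (∀ a, lam a 1 = 1) → (∀ a t, lam a t⁻¹ * lam a t = 1) →
    ∀ B B' : Matrix ι ι C, B' * B = 1 → (∀ a t, (lam a t)ᵀ * B * lam a t = B) →
    ∀ p : ι → Bool, (∀ a t, PreservesParity p (lam a t)) → PreservesParity p B →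
      PreservesParity p B' →
    ∀ (w n : ℕ), ∀ v ∈ Lv lam w n, kpw n (sgnop C p) *ᵥ v = v → ∀ i,
      ∃ q : MvPolynomial (ι × ι) C, q.totalDegree ≤ bdE (Fintype.card ι) w₀ w ∧
        ∀ h ∈ Mon lam, MvPolynomial.eval (ent h) (mc n v i) = MvPolynomial.eval (ent h) q ∧
          MvPolynomial.eval (ent (h * sgnop C p)) q = MvPolynomial.eval (ent h) q

/-- **Piece ODD** (from EVE): the matrix coefficients of all tensors, on the two cosets. -/
def S_FNLP : Prop :=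
  ∀ (C : Type) [Field C] [CharZero C] (ι : Type) [Fintype ι] [DecidableEq ι] (A : Type)
    (w₀ : ℕ) (P : A → ℤ → Matrix ι ι C) (lam : A → Cˣ → Matrix ι ι C),
    (∀ a t, lam a t = ∑ k ∈ Finset.Icc (-w₀ : ℤ) w₀, ((t ^ k : Cˣ) : C) • P a k) →
    (∀ a, lam a 1 = 1) → (∀ a t, lam a t⁻¹ * lam a t = 1) →
    ∀ B B' : Matrix ι ι C, B' * B = 1 → (∀ a t, (lam a t)ᵀ * B * lam a t = B) →
    ∀ p : ι → Bool, (∀ a t, PreservesParity p (lam a t)) → PreservesParity p B →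
      PreservesParity p B' →
    ∀ (w n : ℕ), ∀ v ∈ Lv lam w n, ∀ i, ∃ q ∈ Ep C ι (bdP (Fintype.card ι) w₀ w),
      ∀ h ∈ Mon lam, MvPolynomial.eval (ent h) (mc n v i) = MvPolynomial.eval (ent h) q ∧
        MvPolynomial.eval (ent (h * sgnop C p)) (mc n v i) =
          MvPolynomial.eval (ent (h * sgnop C p)) q

/-- **Piece TGX** (from FNLP): the explicit theorem on Tate classes. -/
def S_TGX : Prop :=
  ∀ (C : Type) [Field C] [CharZero C] (ι : Type) [Fintype ι] [DecidableEq ι] (A : Type)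
    (P : A → ℤ → Matrix ι ι C) (w₀ : ℕ) (p : ι → Bool), (∀ a, IsGrading (P a) w₀) →
    (∀ a k, PreservesParity p (P a k)) → GeneratesReductive P w₀ →
    ∀ (K : Type) [Field K] [Algebra K C] (Γ : Type) [Group Γ] (ρ : Γ →* Matrix ι ι K)
      (B : Matrix ι ι K), IsParity p ρ → PreservesParity p B → (∀ γ, (ρ γ)ᵀ * B * ρ γ = B) →
      IsUnit B → IsGenerated ρ P w₀ →
    ∀ (μ : Type) [Fintype μ] [DecidableEq μ] (q : μ → Bool) (τ : Γ →* Matrix μ μ K) (w : ℕ),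
      IsParity q τ → LevelLE ρ P w₀ τ w →
    ∀ (Cl : ∀ n, Submodule K ((Fin n → ι) → K)) (S : ∀ n, Submodule K ((Fin n → ι) → μ → K)),
      (∀ n m, ∀ a ∈ Cl (n + m), ∀ y ∈ S m, corr p B a y ∈ S n) →
      (∀ n x, IsEvenTate p ρ n x → x ∈ Cl n) →
      (∀ m ≤ bdP (Fintype.card ι) w₀ w, ∀ y, IsEvenTateM p q ρ τ m y → y ∈ S m) →
      ∀ n y, IsEvenTateM p q ρ τ n y → y ∈ S n

end Pool.Agent.K6.H94.XB
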