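import Mathlib
import Pool.Agent.K6.H94.XB.Stm2

/-!
# Piece EVE: the matrix coefficients of even tensors are even polynomials of explicitly bounded degree
-/

set_option autoImplicit false
set_option linter.unusedSectionVars false

namespace Pool.Agent.K6.H94.XB

open MvPolynomial Matrix
open Pool.Agent.K6.H94.TG

/-- Substitution of polynomials of degree at most two. -/
lemma eve_sub_deg {C : Type} [Field C] {m o : Type} {s : o → MvPolynomial m C}
    (hs : ∀ i, (s i).totalDegree ≤ 2) (G : MvPolynomial o C) :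
    (aeval s G).totalDegree ≤ 2 * G.totalDegree := by
  classical
  rw [aeval_def, eval₂_eq]
  refine totalDegree_finsetSum_le fun d hd => ?_
  refine (totalDegree_mul _ _).trans ?_
  have h1 : (algebraMap C (MvPolynomial m C) (coeff d G)).totalDegree = 0 := by
    rw [algebraMap_eq, totalDegree_C]
  rw [h1, zero_add]
  refine (totalDegree_finsetProd _ _).trans ?_
  refine le_trans (Finset.sum_le_sum (g := fun i => 2 * d i) fun i _ => ?_) ?_
  · refine (totalDegree_pow _ _).trans ?_
    calc d i * (s i).totalDegree ≤ d i * 2 := Nat.mul_le_mul_left _ (hs i)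
      _ = 2 * d i := mul_comm _ _
  · rw [← Finset.mul_sum]
    exact Nat.mul_le_mul_left _ (le_totalDegree hd)

/-- Products over sets of even cardinality. -/
lemma eve_pairs {K : Type} [CommRing K] {α : Type} [DecidableEq α] (R : Submonoid K) (u : α → K) :
    ∀ (n : ℕ) (T : Finset α), T.card = 2 * n → (∀ a ∈ T, ∀ b ∈ T, u a * u b ∈ R) →
      ∏ a ∈ T, u a ∈ R := by
  intro n
  induction n with
  | zero =>
    intro T hT _
    rw [Finset.card_eq_zero.1 hT, Finset.prod_empty]
    exact R.one_mem
  | succ n ih =>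
    intro T hT h
    obtain ⟨a, ha⟩ : T.Nonempty := Finset.card_pos.1 (by omega)
    have h1 : (T.erase a).card = 2 * n + 1 := by
      rw [Finset.card_erase_of_mem ha]
      omega
    obtain ⟨b, hb⟩ : (T.erase a).Nonempty := Finset.card_pos.1 (by omega)
    have h2 : ((T.erase a).erase b).card = 2 * n := by
      rw [Finset.card_erase_of_mem hb]
      omega
    have hbT : b ∈ T := Finset.mem_of_mem_erase hb
    have h3 := ih ((T.erase a).erase b) h2 fun x hx y hy =>
      h x (Finset.mem_of_mem_erase (Finset.mem_of_mem_erase hx)) y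
        (Finset.mem_of_mem_erase (Finset.mem_of_mem_erase hy))
    rw [← Finset.mul_prod_erase T u ha, ← Finset.mul_prod_erase (T.erase a) u hb, ← mul_assoc]
    exact R.mul_mem (h a ha b hbT) h3

section Gens

variable {C : Type} [Field C] [CharZero C] {ι : Type} [Fintype ι] [DecidableEq ι]

/-- The even coordinates and the products of two odd ones. -/
noncomputable def eveS (C : Type) [Field C] {ι : Type} (p : ι → Bool) :
    (ι × ι) ⊕ ((ι × ι) × (ι × ι)) → MvPolynomial (ι × ι) C
  | .inl a => if p a.1 = false ∧ p a.2 = false then X a else 0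
  | .inr ab => if (p ab.1.1 = true ∧ p ab.1.2 = true) ∧ (p ab.2.1 = true ∧ p ab.2.2 = true) then
      X ab.1 * X ab.2 else 0

lemma eveS_deg (p : ι → Bool) (k : (ι × ι) ⊕ ((ι × ι) × (ι × ι))) :
    (eveS C p k).totalDegree ≤ 2 := by
  rcases k with a | ab
  · simp only [eveS]
    split_ifs
    · rw [totalDegree_X]; omega
    · rw [totalDegree_zero]; omega
  · simp only [eveS]
    split_ifs
    · refine (totalDegree_mul _ _).trans ?_
      rw [totalDegree_X, totalDegree_X]
    · rw [totalDegree_zero]; omega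

lemma eve_ent (p : ι → Bool) (y : Matrix ι ι C) (a : ι × ι) :
    ent (y * sgnop C p) a = ent y a * (if p a.2 then -1 else 1) := by
  unfold ent sgnop
  rw [Matrix.mul_diagonal]

lemma eveS_even (p : ι → Bool) (y : Matrix ι ι C) (k : (ι × ι) ⊕ ((ι × ι) × (ι × ι))) :
    eval (ent (y * sgnop C p)) (eveS C p k) = eval (ent y) (eveS C p k) := by
  rcases k with a | ab
  · simp only [eveS]
    split_ifs with h
    · rw [eval_X, eval_X, eve_ent, h.2]
      simp
    · rw [map_zero, map_zero]
  · simp only [eveS]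
    split_ifs with h
    · rw [map_mul, map_mul, eval_X, eval_X, eval_X, eval_X, eve_ent, eve_ent, h.1.2, h.2.2]
      simp
    · rw [map_zero, map_zero]

lemma eve_aeval_even (p : ι → Bool) (y : Matrix ι ι C)
    (G : MvPolynomial ((ι × ι) ⊕ ((ι × ι) × (ι × ι))) C) :
    eval (ent (y * sgnop C p)) (aeval (eveS C p) G) = eval (ent y) (aeval (eveS C p) G) := by
  have h3 : (eval (ent (y * sgnop C p))).comp
      ((aeval (R := C) (eveS C p)) : MvPolynomial ((ι × ι) ⊕ ((ι × ι) × (ι × ι))) C →+*
        MvPolynomial (ι × ι) C) =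
      (eval (ent y)).comp ((aeval (R := C) (eveS C p)) :
        MvPolynomial ((ι × ι) ⊕ ((ι × ι) × (ι × ι))) C →+* MvPolynomial (ι × ι) C) := by
    apply MvPolynomial.ringHom_ext
    · intro a
      simp
    · intro k
      rw [RingHom.comp_apply, RingHom.comp_apply, RingHom.coe_coe, aeval_X]
      exact eveS_even p y k
  exact RingHom.congr_fun h3 G

/-- An even tensor has no coordinate with an odd number of odd indices. -/
lemma eve_card {p : ι → Bool} {n : ℕ} {v : (Fin n → ι) → C} (hv : kpw n (sgnop C p) *ᵥ v = v)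
    {j : Fin n → ι} (hj : v j ≠ 0) :
    Even (Finset.univ.filter fun a => p (j a) = true).card := by
  have h1 : (kpw n (sgnop C p) *ᵥ v) j = (∏ a, (if p (j a) then (-1 : C) else 1)) * v j := by
    rw [Matrix.mulVec, dotProduct, Finset.sum_eq_single j]
    · rw [kpw_apply]
      congr 1
      refine Finset.prod_congr rfl fun a _ => ?_
      rw [sgnop, Matrix.diagonal_apply_eq]
    · intro k _ hk
      obtain ⟨a, ha⟩ : ∃ a, j a ≠ k a := by
        by_contra hc
        push Not at hc
        exact hk (funext fun a => (hc a).symm)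
      rw [kpw_apply, Finset.prod_eq_zero (Finset.mem_univ a), zero_mul]
      rw [sgnop, Matrix.diagonal_apply_ne _ ha]
    · intro h
      exact absurd (Finset.mem_univ j) h
  rw [hv, Finset.prod_ite, Finset.prod_const_one, mul_one, Finset.prod_const] at h1
  rcases Nat.even_or_odd (Finset.univ.filter fun a => p (j a) = true).card with h | h
  · exact h
  · exfalso
    rw [h.neg_one_pow] at h1
    apply hj
    have h2 : (2 : C) * v j = 0 := by linear_combination h1
    exact (mul_eq_zero.1 h2).resolve_left two_ne_zero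

variable {A : Type} {lam : A → Cˣ → Matrix ι ι C}

lemma eve_par {p : ι → Bool} (hp : ∀ a t, PreservesParity p (lam a t)) {x : Matrix ι ι C}
    (hx : x ∈ Mon lam) : PreservesParity p x := by
  rw [Mon] at hx
  induction hx using Submonoid.closure_induction with
  | mem x hx =>
    obtain ⟨a, t, rfl⟩ := hx
    exact hp a t
  | one =>
    intro i j hij
    rw [Matrix.one_apply_ne]
    rintro rfl
    exact hij rfl
  | mul x y _ _ hx hy => exact par_mul hx hy

end Gens

/-- The matrix coefficients of even tensors are polynomials in the even coordinates and the products of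
two odd ones, at a point where the other coordinates vanish. -/
lemma eve_range {C K : Type} [Field C] [CharZero C] [Field K] [Algebra C K] {ι : Type} [Fintype ι]
    [DecidableEq ι] {p : ι → Bool} (g : ι × ι → K) (hg : ∀ i j, p i ≠ p j → g (i, j) = 0)
    {n : ℕ} {v : (Fin n → ι) → C} (hv : kpw n (sgnop C p) *ᵥ v = v) (i : Fin n → ι) :
    aeval g (mc n v i) ∈ (aeval (R := C) fun k => aeval g (eveS C p k)).range := by
  rw [mc, map_sum]
  refine Subalgebra.sum_mem _ fun j _ => ?_
  rw [map_mul, aeval_C]
  by_cases hj : v j = 0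
  · rw [hj, map_zero, zero_mul]
    exact Subalgebra.zero_mem _
  refine Subalgebra.mul_mem _ (Subalgebra.algebraMap_mem _ _) ?_
  rw [map_prod]
  simp only [aeval_X]
  by_cases hij : ∀ a, p (i a) = p (j a)
  · rw [← Finset.prod_filter_mul_prod_filter_not Finset.univ (fun a => p (j a) = true)]
    refine Subalgebra.mul_mem _ ?_ (Subalgebra.prod_mem _ fun a ha => ?_)
    · obtain ⟨k, hk⟩ := eve_card hv hj
      refine eve_pairs (Subalgebra.toSubsemiring
        (aeval (R := C) fun k => aeval g (eveS C p k)).range).toSubmonoid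
        (fun a => g (i a, j a)) k _ (by rw [hk]; ring) fun a ha b hb => ?_
      rw [Finset.mem_filter] at ha hb
      change g (i a, j a) * g (i b, j b) ∈ (aeval (R := C) fun k => aeval g (eveS C p k)).range
      refine ⟨X (Sum.inr ((i a, j a), (i b, j b))), ?_⟩
      change aeval _ (X _) = _
      rw [aeval_X, eveS, if_pos, map_mul, aeval_X, aeval_X]
      exact ⟨⟨(hij a).trans ha.2, ha.2⟩, ⟨(hij b).trans hb.2, hb.2⟩⟩
    · rw [Finset.mem_filter] at ha
      have ha2 : p (j a) = false := by
        have := ha.2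
        simpa using this
      refine ⟨X (Sum.inl (i a, j a)), ?_⟩
      change aeval _ (X _) = _
      rw [aeval_X, eveS, if_pos, aeval_X]
      exact ⟨(hij a).trans ha2, ha2⟩
  · push Not at hij
    obtain ⟨a, ha⟩ := hij
    rw [Finset.prod_eq_zero (Finset.mem_univ a) (hg _ _ ha)]
    exact Subalgebra.zero_mem _

/-- **Piece EVE**. -/
theorem t_EVE (hG : S_GP) (hS : S_STAR) (hJ : S_JAR) (hT : S_TRX) : S_EVE := by
  intro C _ _ ι _ _ A w₀ P lam hlam h1 hinv B B' hB hBf p hp hpB hpB' w n v hv hve i
  obtain ⟨r, K, _, _, g, V, l, hr, hV, hg, hl, hlv, hker⟩ := hG C ι A w₀ P lam hlam h1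
  -- the parity operator
  have hEE : sgnop C p * sgnop C p = 1 := sgnop_mul_self
  have hEc : ∀ x ∈ Mon lam, x * sgnop C p = sgnop C p * x := fun x hx => sgnop_comm (eve_par hp hx)
  have hEt : (sgnop C p)ᵀ = sgnop C p := by rw [sgnop, Matrix.diagonal_transpose]
  -- restriction to the monoid
  let res : MvPolynomial (ι × ι) C →ₗ[C] (Mon lam → C) :=
    { toFun := fun f x => eval (ent (x : Matrix ι ι C)) f
      map_add' := fun f g => by funext x; rw [map_add]; rfl
      map_smul' := fun a f => by
        funext x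
        rw [MvPolynomial.smul_eval]
        rfl }
  have hres : ∀ f x, res f x = eval (ent (x : Matrix ι ι C)) f := fun f x => rfl
  have hresm : ∀ f f', res (f * f') = res f * res f' := by
    intro f f'
    funext x
    rw [Pi.mul_apply, hres, hres, hres, map_mul]
  have hres0 : ∀ f, res f = 0 ↔ aeval g f = 0 := by
    intro f
    rw [hker]
    constructor
    · intro h x hx
      exact congrFun h ⟨x, hx⟩
    · intro h
      funext x
      exact h x x.2
  -- inverses
  have hform : ∀ x ∈ Mon lam, xᵀ * B * x = B := by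
    intro x hx
    rw [Mon] at hx
    induction hx using Submonoid.closure_induction with
    | mem x hx =>
      obtain ⟨a, t, rfl⟩ := hx
      exact hBf a t
    | one => rw [Matrix.transpose_one, Matrix.one_mul, Matrix.mul_one]
    | mul x y _ _ hx hy =>
      rw [Matrix.transpose_mul]
      calc yᵀ * xᵀ * B * (x * y) = yᵀ * (xᵀ * B * x) * y := by simp only [Matrix.mul_assoc]
        _ = B := by rw [hx, hy]
  have hinv' : ∀ x ∈ Mon lam, B' * xᵀ * B * x = 1 := by
    intro x hx
    rw [Matrix.mul_assoc, Matrix.mul_assoc, ← Matrix.mul_assoc xᵀ, hform x hx, hB]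
  have hmem : ∀ x ∈ Mon lam, ∃ y ∈ Mon lam, y * x = 1 := by
    intro x hx
    rw [Mon] at hx
    induction hx using Submonoid.closure_induction with
    | mem x hx =>
      obtain ⟨a, t, rfl⟩ := hx
      exact ⟨lam a t⁻¹, Submonoid.subset_closure ⟨a, t⁻¹, rfl⟩, hinv a t⟩
    | one => exact ⟨1, Submonoid.one_mem _, Matrix.one_mul _⟩
    | mul x y _ _ hx hy =>
      obtain ⟨x', hx', hxx⟩ := hx
      obtain ⟨y', hy', hyy⟩ := hy
      refine ⟨y' * x', Submonoid.mul_mem _ hy' hx', ?_⟩
      calc y' * x' * (x * y) = y' * (x' * x) * y := by simp only [Matrix.mul_assoc]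
        _ = 1 := by rw [hxx, Matrix.mul_one, hyy]
  have hivm : ∀ x ∈ Mon lam, B' * xᵀ * B ∈ Mon lam := by
    intro x hx
    obtain ⟨y, hy, hyx⟩ := hmem x hx
    have h2 : x * y = 1 := mul_eq_one_comm.1 hyx
    have h3 : B' * xᵀ * B = y := by
      calc B' * xᵀ * B = B' * xᵀ * B * (x * y) := by rw [h2, Matrix.mul_one]
        _ = (B' * xᵀ * B * x) * y := by simp only [Matrix.mul_assoc]
        _ = y := by rw [hinv' x hx, Matrix.one_mul]
    rw [h3]
    exact hy
  let iv : Mon lam → Mon lam := fun x => ⟨B' * (x : Matrix ι ι C)ᵀ * B, hivm x x.2⟩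
  have hiv : ∀ x, iv x * x = 1 ∧ x * iv x = 1 := by
    intro x
    have h2 : B' * (x : Matrix ι ι C)ᵀ * B * (x : Matrix ι ι C) = 1 := hinv' x x.2
    exact ⟨Subtype.ext h2, Subtype.ext (mul_eq_one_comm.1 h2)⟩
  -- the spaces
  let Ev : ℕ → Submodule C (MvPolynomial (ι × ι) C) := fun m =>
    { carrier := {f | f.totalDegree ≤ m ∧
        ∀ x ∈ Mon lam, eval (ent (x * sgnop C p)) f = eval (ent x) f}
      add_mem' := fun {a b} ha hb => ⟨(totalDegree_add _ _).trans (max_le ha.1 hb.1),
        fun x hx => by rw [map_add, map_add, ha.2 x hx, hb.2 x hx]⟩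
      zero_mem' := ⟨by rw [totalDegree_zero]; exact Nat.zero_le _,
        fun x _ => by rw [map_zero, map_zero]⟩
      smul_mem' := fun c a ha => ⟨(totalDegree_smul_le _ _).trans ha.1,
        fun x hx => by rw [MvPolynomial.smul_eval, MvPolynomial.smul_eval, ha.2 x hx]⟩ }
  have hEvfin : ∀ m, FiniteDimensional C (Ev m) := by
    intro m
    have h2 : Ev m ≤ MvPolynomial.restrictTotalDegree (ι × ι) C m := by
      intro f hf
      rw [MvPolynomial.mem_restrictTotalDegree]
      exact hf.1
    exact Submodule.finiteDimensional_of_le h2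
  let F : ℕ → Submodule C (Mon lam → C) := fun m => (Ev m).map res
  have hF : ∀ {m h}, h ∈ F m ↔ ∃ f : MvPolynomial (ι × ι) C, (f.totalDegree ≤ m ∧
      ∀ x ∈ Mon lam, eval (ent (x * sgnop C p)) f = eval (ent x) f) ∧ res f = h := by
    intro m h
    exact Iff.rfl
  let S : Submodule C (MvPolynomial (ι × ι) C) :=
    Submodule.span C {f | ∃ n, ∃ v ∈ Lv lam w n, kpw n (sgnop C p) *ᵥ v = v ∧ ∃ i, f = mc n v i}
  let E : Submodule C (Mon lam → C) := S.map res
  have hSV : ∀ f ∈ S, aeval g f ∈ V w := by
    intro f hf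
    induction hf using Submodule.span_induction with
    | mem f hf =>
      obtain ⟨n, v, hv, _, i, rfl⟩ := hf
      exact hlv w n v hv i
    | zero => rw [map_zero]; exact Submodule.zero_mem _
    | add x y _ _ hx hy => rw [map_add]; exact Submodule.add_mem _ hx hy
    | smul c x _ hx => rw [map_smul]; exact Submodule.smul_mem _ _ hx
  obtain ⟨ψ, hψ⟩ := exists_factor (aeval (R := C) g).toLinearMap res (by
    intro f hf
    rw [LinearMap.mem_ker] at hf ⊢
    exact (hres0 f).2 hf)
  have hEV : E ≤ (V w).map ψ := by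
    rintro _ ⟨f, hf, rfl⟩
    exact ⟨aeval g f, hSV f hf, LinearMap.congr_fun hψ f⟩
  have := hV.fin w
  have hEfin : FiniteDimensional C E := Submodule.finiteDimensional_of_le hEV
  have hEdim : Module.finrank C E ≤ (2 * w + 1) ^ r := by
    refine (Submodule.finrank_mono hEV).trans ?_
    exact (Submodule.finrank_map_le _ _).trans (hV.dim w)
  -- the generators
  have hg0 : ∀ i j, p i ≠ p j → g (i, j) = 0 := by
    intro i j hij
    have h2 : aeval g (X (i, j) : MvPolynomial (ι × ι) C) = 0 := by
      rw [hker]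
      intro h hh
      rw [eval_X]
      exact eve_par hp hh i j hij
    rwa [aeval_X] at h2
  let x' : (ι × ι) ⊕ ((ι × ι) × (ι × ι)) → K := fun k => aeval g (eveS C p k)
  have hx'g : ∀ G : MvPolynomial ((ι × ι) ⊕ ((ι × ι) × (ι × ι))) C,
      aeval g (aeval (R := C) (eveS C p) G) = aeval x' G := by
    intro G
    have h : (aeval g).comp (aeval (R := C) (eveS C p)) = aeval (R := C) x' := by
      apply MvPolynomial.algHom_ext
      intro k
      rw [AlgHom.comp_apply, aeval_X, aeval_X]
    exact DFunLike.congr_fun h G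
  have hx'V : ∀ k, x' k ∈ V (max (2 * w₀) w) := by
    intro k
    refine hV.mono _ _ (le_max_left _ _) ?_
    rcases k with a | ab
    · change aeval g (eveS C p (Sum.inl a)) ∈ _
      simp only [eveS]
      split_ifs
      · rw [aeval_X]
        exact hV.mono w₀ _ (by omega) (hg a)
      · rw [map_zero]; exact Submodule.zero_mem _
    · change aeval g (eveS C p (Sum.inr ab)) ∈ _
      simp only [eveS]
      split_ifs
      · rw [map_mul, aeval_X, aeval_X, two_mul]
        exact hV.mul _ _ _ (hg _) _ (hg _)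
      · rw [map_zero]; exact Submodule.zero_mem _
  have hin : ∀ k, x' k ∈ Algebra.adjoin C (Set.range x') := fun k =>
    Algebra.subset_adjoin ⟨k, rfl⟩
  have halg : ∀ a, IsAlgebraic (Algebra.adjoin C (Set.range x')) (g a) := by
    rintro ⟨j, k⟩
    by_cases hjk : p j = p k
    · rcases hk : p k with _ | _
      · have h2 : g (j, k) = x' (Sum.inl (j, k)) := by
          change _ = aeval g (eveS C p (Sum.inl (j, k)))
          simp only [eveS]
          rw [if_pos ⟨hjk.trans hk, hk⟩, aeval_X]
        rw [h2]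
        exact isAlgebraic_algebraMap (⟨_, hin _⟩ : Algebra.adjoin C (Set.range x'))
      · have h2 : g (j, k) ^ 2 = x' (Sum.inr ((j, k), (j, k))) := by
          change _ = aeval g (eveS C p (Sum.inr ((j, k), (j, k))))
          simp only [eveS]
          rw [if_pos ⟨⟨hjk.trans hk, hk⟩, ⟨hjk.trans hk, hk⟩⟩, map_mul, aeval_X, sq]
        apply IsAlgebraic.of_pow (n := 2) two_pos
        rw [h2]
        exact isAlgebraic_algebraMap (⟨_, hin _⟩ : Algebra.adjoin C (Set.range x'))
    · rw [hg0 j k hjk]
      exact isAlgebraic_zero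
  obtain ⟨l', hl'⟩ := hT C K r (ι × ι) ((ι × ι) ⊕ ((ι × ι) × (ι × ι))) g x' l hl halg
  have hrange : ∀ f ∈ S, aeval g f ∈ (aeval (R := C) x').range := by
    intro f hf
    induction hf using Submodule.span_induction with
    | mem f hf =>
      obtain ⟨n, v, _, hve, i, rfl⟩ := hf
      exact eve_range g hg0 hve i
    | zero => rw [map_zero]; exact Subalgebra.zero_mem _
    | add x y _ _ hx hy => rw [map_add]; exact Subalgebra.add_mem _ hx hy
    | smul c x _ hx => rw [map_smul]; exact Subalgebra.smul_mem _ hx _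
  -- stability
  have hsub : ∀ (φ : Matrix ι ι C →ₗ[C] Matrix ι ι C) (hφ : ∀ x ∈ Mon lam, φ x ∈ Mon lam)
      (_ : ∀ x ∈ Mon lam, φ (x * sgnop C p) = φ x * sgnop C p) (m : ℕ),
      ∀ h ∈ F m, (fun x : Mon lam => h ⟨φ x, hφ x x.2⟩) ∈ F m := by
    intro φ hφ hφE m h hh
    obtain ⟨f, hf, rfl⟩ := hF.1 hh
    obtain ⟨s, hs, hsf⟩ := lin_sub φ
    refine hF.2 ⟨aeval s f, ⟨(sub_deg hs f).trans hf.1, fun x hx => ?_⟩, ?_⟩
    · rw [← hsf, ← hsf, hφE x hx]
      exact hf.2 _ (hφ x hx)
    · funext x
      rw [hres, ← hsf]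
      rfl
  have hJ' := hJ C (Mon lam) iv hiv F E ((2 * w + 1) ^ r) (2 * bdM r (max (2 * w₀) w))
    (fun m m' hm => by
      intro h hh
      obtain ⟨f, hf, rfl⟩ := hF.1 hh
      exact hF.2 ⟨f, ⟨hf.1.trans hm, hf.2⟩, rfl⟩)
    (hF.2 ⟨1, ⟨by rw [totalDegree_one], fun x _ => by rw [map_one, map_one]⟩, by
      funext x
      rw [hres, map_one]
      rfl⟩)
    (fun m m' h hh h' hh' => by
      obtain ⟨f, hf, rfl⟩ := hF.1 hh
      obtain ⟨f', hf', rfl⟩ := hF.1 hh'
      exact hF.2 ⟨f * f', ⟨(totalDegree_mul _ _).trans (Nat.add_le_add hf.1 hf'.1),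
        fun x hx => by rw [map_mul, map_mul, hf.2 x hx, hf'.2 x hx]⟩, hresm f f'⟩)
    (fun m => by
      have := hEvfin m
      change FiniteDimensional C ((Ev m).map res)
      infer_instance)
    (fun m h hh => ⟨fun a => ⟨?_, ?_⟩, ?_⟩)
    (fun m m' h hh h' hh' h0 => by
      obtain ⟨f, hf, rfl⟩ := hF.1 hh
      obtain ⟨f', hf', rfl⟩ := hF.1 hh'
      rw [← hresm, hres0, map_mul, mul_eq_zero] at h0
      rw [hres0, hres0]
      exact h0)
    hEfin hEdim
    (fun f hf a => ?_)
    (fun f hf => ?_)
    (res (mc n v i)) ⟨mc n v i, Submodule.subset_span ⟨n, v, hv, hve, i, rfl⟩, rfl⟩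
  · obtain ⟨q, hq, hqe⟩ := hF.1 hJ'
    refine ⟨q, hq.1.trans ?_, fun h hh => ⟨?_, hq.2 h hh⟩⟩
    · have hM : bdM r (max (2 * w₀) w) ≤ bdM (Fintype.card ι ^ 2) (max (2 * w₀) w) := by
        unfold bdM
        refine Nat.mul_le_mul (Nat.mul_le_mul_left _ (by omega)) ?_
        calc (2 * max (2 * w₀) w * (r + 1) + 1) ^ r ≤
              (2 * max (2 * w₀) w * (Fintype.card ι ^ 2 + 1) + 1) ^ r := by
              refine Nat.pow_le_pow_left ?_ _
              have := Nat.mul_le_mul_left (2 * max (2 * w₀) w)
                (show r + 1 ≤ Fintype.card ι ^ 2 + 1 by omega)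
              omega
          _ ≤ _ := Nat.pow_le_pow_right (Nat.succ_pos _) hr
      unfold bdE
      refine Nat.mul_le_mul ?_ (Nat.pow_le_pow_right (Nat.succ_pos _) hr)
      omega
    · exact (congrFun hqe ⟨h, hh⟩).symm
  · exact hsub (LinearMap.mulLeft C (a : Matrix ι ι C))
      (fun x hx => Submonoid.mul_mem _ a.2 hx) (fun x _ => by
        rw [LinearMap.mulLeft_apply, LinearMap.mulLeft_apply, Matrix.mul_assoc]) m h hh
  · exact hsub (LinearMap.mulRight C (a : Matrix ι ι C))
      (fun x hx => Submonoid.mul_mem _ hx a.2) (fun x _ => by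
        rw [LinearMap.mulRight_apply, LinearMap.mulRight_apply, Matrix.mul_assoc,
          ← hEc _ a.2, Matrix.mul_assoc]) m h hh
  · refine hsub ((LinearMap.mulRight C B).comp ((LinearMap.mulLeft C B').comp
      (Matrix.transposeLinearEquiv ι ι C C).toLinearMap)) (fun x hx => hivm x hx) (fun x hx => ?_) m
      h hh
    change B' * (x * sgnop C p)ᵀ * B = B' * xᵀ * B * sgnop C p
    rw [hEc x hx, Matrix.transpose_mul, hEt, Matrix.mul_assoc, Matrix.mul_assoc, Matrix.mul_assoc,
      Matrix.mul_assoc, sgnop_comm hpB]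
  · -- stability of `E`
    obtain ⟨f, hp', rfl⟩ := hf
    constructor
    · induction hp' using Submodule.span_induction with
      | mem f hf =>
        obtain ⟨n, v, hv, hve, i, rfl⟩ := hf
        have h2 : (fun x => res (mc n v i) (a * x)) =
            ∑ j, kpw n (a : Matrix ι ι C) i j • res (mc n v j) := by
          funext x
          rw [hres, eval_mc, Finset.sum_apply]
          change (kpw n ((a : Matrix ι ι C) * (x : Matrix ι ι C)) *ᵥ v) i = _
          rw [kpw_mul, ← Matrix.mulVec_mulVec, Matrix.mulVec, dotProduct]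
          refine Finset.sum_congr rfl fun j _ => ?_
          rw [Pi.smul_apply, hres, eval_mc, smul_eq_mul]
        rw [h2]
        exact Submodule.sum_mem _ fun j _ => Submodule.smul_mem _ _
          ⟨_, Submodule.subset_span ⟨n, v, hv, hve, j, rfl⟩, rfl⟩
      | zero => 
        have h2 : (fun x => res 0 (a * x)) = 0 := by
          funext x
          rw [map_zero]; rfl
        rw [h2]
        exact Submodule.zero_mem _
      | add x y _ _ hx hy =>
        have h2 : (fun z => res (x + y) (a * z)) =
            (fun z => res x (a * z)) + fun z => res y (a * z) := by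
          funext z
          rw [map_add]; rfl
        rw [h2]
        exact Submodule.add_mem _ hx hy
      | smul c x _ hx =>
        have h2 : (fun z => res (c • x) (a * z)) = c • fun z => res x (a * z) := by
          funext z
          rw [map_smul]; rfl
        rw [h2]
        exact Submodule.smul_mem _ _ hx
    · induction hp' using Submodule.span_induction with
      | mem f hf =>
        obtain ⟨n, v, hv, hve, i, rfl⟩ := hf
        have h2 : (fun x => res (mc n v i) (x * a)) =
            res (mc n (kpw n (a : Matrix ι ι C) *ᵥ v) i) := by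
          funext x
          rw [hres, eval_mc, hres, eval_mc]
          change (kpw n ((x : Matrix ι ι C) * (a : Matrix ι ι C)) *ᵥ v) i = _
          rw [kpw_mul, ← Matrix.mulVec_mulVec]
        rw [h2]
        refine ⟨_, Submodule.subset_span ⟨n, _, Lv_Mon hv a.2, ?_, i, rfl⟩, rfl⟩
        rw [Matrix.mulVec_mulVec, ← kpw_mul, ← hEc _ a.2, kpw_mul, ← Matrix.mulVec_mulVec, hve]
      | zero =>
        have h2 : (fun x => res 0 (x * a)) = 0 := by
          funext x
          rw [map_zero]; rfl
        rw [h2]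
        exact Submodule.zero_mem _
      | add x y _ _ hx hy =>
        have h2 : (fun z => res (x + y) (z * a)) =
            (fun z => res x (z * a)) + fun z => res y (z * a) := by
          funext z
          rw [map_add]; rfl
        rw [h2]
        exact Submodule.add_mem _ hx hy
      | smul c x _ hx =>
        have h2 : (fun z => res (c • x) (z * a)) = c • fun z => res x (z * a) := by
          funext z
          rw [map_smul]; rfl
        rw [h2]
        exact Submodule.smul_mem _ _ hx
  · -- denominators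
    obtain ⟨f, hf', rfl⟩ := hf
    obtain ⟨F', hF'⟩ := hrange f hf'
    have hF'2 : aeval x' F' = aeval g f := hF'
    obtain ⟨P', Q', hPd, hQd, hQ0, hPQ⟩ := hS C K r (max (2 * w₀) w) V hV
      ((ι × ι) ⊕ ((ι × ι) × (ι × ι))) x' l' hx'V hl' F'
      (by rw [hF'2]; exact hV.mono _ _ (le_max_right _ _) (hSV f hf'))
    have hdeg : ∀ G : MvPolynomial ((ι × ι) ⊕ ((ι × ι) × (ι × ι))) C,
        G.totalDegree ≤ bdM r (max (2 * w₀) w) →
        (aeval (R := C) (eveS C p) G).totalDegree ≤ 2 * bdM r (max (2 * w₀) w) := fun G hG =>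
      (eve_sub_deg (eveS_deg p) G).trans (Nat.mul_le_mul_left _ hG)
    refine ⟨res (aeval (R := C) (eveS C p) Q'),
      hF.2 ⟨_, ⟨hdeg Q' hQd, fun x _ => eve_aeval_even p x Q'⟩, rfl⟩,
      res (aeval (R := C) (eveS C p) P'),
      hF.2 ⟨_, ⟨hdeg P' hPd, fun x _ => eve_aeval_even p x P'⟩, rfl⟩,
      fun h0 => hQ0 (by rw [← hx'g]; exact (hres0 _).1 h0), ?_⟩
    rw [← hresm, ← sub_eq_zero, ← map_sub, hres0, map_sub, map_mul, hx'g, hx'g, ← hF'2, hPQ,
      sub_self]

end Pool.Agent.K6.H94.XB
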