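import Pool.Agent.K6.H94.FG.Ghc
import Pool.Agent.K6.H94.XB.Chn

/-!
# Hodge structures of bounded level in the cohomology of the powers of a variety: explicit bounds
-/

set_option autoImplicit false
set_option linter.unusedSectionVars false

open CategoryTheory AlgebraicGeometry TensorProduct

universe u

namespace Pool.Agent.K6.H94.FG.Geo

open Module
open Pool.Agent.H914 Pool.Agent.H914.VarClass Pool.Agent.H914.VarClass.Obj
  Pool.Agent.H914.WeilCohomology
open Pool.Agent.Y133.Half Pool.Agent.Y121.AH Pool.Agent.N996.BP Pool.Agent.N996.BP.Geo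
open Pool.Agent.H281R3.HT Pool.Agent.W536.RR Pool.Agent.K6.H94.XB

variable {k : Type u} [Field k] {𝒱 : VarClass k} {ops : CycleOps 𝒱}
variable {T : HodgeTheory ops} {X Y Z A B : 𝒱.Obj}

/-- The explicit number of factors. -/
def bnd (b d u : ℕ) : ℕ := max (bdN b d u) (expo b)

/-- **The identity of the Hodge substructures of bounded level of the cohomology of the powers.** -/
theorem op_idN (hFN : S_FNL) {ψ : LinearMap.BilinForm T.W.K (T.W.H X)}
    (hψ : IsPHS (tauT T) (Fx T X) ψ X.dim) {w N : ℕ}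
    (hN : bdN (finrank T.W.K (T.W.H X)) X.dim w ≤ N + 1) {n : ℕ} (hn : N ≤ n) :
    ∃ (r : ℕ) (a : Fin r → T.W.H (pw X N) →ₗ[T.W.K] T.W.H (pw X n))
      (b : Fin r → T.W.H (pw X n) →ₗ[T.W.K] T.W.H (pw X N)),
      (∀ i, a i ∈ (hodgePred T).sys.Op (pw X N) (pw X n)) ∧
      (∀ i, b i ∈ (hodgePred T).sys.Op (pw X n) (pw X N)) ∧
      ∀ L : Submodule T.W.K (T.W.H (pw X n)), Stab T (pw X n) L →
        (∀ x ∈ L, Wts T (pw X n) w (em T.W ℂ x)) → ∀ x ∈ L, ∑ i, a i (b i x) = x := by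
  classical
  rcases subsingleton_or_nontrivial (T.W.H X) with hs | hs
  · refine ⟨0, fun _ => 0, fun _ => 0, fun i => i.elim0, fun i => i.elim0,
      fun L _ _ x _ => ?_⟩
    have h1 : Subsingleton (T.W.H (pw X n)) := by
      have h2 : finrank T.W.K (T.W.H (pw X n)) = 0 := by
        rw [finrank_pw, finrank_zero_of_subsingleton, zero_pow (Nat.succ_ne_zero n)]
      exact finrank_zero_iff.1 h2
    exact Subsingleton.elim _ _
  obtain ⟨ι, _, _, e, o, deg, heo, hdeg⟩ := exists_ubasis T.W X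
  have ho : (1 : ℂ) ⊗ₜ[T.W.K] e o ∈ Fx T X (0, 0) := by
    rw [heo]
    exact (isHodge_one (T := T) (X := X)).2
  obtain ⟨H, hHo, hHw, hH⟩ := hψ.exists_hdata e o ho
  obtain ⟨r, a, b, ha, hb, hab⟩ := idQ_of H (coefN hFN H (w := w) (N := N + 1) (by
    rw [hHw, ← Module.finrank_eq_card_basis e]
    exact hN)) (n := n + 1) (by omega)
  refine ⟨r, fun i => opM e (a i), fun i => opM e (b i), fun i => opM_mem e hH (ha i),
    fun i => opM_mem e hH (hb i), fun L h1 h2 x hx => ?_⟩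
  obtain ⟨y, rfl⟩ := cls_surj e n x
  have h3 := hab y (lv_cls e hH h1 h2 hx)
  have h4 : ∀ i, opM e (a i) (opM e (b i) (cls e n y)) =
      cls e n (Matrix.mulVec (a i) (Matrix.mulVec (b i) y)) := fun i => by
    rw [opM_cls, opM_cls]
  rw [Finset.sum_congr rfl fun i _ => h4 i]
  conv_rhs => rw [← h3]
  have h5 : ∀ (s : Finset (Fin r)) (f : Fin r → (Fin (n + 1) → ι) → ℚ),
      cls e n (∑ i ∈ s, f i) = ∑ i ∈ s, cls e n (f i) := fun s f => clw_sum (W := T.W) e n s f
  rw [h5]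

/-- **Classes on `Z × X ^ n` in Hodge substructures of bounded level factor through `Z × X ^ N`.** -/
theorem cmp_idN (hFN : S_FNL) {ψ : LinearMap.BilinForm T.W.K (T.W.H X)}
    (hψ : IsPHS (tauT T) (Fx T X) ψ X.dim) {v w N : ℕ}
    (hN : bdN (finrank T.W.K (T.W.H X)) X.dim (v + w) ≤ N + 1) {n : ℕ} (hn : N ≤ n) :
    ∃ (r : ℕ) (α : Fin r → T.W.H ((pw X N).prod (pw X n)))
      (β : Fin r → T.W.H ((pw X n).prod (pw X N))),
      (∀ i, α i ∈ (hodgePred T).sys.C ((pw X N).prod (pw X n))) ∧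
      (∀ i, β i ∈ (hodgePred T).sys.C ((pw X n).prod (pw X N))) ∧
      ∀ Z : 𝒱.Obj, LevLE T Z w → ∀ M : Submodule T.W.K (T.W.H (Z.prod (pw X n))),
        Stab T (Z.prod (pw X n)) M → (∀ x ∈ M, Wts T (Z.prod (pw X n)) v (em T.W ℂ x)) →
        ∀ x ∈ M, ∑ i, cmp (cmp x (β i)) (α i) = x := by
  obtain ⟨r, a, b, ha, hb, hab⟩ := op_idN hFN hψ hN hn
  choose α hα hα' using fun i => Sys.mem_Op.1 (ha i)
  choose β hβ hβ' using fun i => Sys.mem_Op.1 (hb i)
  refine ⟨r, α, β, hα, hβ, fun Z hZ M h1 h2 x hx => ?_⟩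
  apply corr_eq_iff (W := T.W)
  apply LinearMap.ext
  intro ζ
  have h3 : T.W.corr (∑ i, cmp (cmp x (β i)) (α i)) = ∑ i, T.W.corr (cmp (cmp x (β i)) (α i)) := by
    have h4 : ∀ z, T.W.corr z = corrL T.W Z (pw X n) z := fun z => rfl
    rw [h4, map_sum]
    rfl
  have h5 : ∀ i, T.W.corr (cmp (cmp x (β i)) (α i)) = a i ∘ₗ b i ∘ₗ T.W.corr x := by
    intro i
    rw [cmp, corr_comp' _ ((hodgePred T).sys.even (hα i)), cmp,
      corr_comp' _ ((hodgePred T).sys.even (hβ i)), hα', hβ']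
  rw [h3, LinearMap.sum_apply]
  have h6 : ∀ i, T.W.corr (cmp (cmp x (β i)) (α i)) ζ = a i (b i (T.W.corr x ζ)) := fun i => by
    rw [h5]; rfl
  rw [Finset.sum_congr rfl fun i _ => h6 i]
  exact hab (cont M) (stab_cont h1) (wts_cont h2 hZ) _ (Submodule.subset_span ⟨x, hx, ζ, rfl⟩)

/-- **Hodge classes on the products of the powers of `X` with all varieties of bounded level.** -/
theorem sys_mainN (hFN : S_FNL) {ψ : LinearMap.BilinForm T.W.K (T.W.H X)}
    (hψ : IsPHS (tauT T) (Fx T X) ψ X.dim) {w N : ℕ}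
    (hN0 : bnd (finrank T.W.K (T.W.H X)) X.dim w ≤ N + 1) {Z : 𝒱.Obj} (hZ : LevLE T Z w)
    (S : Sys T.W) : (∀ Y, S.C Y ≤ (hodgePred T).sys.C Y) →
      (hodgePred T).sys.C (Z.prod (pw X N)) ≤ S.C (Z.prod (pw X N)) →
      ∀ n, (hodgePred T).sys.C (Z.prod (pw X n)) ≤ S.C (Z.prod (pw X n)) := by
  have hN1 := (le_max_left _ _).trans hN0
  have hN2 := (le_max_right _ _).trans hN0
  intro hS hN n
  rcases subsingleton_or_nontrivial (T.W.H Z) with hs | hs
  · intro c _
    have h1 : Subsingleton (T.W.H (Z.prod (pw X n))) := by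
      have h2 : finrank T.W.K (T.W.H (Z.prod (pw X n))) = 0 := by
        rw [Pool.Agent.Y133.Half.finrank_prod, finrank_zero_of_subsingleton, zero_mul]
      exact finrank_zero_iff.1 h2
    rw [Subsingleton.elim c 0]
    exact Submodule.zero_mem _
  have h1 := factor (S := S) Z (pw X N) hN
  have h2 : ∀ m, (hodgePred T).sys.C (pw X m) ≤ S.C (pw X m) :=
    bounded hψ S hS (mono_pw (S' := (hodgePred T).sys)
      (show expo (finrank T.W.K (T.W.H X)) - 1 ≤ N from Nat.sub_le_of_le_add hN2) h1)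
  by_cases hn : N ≤ n
  · obtain ⟨r, α, β, hα, hβ, hid⟩ := cmp_idN (v := 0) (w := w) hFN hψ (by
      rw [Nat.zero_add]
      exact hN1) hn
    intro c hc
    rw [← hid Z hZ ((hodgePred T).sys.C (Z.prod (pw X n)))
      (fun x hx t ht => by
        rw [inv_iff.2 hx t ht]
        exact Submodule.subset_span ⟨x, hx, rfl⟩)
      (fun x hx => ⟨fun _ => em T.W ℂ x, fun t ht => by
        rw [inv_iff.2 hx t ht]
        simp⟩) c hc]
    refine Submodule.sum_mem _ fun i _ => ?_
    exact Sys.comp_mem (hN (Sys.comp_mem hc (hβ i))) (pw_prod h2 _ _ (hα i))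
  · intro c hc
    rw [← map_upp_dn Z X (show n ≤ N by omega) c]
    exact S.map _ (hN ((hodgePred T).sys.map _ hc))

/-- **The generalized Hodge conjecture in bounded level.** -/
theorem gh_mainN (hFN : S_FNL) {ψ : LinearMap.BilinForm T.W.K (T.W.H X)}
    (hψ : IsPHS (tauT T) (Fx T X) ψ X.dim) {v w N : ℕ}
    (hN0 : bnd (finrank T.W.K (T.W.H X)) X.dim (v + w) ≤ N + 1) {Z : 𝒱.Obj} (hZ : LevLE T Z w)
    (hN : GH T v (Z.prod (pw X N))) (n : ℕ) : GH T v (Z.prod (pw X n)) := by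
  intro l j V hl hV hst hw x hx
  have hN1 := (le_max_left _ _).trans hN0
  have hN2 := (le_max_right _ _).trans hN0
  rcases subsingleton_or_nontrivial (T.W.H Z) with hs | hs
  · have h1 : Subsingleton (T.W.H (Z.prod (pw X n))) := by
      have h2 : finrank T.W.K (T.W.H (Z.prod (pw X n))) = 0 := by
        rw [Pool.Agent.Y133.Half.finrank_prod, finrank_zero_of_subsingleton, zero_mul]
      exact finrank_zero_iff.1 h2
    rw [Subsingleton.elim x 0]
    exact Submodule.zero_mem _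
  by_cases hn : N ≤ n
  · have h1 := factor (S := algSys T.W) Z (pw X N) hN.hodge
    have h2 : ∀ m, (hodgePred T).sys.C (pw X m) ≤ (algSys T.W).C (pw X m) :=
      bounded hψ (algSys T.W) (fun Y => ClassPred.alg_le (Q := hodgePred T))
        (mono_pw (S' := (hodgePred T).sys)
          (show expo (finrank T.W.K (T.W.H X)) - 1 ≤ N from Nat.sub_le_of_le_add hN2) h1)
    obtain ⟨r, α, β, hα, hβ, hid⟩ := cmp_idN (v := v) (w := w) hFN hψ hN1 hn
    have hwv : ∀ x ∈ V, Wts T (Z.prod (pw X n)) v (em T.W ℂ x) := by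
      intro x hx
      obtain ⟨c, hc⟩ := hw x hx
      refine ⟨fun k => if k ∈ Finset.Icc (-l : ℤ) l then c k else 0, fun t ht => ?_⟩
      have hsub : Finset.Icc (-l : ℤ) l ⊆ Finset.Icc (-v : ℤ) v := by
        intro k hk
        rw [Finset.mem_Icc] at hk ⊢
        omega
      simp only [smul_ite, smul_zero]
      rw [hc t ht, ← Finset.sum_filter, Finset.filter_mem_eq_inter,
        Finset.inter_eq_right.2 hsub]
    have h3 := hid Z hZ V hst hwv x hx
    have h4 : x = ∑ i, proj (T.W.isInternal _) (l + 2 * j) (cmp (cmp x (β i)) (α i)) := by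
      rw [← map_sum, h3, proj_same (T.W.isInternal _) (hV hx)]
    rw [h4]
    refine Submodule.sum_mem _ fun i _ => ?_
    have hβi := pw_prod (X := X) h2 _ _ (hβ i)
    have hαi := pw_prod (X := X) h2 _ _ (hα i)
    generalize β i = b at hβi
    generalize α i = a at hαi
    refine algSpan_induction (p := fun b => proj (T.W.isInternal _) (l + 2 * j)
      (cmp (cmp x b) a) ∈ cnv T.W _ j) ?_ ?_ ?_ ?_ hβi
    · rw [cmp_zero, zero_cmp, map_zero]; exact Submodule.zero_mem _
    · intro a' b' ha hb; rw [cmp_add, add_cmp, map_add]; exact Submodule.add_mem _ ha hb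
    · intro r a' ha; rw [cmp_smul, smul_cmp, map_smul]; exact Submodule.smul_mem _ _ ha
    intro c z hz
    refine algSpan_induction (p := fun a => proj (T.W.isInternal _) (l + 2 * j)
      (cmp (cmp x (T.W.cl _ z)) a) ∈ cnv T.W _ j) ?_ ?_ ?_ ?_ hαi
    · rw [cmp_zero, map_zero]; exact Submodule.zero_mem _
    · intro a' b' ha hb; rw [cmp_add, map_add]; exact Submodule.add_mem _ ha hb
    · intro r a' ha; rw [cmp_smul, map_smul]; exact Submodule.smul_mem _ _ ha
    intro c' z' hz'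
    have h5 := cmp_gr (hV hx) hz
    obtain ⟨m, hm, h6⟩ := core_cmp hN hz hl hV hst hw hx
    by_cases h0 : 0 ≤ ((l + 2 * j : ℕ) : ℤ) + 2 * ((c : ℤ) - (pw X n).dim)
    · obtain ⟨i', hi'⟩ := Int.eq_ofNat_of_zero_le h0
      rw [hi', grZ_natCast] at h5
      have h7 := cmp_gr h5 hz'
      refine two_steps (d := ((c : ℤ) - (pw X n).dim) + ((c' : ℤ) - (pw X N).dim)) ?_ ?_
      · have e : (((l + 2 * j : ℕ) : ℤ) + 2 * (((c : ℤ) - (pw X n).dim) +
            ((c' : ℤ) - (pw X N).dim))) = (i' : ℤ) + 2 * ((c' : ℤ) - (pw X N).dim) := by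
          have hi2 : ((l + 2 * j : ℕ) : ℤ) + 2 * ((c : ℤ) - (pw X n).dim) = (i' : ℤ) := hi'
          rw [← hi2]
          ring
        rw [e]
        exact h7
      · intro hd
        exact niv_cmp hz' h6 (by omega)
    · rw [grZ_of_neg (by omega), Submodule.mem_bot] at h5
      rw [h5, zero_cmp, map_zero]
      exact Submodule.zero_mem _
  · rw [← map_upp_dn Z X (show n ≤ N by omega) x]
    exact niv_map _ (core_map hN _ hl hV hst hw hx)

end Pool.Agent.K6.H94.FG.Geo
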