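import Mathlib
import Pool.Agent.K6.H94.XB.Stm

/-!
# Piece GP: a generic point with as many parameters as independent functions

Adapted from `Pool.Agent.N996.BP.Gen`, `Gen2` and `Pool.Agent.K6.H94.FG.GenW`, `Lv` (which treat the
conjugates of one cocharacter over `ℂ`).  Written by helper39.
-/

set_option autoImplicit false
set_option linter.unusedSectionVars false

namespace Pool.Agent.K6.H94.XB.GPf

open Matrix LaurentPolynomial
open Pool.Agent.K6.H94.TG (kpw kpw_apply kpw_mul kpw_one Mon Lv Lv_Mon Lv_dec mc ent)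
open Pool.Agent.N996.BP (Tr)

section Unit

variable {C : Type} [Field C] {ι : Type} [Fintype ι] [DecidableEq ι] {A : Type} (w₀ : ℕ)
  (P : A → ℤ → Matrix ι ι C)

variable {L : Type} [CommRing L] [Algebra C L]

/-- The operator at a unit. -/
noncomputable def LT (a : A) (T : Lˣ) : Matrix ι ι L :=
  ∑ k ∈ Finset.Icc (-w₀ : ℤ) w₀, ((T ^ k : Lˣ) : L) • (P a k).map (algebraMap C L)

lemma LT_map {L' : Type} [CommRing L'] [Algebra C L'] (f : L →ₐ[C] L') (a : A) (T : Lˣ) :
    (LT w₀ P a T).map f = LT w₀ P a (Units.map (f : L →* L') T) := by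
  rw [LT, LT]
  ext i j
  rw [Matrix.map_apply, Matrix.sum_apply, Matrix.sum_apply, map_sum]
  refine Finset.sum_congr rfl fun k _ => ?_
  rw [Matrix.smul_apply, Matrix.smul_apply, smul_eq_mul, smul_eq_mul, map_mul, Matrix.map_apply,
    Matrix.map_apply, ← map_zpow, Units.coe_map]
  congr 1
  exact AlgHom.commutes f _

variable {w₀ P}

lemma LT_self {lam : A → Cˣ → Matrix ι ι C}
    (hlam : ∀ a t, lam a t = ∑ k ∈ Finset.Icc (-w₀ : ℤ) w₀, ((t ^ k : Cˣ) : C) • P a k)
    (a : A) (t : Cˣ) : LT w₀ P a t = lam a t := by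
  rw [hlam, LT]
  refine Finset.sum_congr rfl fun k _ => ?_
  congr 1

lemma LT_unit {lam : A → Cˣ → Matrix ι ι C}
    (hlam : ∀ a t, lam a t = ∑ k ∈ Finset.Icc (-w₀ : ℤ) w₀, ((t ^ k : Cˣ) : C) • P a k)
    (a : A) (t : Cˣ) :
    LT w₀ P a (Units.map ((algebraMap C L : C →+* L) : C →* L) t) =
      (lam a t).map (algebraMap C L) := by
  have h := LT_map w₀ P (Algebra.ofId C L) a t
  rw [LT_self hlam] at h
  exact h.symm

lemma LT_one {lam : A → Cˣ → Matrix ι ι C}
    (hlam : ∀ a t, lam a t = ∑ k ∈ Finset.Icc (-w₀ : ℤ) w₀, ((t ^ k : Cˣ) : C) • P a k)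
    (h1 : ∀ a, lam a 1 = 1) (a : A) : LT w₀ P a (1 : Lˣ) = 1 := by
  have h := LT_unit (L := L) hlam a 1
  rw [map_one, h1, Matrix.map_one _ (map_zero _) (map_one _)] at h
  exact h

lemma kpw_smul {R : Type} [CommRing R] (n : ℕ) (c : R) (g : Matrix ι ι R) :
    kpw n (c • g) = c ^ n • kpw n g := by
  ext i j
  simp [kpw_apply, Finset.prod_mul_distrib, Finset.prod_const]

lemma kpw_map {R R' : Type} [CommRing R] [CommRing R'] (f : R →+* R') (n : ℕ) (g : Matrix ι ι R) :
    kpw n (g.map f) = (kpw n g).map f := by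
  ext i j
  simp [kpw_apply]

/-- The components, over all rings. -/
lemma Lv_univ [CharZero C] {lam : A → Cˣ → Matrix ι ι C}
    (hlam : ∀ a t, lam a t = ∑ k ∈ Finset.Icc (-w₀ : ℤ) w₀, ((t ^ k : Cˣ) : C) • P a k)
    {w n : ℕ} {v : (Fin n → ι) → C} (hv : v ∈ Lv lam w n) (a : A) :
    ∃ c : ℤ → (Fin n → ι) → C, (∀ k ∈ Finset.Icc (-w : ℤ) w, c k ∈ Lv lam w n) ∧
      ∀ (L : Type) [CommRing L] [Algebra C L] (T : Lˣ),
        kpw n (LT w₀ P a T) *ᵥ (fun i => algebraMap C L (v i)) =
          ∑ k ∈ Finset.Icc (-w : ℤ) w, ((T ^ k : Lˣ) : L) • (fun i => algebraMap C L (c k i)) := by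
  obtain ⟨c, hcL, hc⟩ := Lv_dec hv a
  refine ⟨c, hcL, fun L _ _ T => ?_⟩
  -- the polynomial matrix
  let M : Matrix ι ι (Polynomial C) := ∑ k ∈ Finset.Icc (-w₀ : ℤ) w₀,
    (Polynomial.X ^ (k + w₀).toNat : Polynomial C) • (P a k).map Polynomial.C
  have hM : ∀ {L' : Type} [CommRing L'] [Algebra C L'] (S : L'ˣ),
      M.map (Polynomial.aeval (S : L')) = ((S : L') ^ w₀) • LT w₀ P a S := by
    intro L' _ _ S
    rw [LT, Finset.smul_sum]
    ext i j
    have hMij : M i j = ∑ k ∈ Finset.Icc (-w₀ : ℤ) w₀,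
        ((Polynomial.X ^ (k + w₀).toNat : Polynomial C) •
          (P a k).map Polynomial.C) i j := Matrix.sum_apply _ _ _ _
    rw [Matrix.map_apply, hMij, Matrix.sum_apply, map_sum]
    refine Finset.sum_congr rfl fun k hk => ?_
    rw [Matrix.smul_apply, Matrix.smul_apply, Matrix.smul_apply, smul_eq_mul, smul_eq_mul,
      smul_eq_mul, map_mul, map_pow, Polynomial.aeval_X, ← mul_assoc]
    congr 1
    · rw [← Units.val_pow_eq_pow_val, ← Units.val_pow_eq_pow_val, ← Units.val_mul]
      congr 1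
      rw [← zpow_natCast, ← zpow_natCast, ← _root_.zpow_add]
      congr 1
      rw [Finset.mem_Icc] at hk
      rw [Int.toNat_of_nonneg (by omega)]
      ring
    · rw [Matrix.map_apply, Matrix.map_apply, Polynomial.aeval_C]
  have hpow : ∀ {L' : Type} [CommRing L'] (S : L'ˣ), ∀ k ∈ Finset.Icc (-w : ℤ) w,
      (S : L') ^ (w₀ * n) * (S : L') ^ (k + w).toNat =
        (S : L') ^ (w₀ * n + w) * ((S ^ k : L'ˣ) : L') := by
    intro L' _ S k hk
    rw [Finset.mem_Icc] at hk
    rw [← Units.val_pow_eq_pow_val, ← Units.val_pow_eq_pow_val, ← Units.val_pow_eq_pow_val,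
      ← Units.val_mul, ← Units.val_mul]
    congr 1
    rw [← zpow_natCast, ← zpow_natCast, ← zpow_natCast, ← _root_.zpow_add, ← _root_.zpow_add]
    congr 1
    rw [Int.toNat_of_nonneg (by omega)]
    push_cast
    ring
  have key : ∀ i, Polynomial.X ^ w * (kpw n M *ᵥ (fun i => Polynomial.C (v i))) i =
      ∑ k ∈ Finset.Icc (-w : ℤ) w,
        Polynomial.X ^ (w₀ * n) * Polynomial.X ^ (k + w).toNat * Polynomial.C (c k i) := by
    intro i
    apply Polynomial.eq_of_infinite_eval_eq
    refine Set.Infinite.mono (s := {t : C | t ≠ 0}) ?_ (Set.Finite.infinite_compl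
      (Set.finite_singleton (0 : C)))
    intro t ht
    have ht0 : t ≠ 0 := ht
    have h1 := hM (Units.mk0 t ht0)
    have h2 : LT w₀ P a (Units.mk0 t ht0) = lam a (Units.mk0 t ht0) := LT_self hlam a _
    have h3 := hc (Units.mk0 t ht0)
    have h4 : kpw n (M.map (Polynomial.aeval t)) *ᵥ v =
        (t ^ (w₀ * n)) • ∑ k ∈ Finset.Icc (-w : ℤ) w, (((Units.mk0 t ht0) ^ k : Cˣ) : C) • c k := by
      rw [Units.val_mk0] at h1
      rw [h1, h2, kpw_smul, Matrix.smul_mulVec, h3, ← pow_mul]
    have h5 := congrFun h4 i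
    change Polynomial.eval t _ = Polynomial.eval t _
    have h6 : Polynomial.eval t ((kpw n M *ᵥ (fun i => Polynomial.C (v i))) i) =
        (kpw n (M.map (Polynomial.aeval t)) *ᵥ v) i := by
      rw [Matrix.mulVec, dotProduct, Polynomial.eval_finsetSum, Matrix.mulVec, dotProduct]
      refine Finset.sum_congr rfl fun j _ => ?_
      rw [Polynomial.eval_mul, Polynomial.eval_C, kpw_apply, kpw_apply, Polynomial.eval_prod]
      rfl
    rw [Polynomial.eval_mul, Polynomial.eval_pow, Polynomial.eval_X, h6, h5,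
      Polynomial.eval_finsetSum, Pi.smul_apply, Finset.sum_apply, smul_eq_mul, Finset.mul_sum,
      Finset.mul_sum]
    refine Finset.sum_congr rfl fun k hk => ?_
    rw [Polynomial.eval_mul, Polynomial.eval_mul, Polynomial.eval_pow, Polynomial.eval_pow,
      Polynomial.eval_X, Polynomial.eval_C, Pi.smul_apply, smul_eq_mul]
    have h7 := hpow (Units.mk0 t ht0) k hk
    rw [Units.val_mk0] at h7
    rw [h7, pow_add]
    ring
  -- evaluation at `T`
  funext i
  have h9 : IsUnit ((T : L) ^ (w₀ * n + w)) := T.isUnit.pow _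
  apply h9.mul_left_cancel
  have h7 := congrArg (Polynomial.aeval (T : L)) (key i)
  have h6 : Polynomial.aeval (T : L) ((kpw n M *ᵥ (fun i => Polynomial.C (v i))) i) =
      (T : L) ^ (w₀ * n) * (kpw n (LT w₀ P a T) *ᵥ (fun i => algebraMap C L (v i))) i := by
    have h8 : Polynomial.aeval (T : L) ((kpw n M *ᵥ (fun i => Polynomial.C (v i))) i) =
        (kpw n (M.map (Polynomial.aeval (T : L))) *ᵥ (fun i => algebraMap C L (v i))) i := by
      rw [Matrix.mulVec, dotProduct, map_sum, Matrix.mulVec, dotProduct]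
      refine Finset.sum_congr rfl fun j _ => ?_
      rw [map_mul, Polynomial.aeval_C, kpw_apply, kpw_apply, map_prod]
      rfl
    rw [h8, hM T, kpw_smul, Matrix.smul_mulVec, ← pow_mul, Pi.smul_apply, smul_eq_mul]
  rw [map_mul, map_pow, Polynomial.aeval_X, h6, map_sum, ← mul_assoc, ← pow_add,
    add_comm w] at h7
  rw [h7, Finset.sum_apply, Finset.mul_sum]
  refine Finset.sum_congr rfl fun k hk => ?_
  rw [map_mul, map_mul, map_pow, map_pow, Polynomial.aeval_X, Polynomial.aeval_C, hpow T k hk,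
    Pi.smul_apply, smul_eq_mul, mul_assoc]

end Unit

section Subst

variable {C : Type} [Field C] {ι : Type} [Fintype ι] [DecidableEq ι]

/-- The polynomial `f (x · )`. -/
noncomputable def sbs (x : Matrix ι ι C) (f : MvPolynomial (ι × ι) C) : MvPolynomial (ι × ι) C :=
  MvPolynomial.aeval (fun p : ι × ι =>
    ∑ a, MvPolynomial.C (x p.1 a) * MvPolynomial.X (a, p.2)) f

lemma aeval_sbs {R : Type} [CommRing R] [Algebra C R] (x : Matrix ι ι C)
    (f : MvPolynomial (ι × ι) C) (h : Matrix ι ι R) :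
    MvPolynomial.aeval (ent h) (sbs x f) =
      MvPolynomial.aeval (ent (x.map (algebraMap C R) * h)) f := by
  have e : ((MvPolynomial.aeval (ent h) : MvPolynomial (ι × ι) C →ₐ[C] R).comp
      (MvPolynomial.aeval (fun p : ι × ι =>
        ∑ a, MvPolynomial.C (x p.1 a) * MvPolynomial.X (a, p.2)))) =
      MvPolynomial.aeval (ent (x.map (algebraMap C R) * h)) := by
    apply MvPolynomial.algHom_ext
    intro p
    rw [AlgHom.comp_apply, MvPolynomial.aeval_X, MvPolynomial.aeval_X, map_sum, ent,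
      Matrix.mul_apply]
    refine Finset.sum_congr rfl fun a _ => ?_
    rw [map_mul, MvPolynomial.aeval_C, MvPolynomial.aeval_X]
    rfl
  exact DFunLike.congr_fun e f

lemma aev {m : Type} (x : m → C) (f : MvPolynomial m C) :
    MvPolynomial.aeval x f = MvPolynomial.eval x f := rfl

lemma eval_sbs (x : Matrix ι ι C) (f : MvPolynomial (ι × ι) C) (h : Matrix ι ι C) :
    MvPolynomial.eval (ent h) (sbs x f) = MvPolynomial.eval (ent (x * h)) f := by
  have h1 := aeval_sbs (R := C) x f h
  have h2 : x.map (algebraMap C C) = x := by ext i j; rfl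
  rw [h2, aev, aev] at h1
  exact h1

/-- Evaluation of polynomials commutes with homomorphisms. -/
lemma aeval_ent_map {R R' : Type} [CommRing R] [CommRing R'] [Algebra C R] [Algebra C R']
    (f : R →ₐ[C] R') (g : Matrix ι ι R) (p : MvPolynomial (ι × ι) C) :
    f (MvPolynomial.aeval (ent g) p) = MvPolynomial.aeval (ent (g.map f)) p := by
  have h : (f.comp (MvPolynomial.aeval (ent g))) = MvPolynomial.aeval (ent (g.map f)) := by
    apply MvPolynomial.algHom_ext
    intro i
    rw [AlgHom.comp_apply, MvPolynomial.aeval_X, MvPolynomial.aeval_X]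
    rfl
  exact DFunLike.congr_fun h p

lemma aeval_option {R : Type} [CommRing R] [Algebra C R] {κ : Type} (z : R) (y : κ → R)
    (P : MvPolynomial (Option κ) C) :
    MvPolynomial.aeval (fun o : Option κ => o.elim z y) P =
      Polynomial.eval₂ ((MvPolynomial.aeval y : MvPolynomial κ C →ₐ[C] R) : MvPolynomial κ C →+* R)
        z (MvPolynomial.optionEquivLeft C κ P) := by
  induction P using MvPolynomial.induction_on with
  | C a =>
    rw [MvPolynomial.aeval_C, MvPolynomial.optionEquivLeft_C, Polynomial.eval₂_C,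
      RingHom.coe_coe, MvPolynomial.aeval_C]
  | add p q hp hq => rw [map_add, map_add, Polynomial.eval₂_add, hp, hq]
  | mul_X p o hp =>
    rw [map_mul, map_mul, Polynomial.eval₂_mul, hp, MvPolynomial.aeval_X]
    congr 1
    rcases o with _ | i
    · rw [MvPolynomial.optionEquivLeft_X_none, Polynomial.eval₂_X]
      rfl
    · rw [MvPolynomial.optionEquivLeft_X_some, Polynomial.eval₂_C, RingHom.coe_coe,
        MvPolynomial.aeval_X]
      rfl

lemma aeval_mc [CharZero C] {R : Type} [CommRing R] [Algebra C R] {n : ℕ}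
    (h : Matrix ι ι R) (v : (Fin n → ι) → C) (i : Fin n → ι) :
    MvPolynomial.aeval (ent h) (mc n v i) = (kpw n h *ᵥ fun j => algebraMap C R (v j)) i := by
  rw [mc, map_sum, Matrix.mulVec, dotProduct]
  refine Finset.sum_congr rfl fun j _ => ?_
  rw [map_mul, MvPolynomial.aeval_C, kpw_apply, map_prod, mul_comm]
  congr 1
  refine Finset.prod_congr rfl fun x _ => ?_
  rw [MvPolynomial.aeval_X]
  rfl

end Subst

section LV

variable {C : Type} [Field C] {E : Type} [Field E] [Algebra C E]

/-- The space of the Laurent polynomials with bounded exponents and coefficients in `V`. -/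
def LV {E' : Type} [Field E'] [Algebra C E'] [Algebra E E'] (T : E') (V : Submodule C E)
    (N : ℕ) : Submodule C E' :=
  Submodule.span C {z | ∃ k ∈ Finset.Icc (-N : ℤ) N, ∃ v ∈ V, z = T ^ k * algebraMap E E' v}

variable {E' : Type} [Field E'] [Algebra C E'] [Algebra E E'] [IsScalarTower C E E']

lemma LV_finrank (T : E') (V : Submodule C E) [FiniteDimensional C V] (N : ℕ) :
    FiniteDimensional C (LV T V N) ∧
      Module.finrank C (LV T V N) ≤ (2 * N + 1) * Module.finrank C V := by
  classical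
  let L : (Finset.Icc (-N : ℤ) N → V) →ₗ[C] E' :=
    ∑ k : Finset.Icc (-N : ℤ) N, (LinearMap.mulLeft C (T ^ (k : ℤ))).comp
      (((IsScalarTower.toAlgHom C E E').toLinearMap.comp V.subtype).comp (LinearMap.proj k))
  have hL : ∀ v, L v = ∑ k : Finset.Icc (-N : ℤ) N, T ^ (k : ℤ) * algebraMap E E' (v k : E) := by
    intro v
    simp [L, LinearMap.sum_apply]
  have h1 : LV T V N ≤ LinearMap.range L := by
    rw [LV, Submodule.span_le]
    rintro _ ⟨k, hk, v, hv, rfl⟩
    refine ⟨Pi.single ⟨k, hk⟩ ⟨v, hv⟩, ?_⟩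
    rw [hL, Finset.sum_eq_single ⟨k, hk⟩]
    · rw [Pi.single_eq_same]
    · intro j _ hj
      rw [Pi.single_eq_of_ne hj]
      simp
    · intro h; exact absurd (Finset.mem_univ _) h
  have h2 : FiniteDimensional C (LinearMap.range L) := inferInstance
  have h3 : FiniteDimensional C (LV T V N) := Submodule.finiteDimensional_of_le h1
  refine ⟨h3, (Submodule.finrank_mono h1).trans ((LinearMap.finrank_range_le L).trans ?_)⟩
  rw [Module.finrank_pi_fintype, Finset.sum_const, Finset.card_univ, Fintype.card_coe,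
    Int.card_Icc, smul_eq_mul]
  gcongr
  omega

lemma LV_mono {T : E'} {V V' : Submodule C E} (h : V ≤ V') {N N' : ℕ} (hN : N ≤ N') :
    LV T V N ≤ LV T V' N' := by
  rw [LV, Submodule.span_le]
  rintro _ ⟨k, hk, v, hv, rfl⟩
  refine Submodule.subset_span ⟨k, ?_, v, h hv, rfl⟩
  rw [Finset.mem_Icc] at *
  omega

lemma LV_mul {T : E'} (hT : T ≠ 0) {V V' V'' : Submodule C E} (h : ∀ v ∈ V, ∀ v' ∈ V',
    v * v' ∈ V'') {N N' : ℕ} {z z' : E'} (hz : z ∈ LV T V N) (hz' : z' ∈ LV T V' N') :
    z * z' ∈ LV T V'' (N + N') := by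
  rw [LV] at hz hz'
  induction hz using Submodule.span_induction with
  | mem z hz =>
    obtain ⟨k, hk, v, hv, rfl⟩ := hz
    induction hz' using Submodule.span_induction with
    | mem z' hz' =>
      obtain ⟨k', hk', v', hv', rfl⟩ := hz'
      refine Submodule.subset_span ⟨k + k', ?_, v * v', h v hv v' hv', ?_⟩
      · rw [Finset.mem_Icc] at *
        push_cast
        omega
      · rw [zpow_add₀ hT, map_mul]
        ring
    | zero => rw [mul_zero]; exact Submodule.zero_mem _
    | add a b _ _ ha hb => rw [mul_add]; exact Submodule.add_mem _ ha hb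
    | smul c a _ ha => rw [mul_smul_comm]; exact Submodule.smul_mem _ _ ha
  | zero => rw [zero_mul]; exact Submodule.zero_mem _
  | add a b _ _ ha hb => rw [add_mul]; exact Submodule.add_mem _ ha hb
  | smul c a _ ha => rw [smul_mul_assoc]; exact Submodule.smul_mem _ _ ha

lemma IsFil_zero : IsFil C C 0 (fun _ => ⊤) where
  fin _ := inferInstance
  dim u := by
    rw [pow_zero]
    calc Module.finrank C (⊤ : Submodule C C) ≤ Module.finrank C C := Submodule.finrank_le _
      _ = 1 := Module.finrank_self C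
  one := Submodule.mem_top
  mono _ _ _ := le_rfl
  mul _ _ _ _ _ _ := Submodule.mem_top

lemma IsFil_next {r : ℕ} {V : ℕ → Submodule C E} (hV : IsFil C E r V) {T : E'} (hT : T ≠ 0) :
    IsFil C E' (r + 1) (fun u => LV T (V u) u) where
  fin u := by
    have := hV.fin u
    exact (LV_finrank T (V u) u).1
  dim u := by
    have := hV.fin u
    refine (LV_finrank T (V u) u).2.trans ?_
    rw [pow_succ, mul_comm]
    exact Nat.mul_le_mul_right _ (hV.dim u)
  one := Submodule.subset_span ⟨0, by simp, 1, hV.one, by simp⟩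
  mono u u' h := LV_mono (hV.mono u u' h) h
  mul u u' z hz z' hz' := LV_mul hT (fun v hv v' hv' => hV.mul u u' v hv v' hv') hz hz'

end LV

section Field

variable {C : Type} [Field C] [CharZero C] {ι : Type} [Fintype ι] [DecidableEq ι] {A : Type}
  (w₀ : ℕ) (P : A → ℤ → Matrix ι ι C) (lam : A → Cˣ → Matrix ι ι C)

/-- The combinations of tensors of level at most `w` with coefficients in `M`. -/
def Sp {E : Type} [Field E] [Algebra C E] (M : Submodule C E) (w n : ℕ) :
    Submodule C ((Fin n → ι) → E) :=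
  Submodule.span C {x : (Fin n → ι) → E | ∃ m ∈ M, ∃ v ∈ Lv lam w n,
    x = fun i => m * algebraMap C E (v i)}

variable {lam} in
lemma Sp_apply {E : Type} [Field E] [Algebra C E] {M : Submodule C E} {w n : ℕ}
    {x : (Fin n → ι) → E} (hx : x ∈ Sp lam M w n) (i : Fin n → ι) : x i ∈ M := by
  induction hx using Submodule.span_induction with
  | mem x hx =>
    obtain ⟨m, hm, v, -, rfl⟩ := hx
    change m * algebraMap C E (v i) ∈ M
    rw [mul_comm, ← Algebra.smul_def]
    exact M.smul_mem _ hm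
  | zero => exact M.zero_mem
  | add x y _ _ hx hy => exact M.add_mem hx hy
  | smul c x _ hx => exact M.smul_mem c hx

/-- A generic point, with the additional properties. -/
structure IsG (E : Type) [Field E] [Algebra C E] (g : Matrix ι ι E) (r : ℕ)
    (V : ℕ → Submodule C E) : Prop where
  tr : Tr C (ent g) r
  fil : IsFil C E r V
  em : ∀ i j, g i j ∈ V w₀
  lv : ∀ w n, ∀ v ∈ Lv lam w n, (kpw n g *ᵥ fun i => algebraMap C E (v i)) ∈ Sp lam (V w) w n
  sp : ∀ f : MvPolynomial (ι × ι) C, MvPolynomial.aeval (ent g) f = 0 →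
    MvPolynomial.aeval (ent (1 : Matrix ι ι C)) f = 0
  van : ∀ f : MvPolynomial (ι × ι) C, (∀ h ∈ Mon lam, MvPolynomial.eval (ent h) f = 0) →
    MvPolynomial.aeval (ent g) f = 0

lemma isG_zero : IsG w₀ lam C (1 : Matrix ι ι C) 0 (fun _ => ⊤) where
  tr := Tr.zero _
  fil := IsFil_zero
  em _ _ := Submodule.mem_top
  lv w n v hv := by
    rw [kpw_one, Matrix.one_mulVec]
    exact Submodule.subset_span ⟨1, Submodule.mem_top, v, hv, by simp⟩
  sp f hf := hf
  van f hf := by
    have h := hf 1 (Submonoid.one_mem _)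
    rw [aev]
    exact h

variable {w₀ P lam}
variable (hlam : ∀ a t, lam a t = ∑ k ∈ Finset.Icc (-w₀ : ℤ) w₀, ((t ^ k : Cˣ) : C) • P a k)
  (h1 : ∀ a, lam a 1 = 1)

variable {E : Type} [Field E] [Algebra C E] {E' : Type} [Field E'] [Algebra C E'] [Algebra E E']
  [IsScalarTower C E E']

include hlam in
lemma Sp_next (a : A) (T : E'ˣ) {M : Submodule C E} {w n : ℕ} {x : (Fin n → ι) → E}
    (hx : x ∈ Sp lam M w n) :
    kpw n (LT w₀ P a T) *ᵥ (fun i => algebraMap E E' (x i)) ∈ Sp lam (LV (T : E') M w) w n := by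
  induction hx using Submodule.span_induction with
  | mem x hx =>
    obtain ⟨m, hm, v, hv, rfl⟩ := hx
    obtain ⟨c, hc, h⟩ := Lv_univ hlam hv a
    have h1 : (fun i => algebraMap E E' (m * algebraMap C E (v i))) =
        algebraMap E E' m • (fun i => algebraMap C E' (v i)) := by
      funext i
      rw [map_mul, Pi.smul_apply, smul_eq_mul, ← IsScalarTower.algebraMap_apply]
    rw [h1, Matrix.mulVec_smul, h E' T, Finset.smul_sum]
    refine Submodule.sum_mem _ fun k hk => Submodule.subset_span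
      ⟨(T : E') ^ k * algebraMap E E' m, Submodule.subset_span ⟨k, hk, m, hm, rfl⟩, c k, hc k hk, ?_⟩
    funext i
    rw [Pi.smul_apply, Pi.smul_apply, smul_eq_mul, smul_eq_mul, Units.val_zpow_eq_zpow_val]
    ring
  | zero =>
    have h1 : (fun i => algebraMap E E' ((0 : (Fin n → ι) → E) i)) = 0 := by
      funext i; simp
    rw [h1, Matrix.mulVec_zero]
    exact Submodule.zero_mem _
  | add x y _ _ hx hy =>
    have h1 : (fun i => algebraMap E E' ((x + y) i)) =
        (fun i => algebraMap E E' (x i)) + fun i => algebraMap E E' (y i) := by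
      funext i; simp
    rw [h1, Matrix.mulVec_add]
    exact Submodule.add_mem _ hx hy
  | smul c x _ hx =>
    have h1 : (fun i => algebraMap E E' ((c • x) i)) = c • fun i => algebraMap E E' (x i) := by
      funext i
      rw [Pi.smul_apply, Pi.smul_apply, Algebra.smul_def, map_mul, Algebra.smul_def,
        ← IsScalarTower.algebraMap_apply]
    rw [h1, Matrix.mulVec_smul]
    exact Submodule.smul_mem _ _ hx

lemma em_next (a : A) (T : E'ˣ) {g : Matrix ι ι E} {V : Submodule C E} (hg : ∀ i j, g i j ∈ V)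
    (i j : ι) : (LT w₀ P a T * g.map (algebraMap E E')) i j ∈ LV (T : E') V w₀ := by
  rw [Matrix.mul_apply]
  refine Submodule.sum_mem _ fun b _ => ?_
  rw [LT, Matrix.sum_apply, Finset.sum_mul]
  refine Submodule.sum_mem _ fun k hk => ?_
  rw [Matrix.smul_apply, smul_eq_mul, Matrix.map_apply, Matrix.map_apply,
    Units.val_zpow_eq_zpow_val, mul_assoc, ← Algebra.smul_def, mul_smul_comm]
  exact Submodule.smul_mem _ _ (Submodule.subset_span ⟨k, hk, g b j, hg b j, rfl⟩)

/-- The variable as a unit. -/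
noncomputable def TU (E : Type) [Field E] : (E[T;T⁻¹])ˣ :=
  ⟨T 1, T (-1), by rw [← T_add]; simp, by rw [← T_add]; simp⟩

lemma TU_val : ((TU E : (E[T;T⁻¹])ˣ) : E[T;T⁻¹]) = T 1 := rfl

/-- The specialisation. -/
noncomputable def spec (s : Eˣ) : E[T;T⁻¹] →ₐ[E] E :=
  { LaurentPolynomial.eval₂ (RingHom.id E) s with
    commutes' := fun r => by
      change LaurentPolynomial.eval₂ (RingHom.id E) s (algebraMap E (E[T;T⁻¹]) r) = _
      rw [← C_eq_algebraMap, eval₂_C]
      rfl }

lemma spec_TU (s : Eˣ) : Units.map ((spec s : E[T;T⁻¹] →ₐ[E] E) : E[T;T⁻¹] →* E) (TU E) = s := by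
  ext
  rw [Units.coe_map, TU_val]
  change LaurentPolynomial.eval₂ (RingHom.id E) s (T 1) = s
  rw [eval₂_T, zpow_one]

/-- A Laurent polynomial with infinitely many zeros vanishes. -/
lemma eq_zero_of_spec {q : E[T;T⁻¹]} {S : Set Eˣ} (hS : S.Infinite) (h : ∀ s ∈ S, spec s q = 0) :
    q = 0 := by
  obtain ⟨n, p, hp⟩ := LaurentPolynomial.exists_T_pow q
  have hp0 : p = 0 := by
    apply Polynomial.eq_zero_of_infinite_isRoot
    refine Set.Infinite.mono (s := (fun s : Eˣ => (s : E)) '' S) ?_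
      (hS.image (Units.val_injective.injOn))
    rintro _ ⟨s, hs, rfl⟩
    change Polynomial.eval (s : E) p = 0
    have h2 : spec s (Polynomial.toLaurent p) = Polynomial.eval (s : E) p := by
      change LaurentPolynomial.eval₂ (RingHom.id E) s (Polynomial.toLaurent p) = _
      rw [eval₂_toLaurent]
      rfl
    rw [← h2, hp, map_mul, h s hs, zero_mul]
  rw [hp0, map_zero] at hp
  exact ((isUnit_T (R := E) n).mul_left_eq_zero).1 hp.symm

variable (w₀ P) in
/-- The next point. -/
noncomputable def nxt (a : A) (g : Matrix ι ι E) : Matrix ι ι (E[T;T⁻¹]) :=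
  LT w₀ P a (TU E) * g.map (algebraMap E (E[T;T⁻¹]))

lemma nxt_spec (a : A) (g : Matrix ι ι E) (s : Eˣ) :
    (nxt w₀ P a g).map (spec s) = LT w₀ P a s * g := by
  have h1 : (nxt w₀ P a g).map (spec s) = (LT w₀ P a (TU E)).map (spec s) *
      (g.map (algebraMap E (E[T;T⁻¹]))).map (spec s) := by
    rw [nxt]
    exact Matrix.map_mul (f := ((spec s : E[T;T⁻¹] →ₐ[E] E) : E[T;T⁻¹] →+* E))
  rw [h1]
  have h2 := LT_map w₀ P ((spec s : E[T;T⁻¹] →ₐ[E] E).restrictScalars C) a (TU E)
  have h3 : Units.map (((spec s : E[T;T⁻¹] →ₐ[E] E).restrictScalars C : E[T;T⁻¹] →ₐ[C] E) :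
      E[T;T⁻¹] →* E) (TU E) = s := spec_TU s
  rw [h3] at h2
  congr 1
  ext i j
  rw [Matrix.map_apply, Matrix.map_apply]
  exact (spec s).commutes _

include hlam h1 in
/-- If the next point has no more independent functions, then it satisfies the same relations. -/
lemma nxt_rel {g : Matrix ι ι E} {r : ℕ} (hr : Tr C (ent g) r) (a : A)
    (hn : ¬ Tr C (ent ((nxt w₀ P a g).map (algebraMap (E[T;T⁻¹]) (FractionRing (E[T;T⁻¹])))))
      (r + 1)) (f : MvPolynomial (ι × ι) C) (hf : MvPolynomial.aeval (ent g) f = 0) :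
    MvPolynomial.aeval (ent (nxt w₀ P a g)) f = 0 := by
  classical
  by_contra hz
  obtain ⟨κ, _, G, rfl, hG⟩ := hr
  let j : E[T;T⁻¹] →ₐ[C] FractionRing (E[T;T⁻¹]) := IsScalarTower.toAlgHom C _ _
  have hj : Function.Injective j := IsFractionRing.injective (E[T;T⁻¹]) _
  have h1' : ¬ AlgebraicIndependent C (fun o : Option κ =>
      MvPolynomial.aeval (ent ((nxt w₀ P a g).map
        (algebraMap (E[T;T⁻¹]) (FractionRing (E[T;T⁻¹])))))
        ((fun o : Option κ => o.elim f G) o)) := fun h =>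
    hn ⟨Option κ, inferInstance, fun o => o.elim f G, Fintype.card_option, h⟩
  rw [algebraicIndependent_iff] at h1'
  push Not at h1'
  obtain ⟨Q', hP, hP0⟩ := h1'
  have h2 : MvPolynomial.aeval (fun o : Option κ => o.elim
      (MvPolynomial.aeval (ent (nxt w₀ P a g)) f)
      (fun i => MvPolynomial.aeval (ent (nxt w₀ P a g)) (G i))) Q' = 0 := by
    apply hj
    rw [map_zero, ← hP]
    have h3 : ∀ (y : Option κ → E[T;T⁻¹]), j (MvPolynomial.aeval y Q') =
        MvPolynomial.aeval (fun o => j (y o)) Q' := by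
      intro y
      have h : (j.comp (MvPolynomial.aeval y)) = MvPolynomial.aeval (fun o => j (y o)) := by
        apply MvPolynomial.algHom_ext
        intro i
        rw [AlgHom.comp_apply, MvPolynomial.aeval_X, MvPolynomial.aeval_X]
      exact DFunLike.congr_fun h Q'
    rw [h3]
    congr 2
    funext o
    rcases o with _ | i
    · exact aeval_ent_map j (nxt w₀ P a g) f
    · exact aeval_ent_map j (nxt w₀ P a g) (G i)
  rw [aeval_option] at h2
  obtain ⟨Q, hQ⟩ : ∃ Q, Q = MvPolynomial.optionEquivLeft C κ Q' := ⟨_, rfl⟩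
  have hQ0 : Q ≠ 0 := by
    rw [hQ]
    exact (map_ne_zero_iff _ (MvPolynomial.optionEquivLeft C κ).injective).2 hP0
  rw [← hQ] at h2
  obtain ⟨Q₁, hQ₁, hnd⟩ := Polynomial.exists_eq_pow_rootMultiplicity_mul_and_not_dvd Q hQ0 0
  rw [hQ₁, Polynomial.eval₂_mul, Polynomial.eval₂_pow, Polynomial.eval₂_sub, Polynomial.eval₂_X,
    Polynomial.C_0, Polynomial.eval₂_zero, sub_zero, mul_eq_zero] at h2
  have h3 := h2.resolve_left (pow_ne_zero _ hz)
  -- specialisation
  have h4 := congrArg (spec (1 : Eˣ)) h3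
  rw [map_zero] at h4
  have h5 : spec (1 : Eˣ) (Polynomial.eval₂ ((MvPolynomial.aeval (fun i =>
      MvPolynomial.aeval (ent (nxt w₀ P a g)) (G i)) : MvPolynomial κ C →ₐ[C] E[T;T⁻¹]) :
        MvPolynomial κ C →+* E[T;T⁻¹]) (MvPolynomial.aeval (ent (nxt w₀ P a g)) f) Q₁) =
      Polynomial.eval₂ ((MvPolynomial.aeval (fun i => MvPolynomial.aeval (ent g) (G i)) :
        MvPolynomial κ C →ₐ[C] E) : MvPolynomial κ C →+* E) (MvPolynomial.aeval (ent g) f) Q₁ := by
    have hs : ∀ p : MvPolynomial (ι × ι) C, spec (1 : Eˣ)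
        (MvPolynomial.aeval (ent (nxt w₀ P a g)) p) = MvPolynomial.aeval (ent g) p := by
      intro p
      have := aeval_ent_map ((spec (1 : Eˣ)).restrictScalars C) (nxt w₀ P a g) p
      have h6 : (nxt w₀ P a g).map ((spec (1 : Eˣ)).restrictScalars C) = g := by
        have := nxt_spec (w₀ := w₀) (P := P) a g 1
        rw [LT_one hlam h1, Matrix.one_mul] at this
        exact this
      rw [h6] at this
      exact this
    have h7 := Polynomial.hom_eval₂ Q₁ ((MvPolynomial.aeval (fun i =>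
      MvPolynomial.aeval (ent (nxt w₀ P a g)) (G i)) : MvPolynomial κ C →ₐ[C] E[T;T⁻¹]) :
        MvPolynomial κ C →+* E[T;T⁻¹]) ((spec (1 : Eˣ) : E[T;T⁻¹] →ₐ[E] E) : E[T;T⁻¹] →+* E)
          (MvPolynomial.aeval (ent (nxt w₀ P a g)) f)
    have h8 : (((spec (1 : Eˣ) : E[T;T⁻¹] →ₐ[E] E) : E[T;T⁻¹] →+* E).comp
        ((MvPolynomial.aeval (fun i => MvPolynomial.aeval (ent (nxt w₀ P a g)) (G i)) :
          MvPolynomial κ C →ₐ[C] E[T;T⁻¹]) : MvPolynomial κ C →+* E[T;T⁻¹])) =
        ((MvPolynomial.aeval (fun i => MvPolynomial.aeval (ent g) (G i)) :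
          MvPolynomial κ C →ₐ[C] E) : MvPolynomial κ C →+* E) := by
      apply MvPolynomial.ringHom_ext
      · intro a
        simp only [RingHom.comp_apply, RingHom.coe_coe, MvPolynomial.aeval_C]
        exact ((spec (1 : Eˣ)).restrictScalars C).commutes a
      · intro i
        simp only [RingHom.comp_apply, RingHom.coe_coe, MvPolynomial.aeval_X]
        exact hs _
    rw [h8] at h7
    refine h7.trans ?_
    congr 1
    exact hs f
  rw [h5, hf, Polynomial.eval₂_at_zero] at h4
  apply hnd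
  rw [Polynomial.C_0, sub_zero, Polynomial.X_dvd_iff]
  exact (algebraicIndependent_iff.1 hG) _ h4

include hlam h1 in
/-- The next point is generic if it has one more independent function. -/
lemma nxt_isG {g : Matrix ι ι E} {r : ℕ} {V : ℕ → Submodule C E} (hg : IsG w₀ lam E g r V) (a : A)
    (hn : Tr C (ent ((nxt w₀ P a g).map (algebraMap (E[T;T⁻¹]) (FractionRing (E[T;T⁻¹])))))
      (r + 1)) :
    ∃ V', IsG w₀ lam (FractionRing (E[T;T⁻¹]))
      ((nxt w₀ P a g).map (algebraMap (E[T;T⁻¹]) (FractionRing (E[T;T⁻¹])))) (r + 1) V' := by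
  let j : E[T;T⁻¹] →ₐ[C] FractionRing (E[T;T⁻¹]) := IsScalarTower.toAlgHom C _ _
  obtain ⟨S, hS⟩ : ∃ S : (FractionRing (E[T;T⁻¹]))ˣ,
    S = Units.map (j : E[T;T⁻¹] →* FractionRing (E[T;T⁻¹])) (TU E) := ⟨_, rfl⟩
  have he : (nxt w₀ P a g).map (algebraMap (E[T;T⁻¹]) (FractionRing (E[T;T⁻¹]))) =
      LT w₀ P a S * g.map (algebraMap E (FractionRing (E[T;T⁻¹]))) := by
    rw [hS, ← LT_map w₀ P j, nxt]
    refine (Matrix.map_mul (f := (j : E[T;T⁻¹] →+* FractionRing (E[T;T⁻¹])))).trans ?_
    congr 1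
  have hval : ∀ f : MvPolynomial (ι × ι) C,
      algebraMap (E[T;T⁻¹]) (FractionRing (E[T;T⁻¹]))
        (MvPolynomial.aeval (ent (nxt w₀ P a g)) f) =
      MvPolynomial.aeval (ent ((nxt w₀ P a g).map
        (algebraMap (E[T;T⁻¹]) (FractionRing (E[T;T⁻¹]))))) f :=
    fun f => aeval_ent_map j (nxt w₀ P a g) f
  refine ⟨fun u => LV (S : FractionRing (E[T;T⁻¹])) (V u) u, hn,
    IsFil_next hg.fil S.ne_zero, ?_, ?_, ?_, ?_⟩
  · intro i j
    rw [he]
    exact em_next a S hg.em i j
  · intro w n v hv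
    rw [he, kpw_mul, ← Matrix.mulVec_mulVec]
    have h1 : kpw n (g.map (algebraMap E (FractionRing (E[T;T⁻¹])))) *ᵥ
        (fun i => algebraMap C (FractionRing (E[T;T⁻¹])) (v i)) =
          fun i => algebraMap E (FractionRing (E[T;T⁻¹]))
            ((kpw n g *ᵥ fun i => algebraMap C E (v i)) i) := by
      funext i
      rw [Matrix.mulVec, dotProduct, Matrix.mulVec, dotProduct, map_sum]
      refine Finset.sum_congr rfl fun j _ => ?_
      rw [map_mul, ← IsScalarTower.algebraMap_apply, kpw_map]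
      rfl
    rw [h1]
    exact Sp_next hlam a S (hg.lv w n v hv)
  · -- specialisation
    intro f hf
    rw [← hval] at hf
    have h3 : MvPolynomial.aeval (ent (nxt w₀ P a g)) f = 0 :=
      (IsFractionRing.injective (E[T;T⁻¹]) (FractionRing (E[T;T⁻¹]))) (hf.trans (map_zero _).symm)
    have h4 := aeval_ent_map ((spec (1 : Eˣ)).restrictScalars C) (nxt w₀ P a g) f
    rw [h3, map_zero] at h4
    have h5 : (nxt w₀ P a g).map ((spec (1 : Eˣ)).restrictScalars C) = LT w₀ P a 1 * g :=
      nxt_spec a g 1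
    rw [h5, LT_one hlam h1, Matrix.one_mul] at h4
    exact hg.sp f h4.symm
  · intro f hf
    rw [← hval]
    have h3 : MvPolynomial.aeval (ent (nxt w₀ P a g)) f = 0 := by
      refine eq_zero_of_spec (S := Set.range fun t : Cˣ =>
        Units.map ((algebraMap C E : C →+* E) : C →* E) t) ?_ ?_
      · have : Infinite Cˣ := Infinite.of_injective
          (fun n : ℕ => Units.mk0 ((n : C) + 1) (Nat.cast_add_one_ne_zero n)) (by
            intro m n hmn
            have h6 := congrArg (fun u : Cˣ => (u : C)) hmn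
            simp only [Units.val_mk0, add_left_inj, Nat.cast_inj] at h6
            exact h6)
        refine Set.infinite_range_of_injective ?_
        intro s t hst
        ext
        have := congrArg (fun u : Eˣ => (u : E)) hst
        exact (algebraMap C E).injective this
      · rintro _ ⟨t, rfl⟩
        have h4 := aeval_ent_map ((spec (Units.map ((algebraMap C E : C →+* E) : C →* E)
          t)).restrictScalars C) (nxt w₀ P a g) f
        have h5 : (nxt w₀ P a g).map ((spec (Units.map ((algebraMap C E : C →+* E) : C →* E)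
            t)).restrictScalars C) = LT w₀ P a (Units.map ((algebraMap C E : C →+* E) : C →* E) t)
              * g := nxt_spec a g _
        rw [h5, LT_unit hlam, ← aeval_sbs] at h4
        refine h4.trans ?_
        refine hg.van _ fun h hh => ?_
        rw [eval_sbs]
        exact hf _ (Submonoid.mul_mem _ (Submonoid.subset_closure ⟨a, t, rfl⟩) hh)
    rw [h3, map_zero]

variable (w₀ P lam) in
include hlam h1 in
/-- **Existence of a generic point with a stable ideal of relations.** -/
theorem exists_gen : ∃ (r : ℕ) (E : Type) (_ : Field E) (_ : Algebra C E) (g : Matrix ι ι E)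
    (V : ℕ → Submodule C E), r ≤ Fintype.card ι ^ 2 ∧ IsG w₀ lam E g r V ∧
      ∀ γ ∈ Mon lam, ∀ f : MvPolynomial (ι × ι) C, MvPolynomial.aeval (ent g) f = 0 →
        MvPolynomial.aeval (ent (γ.map (algebraMap C E) * g)) f = 0 := by
  classical
  have hb : ∀ r, (∃ (E : Type) (_ : Field E) (_ : Algebra C E) (g : Matrix ι ι E)
      (V : ℕ → Submodule C E), IsG w₀ lam E g r V) → r ≤ Fintype.card ι ^ 2 := by
    rintro r ⟨E, _, _, g, V, hg⟩
    have := hg.tr.le_card
    rwa [Fintype.card_prod, ← sq] at this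
  obtain ⟨r, hr, hmax⟩ : ∃ r, (∃ (E : Type) (_ : Field E) (_ : Algebra C E) (g : Matrix ι ι E)
      (V : ℕ → Submodule C E), IsG w₀ lam E g r V) ∧ ¬ (∃ (E : Type) (_ : Field E)
        (_ : Algebra C E) (g : Matrix ι ι E) (V : ℕ → Submodule C E),
          IsG w₀ lam E g (r + 1) V) := by
    by_contra hcon
    push Not at hcon
    have hall : ∀ r, ∃ (E : Type) (_ : Field E) (_ : Algebra C E) (g : Matrix ι ι E)
        (V : ℕ → Submodule C E), IsG w₀ lam E g r V := by
      intro r
      induction r with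
      | zero => exact ⟨C, inferInstance, inferInstance, 1, _, isG_zero w₀ lam⟩
      | succ r ih => exact hcon r ih
    have := hb _ (hall (Fintype.card ι ^ 2 + 1))
    omega
  have hr' := hb r hr
  obtain ⟨E, _, _, g, V, hg⟩ := hr
  refine ⟨r, E, inferInstance, inferInstance, g, V, hr', hg, ?_⟩
  have hstep : ∀ (a : A) (f : MvPolynomial (ι × ι) C), MvPolynomial.aeval (ent g) f = 0 →
      ∀ s : Eˣ, MvPolynomial.aeval (ent (LT w₀ P a s * g)) f = 0 := by
    intro a f hf s
    have h1' : ¬ Tr C (ent ((nxt w₀ P a g).map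
        (algebraMap (E[T;T⁻¹]) (FractionRing (E[T;T⁻¹]))))) (r + 1) := fun h => by
      obtain ⟨V', hV'⟩ := nxt_isG hlam h1 hg a h
      exact hmax ⟨_, inferInstance, inferInstance, _, _, hV'⟩
    have h2 := nxt_rel hlam h1 hg.tr a h1' f hf
    have h3 := aeval_ent_map ((spec s).restrictScalars C) (nxt w₀ P a g) f
    rw [h2, map_zero] at h3
    have h4 : (nxt w₀ P a g).map ((spec s).restrictScalars C) = LT w₀ P a s * g := nxt_spec a g s
    rw [h4] at h3
    exact h3.symm
  intro γ hγ
  induction hγ using Submonoid.closure_induction with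
  | mem x hx =>
    obtain ⟨a, t, rfl⟩ := hx
    intro f hf
    have h2 := hstep a f hf (Units.map ((algebraMap C E : C →+* E) : C →* E) t)
    rwa [LT_unit hlam] at h2
  | one =>
    intro f hf
    rw [Matrix.map_one _ (map_zero _) (map_one _), Matrix.one_mul]
    exact hf
  | mul x y _ _ hx hy =>
    intro f hf
    have hmul : (x * y).map (algebraMap C E) * g =
        x.map (algebraMap C E) * (y.map (algebraMap C E) * g) := by
      rw [Matrix.map_mul, Matrix.mul_assoc]
    rw [hmul, ← aeval_sbs]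
    exact hy _ (by rw [aeval_sbs]; exact hx f hf)

end Field

end Pool.Agent.K6.H94.XB.GPf

namespace Pool.Agent.K6.H94.XB

open GPf Pool.Agent.N996.BP
open Pool.Agent.K6.H94.TG (kpw Mon Lv mc Ep)

/-- **Piece GP.** -/
theorem t_GP : S_GP := by
  classical
  intro C _ _ ι _ _ A w₀ P lam hlam h1
  obtain ⟨r, E, _, _, g, V, hr, hg, hst⟩ := exists_gen w₀ P lam hlam h1
  obtain ⟨κ, _, _, l, hκ, hl, -⟩ := exists_common hg.tr hg.tr
  let e : Fin r ≃ κ := (Fintype.equivFinOfCardEq hκ).symm
  refine ⟨r, E, inferInstance, inferInstance, Pool.Agent.K6.H94.TG.ent g, V, fun k => l (e k), hr,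
    hg.fil, fun p => hg.em _ _, ?_, ?_, ?_⟩
  · exact hl.comp e e.injective
  · intro w n v hv i
    rw [aeval_mc]
    exact Sp_apply (hg.lv w n v hv) i
  · intro f
    refine ⟨fun hf h hh => ?_, hg.van f⟩
    have h2 := hst h hh f hf
    rw [← aeval_sbs] at h2
    have h3 := hg.sp _ h2
    rw [aev, eval_sbs, Matrix.mul_one] at h3
    exact h3

end Pool.Agent.K6.H94.XB
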