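import Pool.Agent.K6.H94.XB.Stm

/-!
# JAR: translates of a denominator (piece of helper37)
-/

set_option autoImplicit false

namespace Pool.Agent.K6.H94.XB

namespace JAR

variable {C : Type} [Field C] {G : Type} [Monoid G]

/-- the denominators in `F m` of all functions in `E` -/
def den (F E : Submodule C (G → C)) : Submodule C (G → C) where
  carrier := {h | h ∈ F ∧ ∀ f ∈ E, h * f ∈ F}
  add_mem' := by
    rintro a b ⟨ha, ha'⟩ ⟨hb, hb'⟩
    refine ⟨F.add_mem ha hb, fun f hf => ?_⟩
    rw [add_mul]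
    exact F.add_mem (ha' f hf) (hb' f hf)
  zero_mem' := by
    refine ⟨F.zero_mem, fun f _ => ?_⟩
    rw [zero_mul]
    exact F.zero_mem
  smul_mem' := by
    rintro c a ⟨ha, ha'⟩
    refine ⟨F.smul_mem c ha, fun f hf => ?_⟩
    rw [smul_mul_assoc]
    exact F.smul_mem c (ha' f hf)

theorem den_left {F E : Submodule C (G → C)} {iv : G → G}
    (hiv : ∀ x, iv x * x = 1 ∧ x * iv x = 1)
    (hF : ∀ h ∈ F, ∀ a, (fun x => h (a * x)) ∈ F ∧ (fun x => h (x * a)) ∈ F)
    (hE : ∀ f ∈ E, ∀ a, (fun x => f (a * x)) ∈ E ∧ (fun x => f (x * a)) ∈ E)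
    {h : G → C} (hh : h ∈ den F E) (a : G) : (fun x => h (a * x)) ∈ den F E := by
  refine ⟨(hF h hh.1 a).1, fun f hf => ?_⟩
  have h1 := hh.2 _ (hE f hf (iv a)).1
  have h2 := (hF _ h1 a).1
  convert h2 using 1
  funext x
  simp only [Pi.mul_apply]
  rw [← mul_assoc, (hiv a).1, one_mul]

theorem den_right {F E : Submodule C (G → C)} {iv : G → G}
    (hiv : ∀ x, iv x * x = 1 ∧ x * iv x = 1)
    (hF : ∀ h ∈ F, ∀ a, (fun x => h (a * x)) ∈ F ∧ (fun x => h (x * a)) ∈ F)
    (hE : ∀ f ∈ E, ∀ a, (fun x => f (a * x)) ∈ E ∧ (fun x => f (x * a)) ∈ E)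
    {h : G → C} (hh : h ∈ den F E) (a : G) : (fun x => h (x * a)) ∈ den F E := by
  refine ⟨(hF h hh.1 a).2, fun f hf => ?_⟩
  have h1 := hh.2 _ (hE f hf (iv a)).2
  have h2 := (hF _ h1 a).2
  convert h2 using 1
  funext x
  simp only [Pi.mul_apply]
  rw [mul_assoc x a, (hiv a).2, mul_one]

end JAR

open JAR

theorem t_JAR (hD : S_DUA) : S_JAR := by
  intro C _ G _ iv hiv F E D M hmono hone hmul hfin htr hdom hE hED hEt hEq f hf
  have h1ne : (1 : G → C) ≠ 0 := by
    intro h
    have := congrFun h 1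
    simp at this
  choose Q hQ P hP hQ0 hQP using fun i : Fin (Module.finrank C E) =>
    hEq (Module.finBasis C E i : G → C) (Module.finBasis C E i).2
  have hprod : ∀ s : Finset (Fin (Module.finrank C E)),
      (∏ i ∈ s, Q i) ∈ F (M * s.card) ∧ (∏ i ∈ s, Q i) ≠ 0 := by
    intro s
    induction s using Finset.induction_on with
    | empty =>
      rw [Finset.prod_empty, Finset.card_empty, mul_zero]
      exact ⟨hone, h1ne⟩
    | insert a s ha ih =>
      rw [Finset.prod_insert ha, Finset.card_insert_of_notMem ha]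
      constructor
      · have h2 := hmul M (M * s.card) (Q a) (hQ a) _ ih.1
        have h3 : M + M * s.card = M * (s.card + 1) := by ring
        rwa [h3] at h2
      · intro h0
        rcases hdom M (M * s.card) (Q a) (hQ a) _ ih.1 h0 with h | h
        · exact hQ0 a h
        · exact ih.2 h
  set h0 : G → C := ∏ i, Q i with hh0
  have hMD : M * Module.finrank C E ≤ M * D := Nat.mul_le_mul_left M hED
  have h0F : h0 ∈ F (M * D) := by
    have := (hprod Finset.univ).1
    rw [Finset.card_univ, Fintype.card_fin] at this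
    exact hmono _ _ hMD this
  have h0ne : h0 ≠ 0 := (hprod Finset.univ).2
  have h0b : ∀ i, h0 * (Module.finBasis C E i : G → C) ∈ F (M * D) := by
    intro i
    have e1 : h0 * (Module.finBasis C E i : G → C) =
        P i * ∏ j ∈ Finset.univ.erase i, Q j := by
      rw [hh0, ← Finset.mul_prod_erase Finset.univ Q (Finset.mem_univ i), ← hQP i]
      ring
    rw [e1]
    have h2 := hmul M _ (P i) (hP i) _ (hprod (Finset.univ.erase i)).1
    refine hmono _ _ ?_ h2
    rw [Finset.card_erase_of_mem (Finset.mem_univ i), Finset.card_univ, Fintype.card_fin]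
    have hpos : 0 < Module.finrank C E := Nat.pos_of_ne_zero (by
      intro h
      have := i.2
      omega)
    have h3 : M + M * (Module.finrank C E - 1) = M * Module.finrank C E := by
      obtain ⟨k, hk⟩ := Nat.exists_eq_succ_of_ne_zero hpos.ne'
      rw [hk]
      simp only [Nat.succ_eq_add_one, Nat.add_sub_cancel]
      ring
    rw [h3]
    exact hMD
  have h0E : ∀ g ∈ E, h0 * g ∈ F (M * D) := by
    intro g hg
    have e1 : g = ∑ i, (Module.finBasis C E).repr ⟨g, hg⟩ i •
        (Module.finBasis C E i : G → C) := by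
      have := congrArg E.subtype ((Module.finBasis C E).sum_repr ⟨g, hg⟩)
      rw [map_sum] at this
      exact this.symm
    rw [e1, Finset.mul_sum]
    refine Submodule.sum_mem _ fun i _ => ?_
    rw [mul_smul_comm]
    exact Submodule.smul_mem _ _ (h0b i)
  have hF' : ∀ h ∈ F (M * D), ∀ a, (fun x => h (a * x)) ∈ F (M * D) ∧
      (fun x => h (x * a)) ∈ F (M * D) := fun h hh a => (htr _ h hh).1 a
  have h0J : h0 ∈ den (F (M * D)) E := ⟨h0F, h0E⟩
  obtain ⟨z, hz⟩ : ∃ z, h0 z ≠ 0 := by
    by_contra hcon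
    push Not at hcon
    exact h0ne (funext hcon)
  have h1J := den_left hiv hF' hEt h0J z
  set h1 : G → C := fun x => h0 (z * x) with hh1
  have h11 : h1 1 ≠ 0 := by
    rw [hh1]
    simpa using hz
  have hJfin : FiniteDimensional C (den (F (M * D)) E) := by
    have := hfin (M * D)
    exact Submodule.finiteDimensional_of_le (fun h hh => hh.1 : den (F (M * D)) E ≤ F (M * D))
  obtain ⟨k, y, b, hb, hy⟩ := hD C G (den (F (M * D)) E) hJfin
  have key : h1 1 • f = ∑ l, ((fun x => h1 (y l * x)) * f) * (fun x => b l (iv x)) := by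
    funext x
    have e1 := hy _ (den_right hiv hF' hEt h1J x) (iv x)
    simp only [(hiv x).1] at e1
    rw [Finset.sum_apply]
    simp only [Pi.smul_apply, Pi.mul_apply, smul_eq_mul]
    rw [e1, Finset.sum_mul]
    refine Finset.sum_congr rfl fun l _ => ?_
    ring
  have hmem : h1 1 • f ∈ F (2 * M * D) := by
    rw [key]
    refine Submodule.sum_mem _ fun l _ => ?_
    have e1 := (den_left hiv hF' hEt h1J (y l)).2 f hf
    have e2 := (htr _ _ (hb l).1).2
    have e3 := hmul _ _ _ e1 _ e2
    have e4 : M * D + M * D = 2 * M * D := by ring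
    rwa [e4] at e3
  have := Submodule.smul_mem (F (2 * M * D)) (h1 1)⁻¹ hmem
  rwa [smul_smul, inv_mul_cancel₀ h11, one_smul] at this

end Pool.Agent.K6.H94.XB
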