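import Mathlib
import Pool.Agent.K6.H94.XB.Stm

set_option autoImplicit false

namespace Pool.Agent.K6.H94.XB

open IntermediateField in
theorem t_PRM : S_PRM := by
  classical
  intro C K _ _ _ _ F m _ x hx
  have hCinf : Infinite C := inferInstance
  have hchar : CharZero F := charZero_of_injective_algebraMap (algebraMap C F).injective
  set E : IntermediateField F K := adjoin F (Set.range x) with hE
  haveI : FiniteDimensional F E := by
    refine IntermediateField.finiteDimensional_adjoin fun y hy => ?_
    obtain ⟨i, rfl⟩ := hy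
    exact (hx i).isIntegral
  haveI : Algebra.IsSeparable F E := inferInstance
  haveI hfin : Finite (IntermediateField F E) :=
    (Field.exists_primitive_element_iff_finite_intermediateField F E).1
      ⟨inferInstance, Field.exists_primitive_element F E⟩
  have hxE : ∀ j, x j ∈ E := fun j => subset_adjoin F _ ⟨j, rfl⟩
  set x' : m → E := fun j => ⟨x j, hxE j⟩ with hx'
  set T : (m → C) → E := fun c => ∑ j, algebraMap F E (algebraMap C F (c j)) * x' j with hT
  have hTadd : ∀ a b, T (a + b) = T a + T b := by
    intro a b
    simp only [hT, Pi.add_apply, map_add, add_mul, Finset.sum_add_distrib]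
  have hTsmul : ∀ (r : C) a, T (r • a) = algebraMap F E (algebraMap C F r) * T a := by
    intro r a
    simp only [hT, Pi.smul_apply, smul_eq_mul, map_mul, Finset.mul_sum, mul_assoc]
  have hT0 : T 0 = 0 := by simp [hT]
  let W : IntermediateField F E → Subspace C (m → C) := fun M =>
    { carrier := {c | T c ∈ M}
      add_mem' := fun {a b} ha hb => by
        show T (a + b) ∈ M
        rw [hTadd]
        exact M.add_mem ha hb
      zero_mem' := by
        show T 0 ∈ M
        rw [hT0]
        exact M.zero_mem
      smul_mem' := fun r a ha => by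
        show T (r • a) ∈ M
        rw [hTsmul]
        exact M.mul_mem (M.algebraMap_mem _) ha }
  have hTsingle : ∀ j, T (Pi.single j 1) = x' j := by
    intro j
    simp only [hT]
    rw [Finset.sum_eq_single j]
    · simp
    · intro i _ hij
      rw [Pi.single_eq_of_ne hij]
      simp
    · intro h
      exact absurd (Finset.mem_univ _) h
  have hgen : ∀ M : IntermediateField F E, (∀ j, x' j ∈ M) → M = ⊤ := by
    intro M hM
    rw [eq_top_iff]
    intro z _
    have h1 : E ≤ lift M := by
      refine adjoin_le_iff.2 ?_
      rintro _ ⟨j, rfl⟩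
      exact (mem_lift (x' j)).2 (hM j)
    exact (mem_lift z).1 (h1 z.2)
  by_contra hcon
  have hne : ∀ c : m → C, F⟮T c⟯ ≠ ⊤ := by
    intro c hc
    apply hcon
    refine ⟨c, fun i => ?_⟩
    have h1 : x' i ∈ F⟮T c⟯ := by
      rw [hc]
      trivial
    have h2 : (x' i : K) ∈ lift F⟮T c⟯ := (mem_lift _).2 h1
    rw [lift_adjoin_simple] at h2
    have h3 : ((T c : E) : K) = ∑ j, algebraMap C K (c j) * x j := by
      simp only [hT]
      push_cast
      rfl
    rw [h3] at h2
    exact h2
  obtain ⟨⟨M, hM⟩, hMt⟩ := Subspace.exists_eq_top_of_iUnion_eq_univ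
    (p := fun M : {M : IntermediateField F E // M ≠ ⊤} => W M.1) (by
      rw [Set.eq_univ_iff_forall]
      intro c
      rw [Set.mem_iUnion]
      exact ⟨⟨F⟮T c⟯, hne c⟩, mem_adjoin_simple_self F (T c)⟩)
  apply hM
  refine hgen M fun j => ?_
  have h1 : Pi.single j (1 : C) ∈ W M := by
    rw [show W M = ⊤ from hMt]
    trivial
  have h2 : T (Pi.single j 1) ∈ M := h1
  rwa [hTsingle] at h2

end Pool.Agent.K6.H94.XB
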