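import Mathlib
import Pool.Agent.K6.H94.XB.Stm

/-!
# Piece TRA: a relation of `(z, s, y)` with constant `z` makes `z` algebraic over `y`
-/

set_option autoImplicit false

namespace Pool.Agent.K6.H94.XB

open scoped IntermediateField.algebraAdjoinAdjoin

/-- Swapping the first two variables. -/
def swp (r : ℕ) : Option (Option (Fin r)) → Option (Option (Fin r))
  | none => some none
  | some none => none
  | some (some i) => some (some i)

theorem swp_inj (r : ℕ) : Function.Injective (swp r) := by
  intro a b h
  rcases a with _ | _ | i <;> rcases b with _ | _ | j <;> simp_all [swp]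

theorem aeval_pt_eq (C K : Type) [Field C] [Field K] [Algebra C K] (r : ℕ) (y : Fin r → K) (z : K)
    (Φ : MvPolynomial (Option (Option (Fin r))) C) :
    MvPolynomial.aeval (pt y z 0) Φ =
      Polynomial.mapAlgHom (MvPolynomial.aeval (pt₀ y z) : MvPolynomial (Option (Fin r)) C →ₐ[C] K)
        (MvPolynomial.optionEquivLeft C (Option (Fin r)) (MvPolynomial.rename (swp r) Φ)) := by
  have h : (MvPolynomial.aeval (pt y z 0) :
      MvPolynomial (Option (Option (Fin r))) C →ₐ[C] Polynomial K) =
      ((Polynomial.mapAlgHom
        (MvPolynomial.aeval (pt₀ y z) : MvPolynomial (Option (Fin r)) C →ₐ[C] K)).comp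
        (MvPolynomial.optionEquivLeft C (Option (Fin r))).toAlgHom).comp
        (MvPolynomial.rename (swp r)) := by
    apply MvPolynomial.algHom_ext
    rintro (_ | _ | i)
    · simp [pt, pt₀, swp, MvPolynomial.optionEquivLeft_X_some]
    · simp [pt, pt₀, swp, MvPolynomial.optionEquivLeft_X_none]
    · simp [pt, pt₀, swp, MvPolynomial.optionEquivLeft_X_some]
  exact congrArg (fun g => g Φ) h

/-- **Piece TRA**. -/
theorem t_TRA : S_TRA := by
  intro C K _ _ _ r y z hy Φ hΦ h0
  by_contra hz
  have htr : Transcendental (Algebra.adjoin C (Set.range y)) z := by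
    intro halg
    apply hz
    exact halg.extendScalars (FaithfulSMul.algebraMap_injective _ _)
  have hind : AlgebraicIndependent C (pt₀ y z) := (hy.option_iff_transcendental z).2 htr
  rw [aeval_pt_eq] at h0
  have h1 : (MvPolynomial.optionEquivLeft C (Option (Fin r)) (MvPolynomial.rename (swp r) Φ)) = 0 := by
    have hinj : Function.Injective (Polynomial.mapAlgHom
        (MvPolynomial.aeval (pt₀ y z) : MvPolynomial (Option (Fin r)) C →ₐ[C] K)) := by
      intro a b hab
      exact Polynomial.map_injective _ hind hab
    exact hinj (by rw [h0, map_zero])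
  have h2 : MvPolynomial.rename (swp r) Φ = 0 := by
    apply (MvPolynomial.optionEquivLeft C (Option (Fin r))).injective
    rw [h1, map_zero]
  apply hΦ
  apply MvPolynomial.rename_injective _ (swp_inj r)
  rw [h2, map_zero]

end Pool.Agent.K6.H94.XB
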