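import Mathlib
import Pool.Agent.K6.H94.XB.Stm

set_option autoImplicit false

namespace Pool.Agent.K6.H94.XB

open MvPolynomial

namespace Wrp

lemma deg_aeval {τ ρ C : Type} [Field C] [Fintype τ] (g : τ → MvPolynomial ρ C)
    (hg : ∀ i, (g i).totalDegree ≤ 1) (F : MvPolynomial τ C) :
    (aeval g F).totalDegree ≤ F.totalDegree := by
  rw [aeval_def, eval₂_eq']
  refine totalDegree_finsetSum_le fun d hd => ?_
  refine (totalDegree_mul _ _).trans ?_
  have h1 : (algebraMap C (MvPolynomial ρ C) (coeff d F)).totalDegree = 0 := by
    rw [algebraMap_eq, totalDegree_C]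
  rw [h1, zero_add]
  refine (totalDegree_finsetProd _ _).trans ?_
  have h2 : ∑ i, (g i ^ d i).totalDegree ≤ ∑ i, d i := by
    refine Finset.sum_le_sum fun i _ => ?_
    refine (totalDegree_pow _ _).trans ?_
    calc d i * (g i).totalDegree ≤ d i * 1 := Nat.mul_le_mul_left _ (hg i)
      _ = d i := mul_one _
  refine h2.trans ?_
  have h3 : ∑ i, d i = d.sum fun _ e => e := (Finsupp.sum_fintype d (fun _ e => e) fun _ => rfl).symm
  rw [h3]
  exact le_totalDegree hd

lemma deg_pderiv {τ C : Type} [Field C] [Fintype τ] (i : τ) (F : MvPolynomial τ C) :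
    (pderiv i F).totalDegree ≤ F.totalDegree := by
  classical
  conv_lhs => rw [F.as_sum, map_sum]
  refine totalDegree_finsetSum_le fun d hd => ?_
  rw [pderiv_monomial]
  refine (totalDegree_monomial_le _ _).trans ?_
  refine le_trans ?_ (le_totalDegree hd)
  rw [Finsupp.sum_fintype _ _ (fun _ => rfl), Finsupp.sum_fintype _ _ (fun _ => rfl)]
  refine Finset.sum_le_sum fun j _ => ?_
  rw [Finsupp.coe_tsub, Pi.sub_apply]
  exact Nat.sub_le _ _

/-- the substitution `s = 0` -/
noncomputable def sg {C : Type} [Field C] {r : ℕ} :
    Option (Option (Fin r)) → MvPolynomial (Option (Fin r)) C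
  | none => X none
  | some none => 0
  | some (some i) => X (some i)

lemma sg_deg {C : Type} [Field C] {r : ℕ} (i : Option (Option (Fin r))) :
    (sg i : MvPolynomial (Option (Fin r)) C).totalDegree ≤ 1 := by
  rcases i with _ | _ | i
  · exact (totalDegree_X (R := C) _).le
  · simp [sg]
  · exact (totalDegree_X (R := C) _).le

lemma chain {C K : Type} [Field C] [Field K] [Algebra C K] {r : ℕ} (y : Fin r → K) (θ f : K)
    (G : MvPolynomial (Option (Option (Fin r))) C) :
    Polynomial.derivative (aeval (pt y θ f) G) =
      aeval (pt y θ f) (pderiv (some none) G) + Polynomial.C f * aeval (pt y θ f) (pderiv none G) := by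
  classical
  induction G using MvPolynomial.induction_on with
  | C a =>
    rw [pderiv_C, pderiv_C, aeval_C, Polynomial.algebraMap_apply, Polynomial.derivative_C]
    simp
  | add p q hp hq =>
    simp only [map_add, hp, hq]
    ring
  | mul_X p i hp =>
    rw [map_mul, Polynomial.derivative_mul, hp, Derivation.leibniz, Derivation.leibniz, pderiv_X,
      pderiv_X, aeval_X]
    simp only [smul_eq_mul, map_add, map_mul, aeval_X]
    rcases i with _ | _ | i
    · simp [pt]
      ring
    · simp [pt]
      ring
    · simp [pt]
      ring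

lemma ev0 {C K : Type} [Field C] [Field K] [Algebra C K] {r : ℕ} (y : Fin r → K) (θ f : K)
    (G : MvPolynomial (Option (Option (Fin r))) C) :
    Polynomial.eval 0 (aeval (pt y θ f) G) =
      aeval (pt₀ y θ) (aeval (sg : _ → MvPolynomial (Option (Fin r)) C) G) := by
  induction G using MvPolynomial.induction_on with
  | C a =>
    rw [aeval_C, aeval_C, Polynomial.algebraMap_apply, Polynomial.eval_C, algebraMap_eq, aeval_C]
  | add p q hp hq =>
    simp only [map_add, Polynomial.eval_add, hp, hq]
  | mul_X p i hp =>
    rw [map_mul, map_mul, map_mul, Polynomial.eval_mul, hp, aeval_X, aeval_X]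
    congr 1
    rcases i with _ | _ | i
    · simp [pt, pt₀, sg]
    · simp [pt, sg]
    · simp [pt, pt₀, sg]

end Wrp

open Wrp in
open scoped IntermediateField.algebraAdjoinAdjoin in
theorem t_WRP (h : S_DRV) : S_WRP := by
  classical
  intro C K _ _ _ _ r y θ f hy hθ hf Φ₀ hΦ₀ h0
  -- an irreducible relation
  obtain ⟨Φ, hirr, hdeg, hΦ⟩ : ∃ P : MvPolynomial (Option (Option (Fin r))) C, Irreducible P ∧
      P.totalDegree ≤ Φ₀.totalDegree ∧ aeval (pt y θ f) P = 0 := by
    obtain ⟨t, ht, u, hu⟩ := UniqueFactorizationMonoid.exists_prime_factors Φ₀ hΦ₀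
    have h1 : aeval (pt y θ f) t.prod = 0 := by
      have h2 : aeval (pt y θ f) (t.prod * (u : MvPolynomial (Option (Option (Fin r))) C)) = 0 := by
        rw [hu, h0]
      rw [map_mul, mul_eq_zero] at h2
      refine h2.resolve_right ?_
      exact (u.isUnit.map (aeval (pt y θ f))).ne_zero
    rw [map_multiset_prod, Multiset.prod_eq_zero_iff, Multiset.mem_map] at h1
    obtain ⟨P, hP, hP0⟩ := h1
    refine ⟨P, (ht P hP).irreducible, ?_, hP0⟩
    obtain ⟨G, hG⟩ : P ∣ Φ₀ := (Multiset.dvd_prod hP).trans ⟨u, hu.symm⟩
    rw [hG] at hΦ₀ ⊢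
    rw [totalDegree_mul_of_isDomain (left_ne_zero_of_mul hΦ₀) (right_ne_zero_of_mul hΦ₀)]
    omega
  refine ⟨- aeval sg (pderiv (some none) Φ), aeval sg (pderiv none Φ), ?_, ?_, ?_, ?_⟩
  · rw [totalDegree_neg]
    exact (deg_aeval _ sg_deg _).trans ((deg_pderiv _ _).trans hdeg)
  · exact (deg_aeval _ sg_deg _).trans ((deg_pderiv _ _).trans hdeg)
  · -- non-vanishing
    let e3 : MvPolynomial (Fin r) C ≃ₐ[C] Algebra.adjoin C (Set.range y) := hy.aevalEquiv
    have : UniqueFactorizationMonoid (Algebra.adjoin C (Set.range y)) :=
      e3.toRingEquiv.toMulEquiv.uniqueFactorizationMonoid inferInstance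
    have : CharZero (Algebra.adjoin C (Set.range y)) := charZero_of_injective_algebraMap
      (algebraMap C (Algebra.adjoin C (Set.range y))).injective
    have hI : IsFractionRing (Algebra.adjoin C (Set.range y))
      (IntermediateField.adjoin C (Set.range y)) := inferInstance
    let e1 := MvPolynomial.optionEquivLeft C (Option (Fin r))
    let e2 := MvPolynomial.optionEquivLeft C (Fin r)
    let e : MvPolynomial (Option (Option (Fin r))) C ≃+* Polynomial (Polynomial (Algebra.adjoin C (Set.range y))) :=
      e1.toRingEquiv.trans (Polynomial.mapEquiv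
        (e2.toRingEquiv.trans (Polynomial.mapEquiv e3.toRingEquiv)))
    have eC : ∀ a : C, e (MvPolynomial.C a) = Polynomial.C (Polynomial.C (algebraMap C (Algebra.adjoin C (Set.range y)) a)) := by
      intro a
      have h1 : e3 (MvPolynomial.C a) = algebraMap C _ a := e3.commutes a
      simp [e, e1, e2, h1]
    have eN : e (X none) = Polynomial.X := by
      simp [e, e1]
    have eS : e (X (some none)) = Polynomial.C Polynomial.X := by
      simp [e, e1, e2]
    have eY : ∀ i, ∃ z : Algebra.adjoin C (Set.range y), (z : K) = y i ∧ e (X (some (some i))) = Polynomial.C (Polynomial.C z) := by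
      intro i
      refine ⟨e3 (X i), ?_, ?_⟩
      · have h1 := hy.algebraMap_aevalEquiv (X i)
        rw [aeval_X] at h1
        exact h1
      · simp [e, e1, e2]
    have hd : ∀ G, Polynomial.derivative (e G) = e (pderiv none G) := by
      intro G
      induction G using MvPolynomial.induction_on with
      | C a => rw [eC, pderiv_C, map_zero, Polynomial.derivative_C]
      | add p q hp hq => simp only [map_add, hp, hq]
      | mul_X p i hp =>
        rw [map_mul, Polynomial.derivative_mul, hp, Derivation.leibniz, pderiv_X]
        simp only [smul_eq_mul, map_add, map_mul]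
        rcases i with _ | _ | i
        · simp [eN]
          ring
        · simp [eS]
          ring
        · obtain ⟨z, _, hz⟩ := eY i
          simp [hz]
          ring
    have hev : ∀ G, Polynomial.eval₂ (Polynomial.mapRingHom (algebraMap (Algebra.adjoin C (Set.range y)) K))
        (Polynomial.C θ + Polynomial.X * Polynomial.C f) (e G) = aeval (pt y θ f) G := by
      intro G
      induction G using MvPolynomial.induction_on with
      | C a =>
        rw [eC, Polynomial.eval₂_C, aeval_C]
        simp [Polynomial.algebraMap_apply]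
      | add p q hp hq => rw [map_add, Polynomial.eval₂_add, hp, hq, map_add]
      | mul_X p i hp =>
        rw [map_mul, Polynomial.eval₂_mul, hp, map_mul, aeval_X]
        congr 1
        rcases i with _ | _ | i
        · rw [eN, Polynomial.eval₂_X, pt]
        · rw [eS, Polynomial.eval₂_C, pt]
          simp
        · obtain ⟨z, hz1, hz⟩ := eY i
          rw [hz, Polynomial.eval₂_C, pt, ← hz1]
          simp
    have hev0 : ∀ G, Polynomial.eval₂ ((algebraMap (Algebra.adjoin C (Set.range y)) K).comp Polynomial.constantCoeff) θ (e G) =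
        aeval (pt₀ y θ) (aeval (sg : _ → MvPolynomial (Option (Fin r)) C) G) := by
      intro G
      induction G using MvPolynomial.induction_on with
      | C a =>
        rw [eC, Polynomial.eval₂_C, aeval_C, algebraMap_eq, aeval_C]
        simp
      | add p q hp hq => rw [map_add, Polynomial.eval₂_add, hp, hq, map_add, map_add]
      | mul_X p i hp =>
        rw [map_mul, Polynomial.eval₂_mul, hp, map_mul, map_mul, aeval_X]
        congr 1
        rcases i with _ | _ | i
        · rw [eN, Polynomial.eval₂_X, sg, aeval_X, pt₀]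
          rfl
        · rw [eS, Polynomial.eval₂_C, sg]
          simp
        · obtain ⟨z, hz1, hz⟩ := eY i
          rw [hz, Polynomial.eval₂_C, sg, aeval_X, pt₀]
          simp [hz1]
    have key := h (Algebra.adjoin C (Set.range y)) (IntermediateField.adjoin C (Set.range y)) K θ f hθ hf (e Φ) ((MulEquiv.irreducible_iff e).2 hirr)
      ((hev Φ).trans hΦ)
    rw [hd, hev0] at key
    exact key
  · have h1 := chain y θ f Φ
    rw [hΦ, Polynomial.derivative_zero] at h1
    have h2 := congrArg (Polynomial.eval 0) h1
    rw [Polynomial.eval_zero, Polynomial.eval_add, Polynomial.eval_mul, Polynomial.eval_C,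
      ev0, ev0] at h2
    rw [map_neg]
    linear_combination -h2

end Pool.Agent.K6.H94.XB
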