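import Mathlib
import Pool.Agent.K6.H94.XB.Fnl
import Pool.Agent.K6.H94.XB.Cnt
import Pool.Agent.K6.H94.XB.Wrp
import Pool.Agent.K6.H94.XB.Drv
import Pool.Agent.K6.H94.XB.Deg
import Pool.Agent.K6.H94.XB.Prm
import Pool.Agent.K6.H94.XB.Tra
import Pool.Agent.K6.H94.XB.Gp
import Pool.Agent.K6.H94.XB.Jar
import Pool.Agent.K6.H94.XB.Dua

/-!
# Matrix coefficients of bounded level: the explicit bound

The pieces are by helper37 (CNT, JAR), helper61 (DEG, DRV), helper35 (DUA), helper44 (PRM, WRP),
helper40 (TRA) and helper39 (GP).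
-/

set_option autoImplicit false

namespace Pool.Agent.K6.H94.XB

/-- **Bounded denominators.** -/
theorem star : S_STAR := t_STAR t_CNT (t_WRP (t_DRV t_DEG)) t_PRM t_TRA

/-- **Matrix coefficients of bounded level are polynomials of explicitly bounded degree**, for all groups
generated by cocharacters with bounded weights which preserve a non-degenerate form. -/
theorem fnl : S_FNL := t_FNL t_GP star (t_JAR t_DUA)

end Pool.Agent.K6.H94.XB
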