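import Pool.Agent.K6.H94.FG.GFin
import Pool.Agent.K6.H94.XB.Geo
import Pool.Agent.K6.H94.XB.Main
import Pool.Agent.K6.H94.XB.Defs

/-!
# The generalized Hodge conjecture and Deligne's conjecture: explicit bounds
-/

set_option autoImplicit false
set_option linter.unusedSectionVars false

open CategoryTheory AlgebraicGeometry TensorProduct

universe u

namespace Pool.Agent.K6.H94.FG

open Module
open Pool.Agent.H914 Pool.Agent.H914.VarClass Pool.Agent.H914.VarClass.Obj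
  Pool.Agent.H914.WeilCohomology Pool.Agent.Y121 Pool.Agent.Y121.AHS Pool.Agent.N996.BP
  Pool.Agent.K6.H61.DH
open Pool.Agent.Y133.Half (pw ClassPred Sys)
open Pool.Agent.K6.H94.XB

variable {k : Type u} [Field k] {𝒱 : VarClass k} {ops : CycleOps 𝒱} {T : HodgeTheory ops}
  {X Y Z : 𝒱.Obj}

/-- **Deligne's conjecture**, explicit bound. -/
theorem abs_mainN {ψ : Form T X} (hψ' : IsPol T X ψ) {w N : ℕ}
    (hN0 : Geo.bnd (finrank T.W.K (T.W.H X)) X.dim w ≤ N + 1) {Z : 𝒱.Obj}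
    (hZ : VarietyLevelLE T Z w) (D : Conjugates T) (hD : AllAbs D (Z.prod (pw X N))) :
      (∀ n, AllAbs D (Z.prod (pw X n))) ∧ ∀ Y, FromProducts T Z X Y → AllAbs D Y := by
  have hψ := polTo hψ'
  have h1 : ∀ n, AllAbs D (Z.prod (pw X n)) := fun n =>
    (allAbs_iff D _).2 (le_antisymm (AH.abs_le_hodge (toD D) _)
      (Geo.sys_mainN (T := toH T) fnl hψ.isPHS hN0 hZ.lev (AH.absSys (toD D)) (fun Y => AH.abs_le_hodge (toD D) Y)
        ((allAbs_iff D _).1 hD).ge n))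
  refine ⟨h1, fun Y hY => ?_⟩
  obtain ⟨r, m, a, b, u, v, huv, hid⟩ := hY
  refine (allAbs_iff D _).2 (le_antisymm (AH.abs_le_hodge (toD D) _) ?_)
  intro c hc
  rw [← hid c]
  refine Submodule.sum_mem _ fun i _ => ?_
  have hu : T.W.corr (T.W.cl _ (u i)) c ∈ (AH.hodgeSys (toH T)).C (Z.prod (pw X (m i))) := by
    have h2 : T.W.corr (T.W.cl _ (u i)) ∈ (AH.hodgeSys (toH T)).Op Y (Z.prod (pw X (m i))) :=
      Sys.Op.corr (ClassPred.sp_of (Q := AH.hodgePred (toH T)) (AH.IsHodge.cl (huv i).1))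
    exact Sys.Op.apply (fun _ => le_rfl) h2 hc
  have h2 := ((allAbs_iff D _).1 (h1 (m i))).ge hu
  have h3 : T.W.corr (T.W.cl _ (v i)) ∈ (AH.absSys (toD D)).Op (Z.prod (pw X (m i))) Y :=
    Sys.Op.corr (ClassPred.sp_of (Q := AH.absPred (toD D)) ((AH.absPred (toD D)).cl (huv i).2))
  exact Sys.Op.apply (fun _ => le_rfl) h3 h2

/-- **The generalized Hodge conjecture in bounded level, for the products of the powers of `X` with all
varieties of bounded level**, explicit bound. -/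
theorem ghc_mainN {ψ : Form T X} (hψ' : IsPol T X ψ) {v w N : ℕ}
    (hN0 : Geo.bnd (finrank T.W.K (T.W.H X)) X.dim (v + w) ≤ N + 1) {Z : 𝒱.Obj}
    (hZ : VarietyLevelLE T Z w) (hN : GHC T v (Z.prod (pw X N))) :
      (∀ n, GHC T v (Z.prod (pw X n))) ∧ ∀ Y, FromProducts T Z X Y → GHC T v Y := by
  have hψ := polTo hψ'
  have h1 : ∀ n, Geo.GH (toH T) v (Z.prod (pw X n)) :=
    Geo.gh_mainN (T := toH T) fnl hψ.isPHS hN0 hZ.lev (ghc_iff.1 hN)
  refine ⟨fun n => ghc_iff.2 (h1 n), fun Y hY => ?_⟩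
  obtain ⟨r, m, a, b, u, u', huv, hid⟩ := hY
  exact ghc_iff.2 (Geo.gh_from (T := toH T) (P := fun i => Z.prod (pw X (m i)))
    (fun i => h1 (m i)) (fun i => (huv i).1) (fun i => (huv i).2) hid)

lemma factors_eq (b d u : ℕ) : factors b d u = Geo.bnd b d u := by
  unfold factors Geo.bnd bdN bdM Pool.Agent.N996.BP.Geo.expo
  congr 1
  ring

end Pool.Agent.K6.H94.FG
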