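import Pool.Agent.K6.H94.NX.Fin
import Pool.Agent.K6.H94.XB.Geo
import Pool.Agent.K6.H94.XB.Main
import Pool.Agent.K6.H94.XB.Defs

/-!
# The noncommutative Hodge conjecture and the noncommutative standard conjecture of type `D`: explicit
bounds
-/

set_option autoImplicit false
set_option linter.unusedSectionVars false

open CategoryTheory AlgebraicGeometry TensorProduct

universe u

namespace Pool.Agent.K6.H94.NX.Geo

open Module
open Pool.Agent.H914 Pool.Agent.H914.VarClass Pool.Agent.H914.VarClass.Obj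
  Pool.Agent.H914.WeilCohomology
open Pool.Agent.Y133.Half Pool.Agent.Y121.AH Pool.Agent.N996.BP Pool.Agent.N996.BP.Geo
open Pool.Agent.K6.H94.FG.Geo Pool.Agent.K6.H94.XB

variable {k : Type u} [Field k] {𝒱 : VarClass k} {ops : CycleOps 𝒱}
variable {T : HodgeTheory ops} {X Y Z A B : 𝒱.Obj}

/-- **Hodge classes in the part of `Z × X ^ n` cut out by a projector with image of bounded level factor
through `Z × X ^ N`**, explicit bound. -/
theorem cmp_idpN {ψ : LinearMap.BilinForm T.W.K (T.W.H X)}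
    (hψ : IsPHS (tauT T) (Fx T X) ψ X.dim) {w N : ℕ}
    (hN : bdN (finrank T.W.K (T.W.H X)) X.dim w ≤ N + 1) (n : ℕ) :
    ∃ (r : ℕ) (α : Fin r → T.W.H ((pw X N).prod (pw X n)))
      (β : Fin r → T.W.H ((pw X n).prod (pw X N))),
      (∀ i, α i ∈ (hodgePred T).sys.C ((pw X N).prod (pw X n))) ∧
      (∀ i, β i ∈ (hodgePred T).sys.C ((pw X n).prod (pw X N))) ∧
      ∀ (Z : 𝒱.Obj) (p : T.W.H (Z.prod Z)),
        (∀ ζ : T.W.H Z, Wts T Z w (em T.W ℂ (T.W.corr p ζ))) →
        ∀ x ∈ (hodgePred T).sys.C (Z.prod (pw X n)), Fac p x →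
          ∑ i, FG.Geo.cmp (FG.Geo.cmp x (β i)) (α i) = x := by
  by_cases hn : N ≤ n
  · obtain ⟨r, a, b, ha, hb, hab⟩ := op_idN (w := 0 + w) fnl hψ (by
      rw [Nat.zero_add]
      exact hN) hn
    choose α hα hα' using fun i => Sys.mem_Op.1 (ha i)
    choose β hβ hβ' using fun i => Sys.mem_Op.1 (hb i)
    refine ⟨r, α, β, hα, hβ, fun Z p hp x hx hF => ?_⟩
    have hfix : ∀ y ∈ Submodule.span T.W.K {x}, (∀ t : ℂ, t ≠ 0 →
        lop T t (Z.prod (pw X n)) (em T.W ℂ y) = em T.W ℂ y) ∧ Fac p y := by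
      intro y hy
      obtain ⟨r, rfl⟩ := Submodule.mem_span_singleton.1 hy
      refine ⟨inv_iff.2 (Submodule.smul_mem _ _ hx), ?_⟩
      rw [Fac, corr_smul, LinearMap.smul_comp, hF]
    have hstab : Stab T (Z.prod (pw X n)) (Submodule.span T.W.K {x}) := by
      intro y hy t ht
      rw [(hfix y hy).1 t ht]
      exact Submodule.subset_span ⟨y, hy, rfl⟩
    have hw : ∀ y ∈ cont (Submodule.span T.W.K {x}), Wts T (pw X n) (0 + w) (em T.W ℂ y) := by
      intro y hy
      rw [cont] at hy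
      induction hy using Submodule.span_induction with
      | mem y hy =>
        obtain ⟨x', hx', ζ, rfl⟩ := hy
        rw [← (hfix x' hx').2, LinearMap.comp_apply, ← em_corr]
        refine Wts.corr ?_ (hp ζ)
        refine ⟨fun _ => em T.W ℂ x', fun t ht => ?_⟩
        rw [(hfix x' hx').1 t ht]
        simp
      | zero => rw [em_zero]; exact Wts.zero
      | add a b _ _ ha hb => rw [em_add]; exact ha.add hb
      | smul r a _ ha => rw [em_smul]; exact ha.smul _
    apply corr_eq_iff (W := T.W)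
    apply LinearMap.ext
    intro ζ
    rw [corr_sum, LinearMap.sum_apply]
    have h6 : ∀ i, T.W.corr (FG.Geo.cmp (FG.Geo.cmp x (β i)) (α i)) ζ = a i (b i (T.W.corr x ζ)) := fun i => by
      rw [corr_cmp _ (hα i), corr_cmp _ (hβ i), hα', hβ']
      rfl
    rw [Finset.sum_congr rfl fun i _ => h6 i]
    exact hab (cont (Submodule.span T.W.K {x})) (stab_cont hstab) hw _
      (Submodule.subset_span ⟨x, Submodule.mem_span_singleton_self x, ζ, rfl⟩)
  · obtain ⟨β, hβ, hβ'⟩ := exists_graph (hodgePred T).sys (down X (show n ≤ N by omega))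
    obtain ⟨α, hα, hα'⟩ := exists_graph (hodgePred T).sys (up X n N)
    refine ⟨1, fun _ => α, fun _ => β, fun _ => hα, fun _ => hβ, fun Z p _ x _ _ => ?_⟩
    rw [Fin.sum_univ_one]
    apply corr_eq_iff (W := T.W)
    rw [corr_cmp _ hα, corr_cmp _ hβ, hα', hβ']
    apply LinearMap.ext
    intro ζ
    change T.W.map (up X n N) (T.W.map (down X _) (T.W.corr x ζ)) = _
    rw [← T.W.map_comp, up_down, T.W.map_id]

end Pool.Agent.K6.H94.NX.Geo

namespace Pool.Agent.K6.H94.NX

open Module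
open Pool.Agent.H914 Pool.Agent.H914.VarClass Pool.Agent.H914.VarClass.Obj
  Pool.Agent.H914.WeilCohomology Pool.Agent.Y121 Pool.Agent.Y121.AHS Pool.Agent.N996.BP
open Pool.Agent.N996.BP.Geo (expo)
open Pool.Agent.Y133.Half (pw ClassPred Sys algSys Adj Ev tr_corr' xp corr_extOp)
open Pool.Agent.K6.H61.DH (Form IsPol)
open Pool.Agent.K6.H94.FG hiding RSub CSub complexSpan val
open Pool.Agent.K6.H94.XB

variable {k : Type u} [Field k] {𝒱 : VarClass k} {ops : CycleOps 𝒱} {T : HodgeTheory ops}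
  {X Y Z A B : 𝒱.Obj}

/-- **The noncommutative Hodge conjecture**, explicit bound. -/
theorem nch_mainN {ψ : Form T X} (hψ' : IsPol T X ψ) {w N : ℕ}
    (hN0 : FG.Geo.bnd (finrank T.W.K (T.W.H X)) X.dim w ≤ N + 1) {Z : 𝒱.Obj}
    {q : Kernel T Z} (hq : IsAdmissible T q) (hw : AmplitudeLE T q w)
    (hO : HasObject T q ∨ HodgeConj T (pw X N)) (hN : NCHodge T (box T q (pw X N))) :
        (∀ n, NCHodge T (box T q (pw X n))) ∧
          ∀ (Y : 𝒱.Obj) (p : Kernel T Y), IsAdmissible T p → FromBoxes T q X p → NCHodge T p := by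
  have hψ := polTo hψ'
  have hN1 := (le_max_left _ _).trans hN0
  have hN2 := (le_max_right _ _).trans hN0
  have hq' : q ∈ (hs T).C (Z.prod Z) := alg_le_hodge hq.mem
  have h1 : (hs T).C (pw X N) ≤ (algSys T.W).C (pw X N) := by
    rcases hO with hO | hO
    · exact hodge_of hO hN
    · exact hodgeConj_iff.1 hO
  have h2 : ∀ m, (hs T).C (pw X m) ≤ (algSys T.W).C (pw X m) :=
    Geo.bounded_all (T := toH T) hψ.isPHS (Nat.sub_le_of_le_add hN2) h1
  have key : ∀ n, NCHodge T (box T q (pw X n)) := by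
    intro n x hx hxq
    obtain ⟨r, α, β, hα, hβ, hid⟩ := Geo.cmp_idpN (T := toH T) hψ.isPHS hN1 n
    rw [algClasses_eq]
    rw [hodgeClasses_eq] at hx
    have hF := (has_box hq).1 hxq
    rw [← hid Z _ (Geo.wts_amp hq' (ampLE_of hq hw)) x hx hF]
    refine Submodule.sum_mem _ fun i _ => ?_
    refine Sys.comp_mem ?_ (FG.Geo.pw_prod (T := toH T) h2 _ _ (hα i))
    rw [← algClasses_eq]
    exact hN _ (Sys.comp_mem hx (hβ i)) ((has_box hq).2 (hF.cmp (hβ i)))
  refine ⟨key, fun Y p _ hD => ?_⟩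
  obtain ⟨r, m, u, v, huv, hid⟩ := hD
  intro y hy hyp
  rw [algClasses_eq, ← hid y hyp]
  refine Submodule.sum_mem _ fun i _ => ?_
  have hu := (huv i).1
  have hv := (huv i).2
  rw [algClasses_eq] at hu hv
  refine corr_mem _ (fun _ => le_rfl) hv ?_
  rw [← algClasses_eq]
  refine key (m i) _ ?_ ((hq.box _).idem _)
  exact corr_mem (hs T) (fun _ => alg_le_hodge) (hq.box _).mem
    (corr_mem (hs T) (fun _ => alg_le_hodge) hu hy)

/-- **The noncommutative standard conjecture of type `D`**, explicit bound. -/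
theorem ncd_mainN {ψ : Form T X} (hψ' : IsPol T X ψ) {w N : ℕ}
    (hN0 : FG.Geo.bnd (finrank T.W.K (T.W.H X)) X.dim w ≤ N + 1)
    (hO : HodgeConj T (pw X N)) {Z : 𝒱.Obj} {q : Kernel T Z} (hq : IsAdmissible T q)
    (hw : AmplitudeLE T q w) (hN : NCStandardD T (box T q (pw X N))) :
        (∀ n, NCStandardD T (box T q (pw X n))) ∧
          ∀ (Y : 𝒱.Obj) (p : Kernel T Y), IsAdmissible T p → FromBoxes T q X p →
            NCStandardD T p := by
  have hψ := polTo hψ'
  have hN1 := (le_max_left _ _).trans hN0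
  have hN2 := (le_max_right _ _).trans hN0
  have hq' : q ∈ (hs T).C (Z.prod Z) := alg_le_hodge hq.mem
  have h1 : (hs T).C (pw X N) ≤ (algSys T.W).C (pw X N) := hodgeConj_iff.1 hO
  have h2 : ∀ m, (hs T).C (pw X m) ≤ (algSys T.W).C (pw X m) :=
    Geo.bounded_all (T := toH T) hψ.isPHS (Nat.sub_le_of_le_add hN2) h1
  have key : ∀ n, NCStandardD T (box T q (pw X n)) := by
    intro n x hx hxq hx0
    obtain ⟨r, α, β, hα, hβ, hid⟩ := Geo.cmp_idpN (T := toH T) hψ.isPHS hN1 n
    have hF := (has_box hq).1 hxq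
    have hx' : x ∈ (hs T).C (Z.prod (pw X n)) := by
      rw [algClasses_eq] at hx
      exact alg_le_hodge hx
    have hnum := num_iff.2 ⟨hx, hx0⟩
    rw [← hid Z _ (Geo.wts_amp hq' (ampLE_of hq hw)) x hx' hF]
    refine Finset.sum_eq_zero fun i _ => ?_
    have hβ' := FG.Geo.pw_prod (T := toH T) h2 _ _ (hβ i)
    have h3 : FG.Geo.cmp (W := T.W) x (β i) ∈ (algSys T.W).Num (Z.prod (pw X N)) :=
      Sys.Num.push _ (Sys.Num.mul (Sys.Num.map _ hnum) ((algSys T.W).map _ hβ'))
    have h4 := num_iff.1 h3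
    have h5 : FG.Geo.cmp (W := T.W) x (β i) = 0 :=
      hN _ h4.1 ((has_box hq).2 (hF.cmp (hβ i))) h4.2
    have h6 : FG.Geo.cmp (W := T.W) (0 : T.W.H (Z.prod (pw X N))) (α i) = 0 := by
      change T.W.push _ (T.W.map _ (0 : T.W.H (Z.prod (pw X N))) * _) = 0
      rw [map_zero, zero_mul, map_zero]
    exact (congrArg (fun z => FG.Geo.cmp (W := T.W) z (α i)) h5).trans h6
  refine ⟨key, fun Y p _ hD => ?_⟩
  obtain ⟨r, m, u, v, huv, hid⟩ := hD
  intro y hy hyp hy0
  rw [← hid y hyp]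
  refine Finset.sum_eq_zero fun i _ => ?_
  have hu := (huv i).1
  rw [algClasses_eq] at hu
  have h3 : T.W.corr (box T q (pw X (m i))) (T.W.corr (u i) y) ∈ (algSys T.W).Num _ :=
    corr_num (hq.box _).mem (corr_num hu (num_iff.2 ⟨hy, hy0⟩))
  have h4 := num_iff.1 h3
  have h5 := key (m i) _ h4.1 ((hq.box _).idem _) h4.2
  rw [cor_eq, cor_eq, cor_eq, h5, map_zero]

end Pool.Agent.K6.H94.NX
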