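import Mathlib
import Pool.Agent.K6.H94.XB.Stm2

/-!
# Piece ODD: the matrix coefficients of all tensors, on the two cosets (from EVE)
-/

set_option autoImplicit false
set_option linter.unusedSectionVars false

namespace Pool.Agent.K6.H94.XB

open MvPolynomial Matrix
open Pool.Agent.K6.H94.TG

namespace ODD

variable {C : Type} [Field C] [CharZero C] {ι : Type} [Fintype ι] [DecidableEq ι] {A : Type}
  {lam : A → Cˣ → Matrix ι ι C} {p : ι → Bool}

/-- The basis vector `e_j` as a tensor. -/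
def ev (C : Type) [Field C] (j : ι) : (Fin 1 → ι) → C := fun J => if J 0 = j then 1 else 0

lemma kpw_ev (g : Matrix ι ι C) (j : ι) : kpw 1 g *ᵥ ev C j = fun J => g (J 0) j := by
  funext J
  rw [Matrix.mulVec, dotProduct, Finset.sum_eq_single (fun _ => j)]
  · simp [kpw_apply, ev]
  · intro b _ hb
    have : b 0 ≠ j := by
      intro h
      apply hb
      funext x
      rw [Subsingleton.elim x 0, h]
    simp [ev, this]
  · intro h
    exact absurd (Finset.mem_univ _) h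

lemma tmul_sum {n m : ℕ} (s s' : Finset ℤ) (a b : ℤ → C) (c : ℤ → (Fin n → ι) → C)
    (d : ℤ → (Fin m → ι) → C) :
    tmul (∑ k ∈ s, a k • c k) (∑ k ∈ s', b k • d k) =
      ∑ x ∈ s ×ˢ s', (a x.1 * b x.2) • tmul (c x.1) (d x.2) := by
  funext J
  rw [tmul, Finset.sum_apply, Finset.sum_apply, Finset.sum_apply, Finset.sum_mul_sum,
    Finset.sum_product]
  refine Finset.sum_congr rfl fun k _ => Finset.sum_congr rfl fun l _ => ?_
  simp only [Pi.smul_apply, smul_eq_mul, tmul]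
  ring

lemma Lv_tmul {w w' n m : ℕ} {v : (Fin n → ι) → C} {u : (Fin m → ι) → C} (hv : v ∈ Lv lam w n)
    (hu : u ∈ Lv lam w' m) : tmul v u ∈ Lv lam (w + w') (n + m) := by
  intro h hh a
  obtain ⟨c, hc⟩ := hv h hh a
  obtain ⟨d, hd⟩ := hu h hh a
  refine ⟨fun k => ∑ x ∈ Finset.Icc (-w : ℤ) w ×ˢ Finset.Icc (-w' : ℤ) w' with x.1 + x.2 = k,
    tmul (c x.1) (d x.2), fun t => ?_⟩
  rw [Hil.kpw_tmul, Hil.kpw_tmul, hc t, hd t, tmul_sum]
  have h1 : ∀ x ∈ Finset.Icc (-w : ℤ) w ×ˢ Finset.Icc (-w' : ℤ) w',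
      x.1 + x.2 ∈ Finset.Icc (-((w + w' : ℕ) : ℤ)) ((w + w' : ℕ) : ℤ) := by
    intro x hx
    rw [Finset.mem_product, Finset.mem_Icc, Finset.mem_Icc] at hx
    rw [Finset.mem_Icc]
    push_cast
    omega
  rw [← Finset.sum_fiberwise_of_maps_to h1]
  refine Finset.sum_congr rfl fun k _ => ?_
  rw [Finset.smul_sum]
  refine Finset.sum_congr rfl fun x hx => ?_
  rw [← (Finset.mem_filter.1 hx).2, _root_.zpow_add, Units.val_mul]

lemma ev_Lv {w₀ : ℕ} {P : A → ℤ → Matrix ι ι C}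
    (hlam : ∀ a t, lam a t = ∑ k ∈ Finset.Icc (-w₀ : ℤ) w₀, ((t ^ k : Cˣ) : C) • P a k) (j : ι) :
    ev C j ∈ Lv lam w₀ 1 := by
  intro h hh a
  refine ⟨fun k J => (P a k * h) (J 0) j, fun t => ?_⟩
  rw [Matrix.mulVec_mulVec, ← kpw_mul, kpw_ev, hlam]
  funext J
  rw [Finset.sum_mul, Matrix.sum_apply, Finset.sum_apply]
  refine Finset.sum_congr rfl fun k _ => ?_
  rw [Matrix.smul_mul, Matrix.smul_apply, Pi.smul_apply]

lemma Mon_par (hp : ∀ a t, PreservesParity p (lam a t)) {h : Matrix ι ι C} (hh : h ∈ Mon lam) :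
    PreservesParity p h := by
  rw [Mon] at hh
  induction hh using Submonoid.closure_induction with
  | mem h hh =>
    obtain ⟨a, t, rfl⟩ := hh
    exact hp a t
  | one =>
    intro i j hij
    exact Matrix.one_apply_ne (fun h => hij (by rw [h]))
  | mul x y _ _ hx hy => exact par_mul hx hy

lemma E_ev {j : ι} (hj : p j = true) : kpw 1 (sgnop C p) *ᵥ ev C j = - ev C j := by
  rw [kpw_ev]
  funext J
  rw [Pi.neg_apply, ev, sgnop]
  by_cases h : J 0 = j
  · rw [h, Matrix.diagonal_apply_eq, if_pos hj, if_pos rfl]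
  · rw [Matrix.diagonal_apply_ne _ h, if_neg h, neg_zero]

lemma tmul_neg_neg {n m : ℕ} (x : (Fin n → ι) → C) (y : (Fin m → ι) → C) :
    tmul (-x) (-y) = tmul x y := by
  funext J
  simp [tmul]

lemma sgnop_transpose : (sgnop C p)ᵀ = sgnop C p := by
  rw [sgnop, Matrix.diagonal_transpose]

lemma bdM_mono {r a a' : ℕ} (h : a ≤ a') : bdM r a ≤ bdM r a' := by
  unfold bdM
  refine Nat.mul_le_mul_left _ (Nat.pow_le_pow_left ?_ _)
  have := Nat.mul_le_mul_right (r + 1) (Nat.mul_le_mul_left 2 h)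
  omega

lemma bdE_mono {b w₀ w w' : ℕ} (h : w ≤ w') : bdE b w₀ w ≤ bdE b w₀ w' := by
  unfold bdE
  refine Nat.mul_le_mul (Nat.mul_le_mul_left _ (bdM_mono (by omega)))
    (Nat.pow_le_pow_left (by omega) _)

/-- The odd tensors. -/
lemma odd_case (hEVE : S_EVE) {w₀ : ℕ} {P : A → ℤ → Matrix ι ι C}
    (hlam : ∀ a t, lam a t = ∑ k ∈ Finset.Icc (-w₀ : ℤ) w₀, ((t ^ k : Cˣ) : C) • P a k)
    (h1 : ∀ a, lam a 1 = 1) (hinv : ∀ a t, lam a t⁻¹ * lam a t = 1)
    {B B' : Matrix ι ι C} (hB : B' * B = 1) (hBf : ∀ a t, (lam a t)ᵀ * B * lam a t = B)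
    (hp : ∀ a t, PreservesParity p (lam a t)) (hpB : PreservesParity p B)
    (hpB' : PreservesParity p B') {w n : ℕ} {v : (Fin n → ι) → C} (hv : v ∈ Lv lam w n)
    (hvo : kpw n (sgnop C p) *ᵥ v = - v) (i : Fin n → ι) :
    ∃ q : MvPolynomial (ι × ι) C, q.totalDegree ≤ bdP (Fintype.card ι) w₀ w ∧
      ∀ h ∈ Mon lam, (kpw n h *ᵥ v) i = eval (ent h) q ∧
        eval (ent (h * sgnop C p)) q = - eval (ent h) q := by
  by_cases hex : ∃ i₁, p i₁ = true
  · obtain ⟨i₁, hi₁⟩ := hex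
    -- the inverse
    have hform : ∀ x ∈ Mon lam, xᵀ * B * x = B := by
      intro x hx
      rw [Mon] at hx
      induction hx using Submonoid.closure_induction with
      | mem x hx =>
        obtain ⟨a, t, rfl⟩ := hx
        exact hBf a t
      | one => rw [Matrix.transpose_one, Matrix.one_mul, Matrix.mul_one]
      | mul x y _ _ hx hy =>
        rw [Matrix.transpose_mul]
        calc yᵀ * xᵀ * B * (x * y) = yᵀ * (xᵀ * B * x) * y := by simp only [Matrix.mul_assoc]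
          _ = B := by rw [hx, hy]
    have hinv' : ∀ x ∈ Mon lam, x * (B' * xᵀ * B) = 1 := by
      intro x hx
      have h2 : B' * xᵀ * B * x = 1 := by
        rw [Matrix.mul_assoc, Matrix.mul_assoc, ← Matrix.mul_assoc xᵀ, hform x hx, hB]
      exact mul_eq_one_comm.1 h2
    obtain ⟨s, hs, hsf⟩ := lin_sub ((LinearMap.mulRight C B).comp ((LinearMap.mulLeft C B').comp
      (Matrix.transposeLinearEquiv ι ι C C).toLinearMap))
    have hs' : ∀ (x : Matrix ι ι C) (j : ι), eval (ent x) (s (j, i₁)) = (B' * xᵀ * B) j i₁ := by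
      intro x j
      have h2 := hsf x (X (j, i₁))
      rw [aeval_X, eval_X] at h2
      exact h2.symm
    have hq : ∀ j : {j // p j = true}, ∃ q : MvPolynomial (ι × ι) C,
        q.totalDegree ≤ bdE (Fintype.card ι) w₀ (w + w₀) ∧
        ∀ h ∈ Mon lam, (kpw n h *ᵥ v) i * h i₁ j = eval (ent h) q ∧
          eval (ent (h * sgnop C p)) q = eval (ent h) q := by
      intro j
      obtain ⟨q, hqd, hq⟩ := hEVE C ι A w₀ P lam hlam h1 hinv B B' hB hBf p hp hpB hpB'
        (w + w₀) (n + 1) (tmul v (ev C j.1)) (Lv_tmul hv (ev_Lv hlam j.1))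
        (by rw [Hil.kpw_tmul, hvo, E_ev j.2, tmul_neg_neg]) (Fin.append i (fun _ => i₁))
      refine ⟨q, hqd, fun h hh => ⟨?_, (hq h hh).2⟩⟩
      rw [← (hq h hh).1, eval_mc, Hil.kpw_tmul, kpw_ev]
      simp [tmul, Fin.append_left, Fin.append_right]
    choose q hqd hq using hq
    refine ⟨∑ j : {j // p j = true}, q j * s (j.1, i₁), ?_, fun h hh => ?_⟩
    · refine MvPolynomial.totalDegree_finsetSum_le fun j _ => ?_
      refine (totalDegree_mul _ _).trans ?_
      unfold bdP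
      exact Nat.add_le_add (hqd j) (hs _)
    · have hsum : ∑ j : {j // p j = true}, h i₁ j.1 * (B' * hᵀ * B) j.1 i₁ = 1 := by
        have h2 : (h * (B' * hᵀ * B)) i₁ i₁ = 1 := by
          rw [hinv' h hh, Matrix.one_apply_eq]
        rw [Matrix.mul_apply] at h2
        rw [← h2, ← Finset.sum_subtype (Finset.univ.filter fun j => p j = true) (by simp)
          (fun j => h i₁ j * (B' * hᵀ * B) j i₁)]
        refine Finset.sum_filter_of_ne fun j _ hj => ?_
        by_contra h3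
        apply hj
        rw [Mon_par hp hh i₁ j (by rw [hi₁]; exact fun h4 => h3 h4.symm), zero_mul]
      constructor
      · rw [map_sum]
        have h2 : ∀ j : {j // p j = true}, eval (ent h) (q j * s (j.1, i₁)) =
            (kpw n h *ᵥ v) i * (h i₁ j.1 * (B' * hᵀ * B) j.1 i₁) := by
          intro j
          rw [map_mul, hs', ← (hq j h hh).1, mul_assoc]
        rw [Finset.sum_congr rfl fun j _ => h2 j, ← Finset.mul_sum, hsum, mul_one]
      · rw [map_sum, map_sum, ← Finset.sum_neg_distrib]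
        refine Finset.sum_congr rfl fun j _ => ?_
        rw [map_mul, map_mul, (hq j h hh).2, hs', hs', ← mul_neg]
        congr 1
        have h3 : B' * (h * sgnop C p)ᵀ * B = sgnop C p * (B' * hᵀ * B) := by
          rw [Matrix.transpose_mul, sgnop_transpose]
          calc B' * (sgnop C p * hᵀ) * B = (B' * sgnop C p) * hᵀ * B := by
                simp only [Matrix.mul_assoc]
            _ = sgnop C p * (B' * hᵀ * B) := by
                rw [sgnop_comm hpB']
                simp only [Matrix.mul_assoc]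
        rw [h3, sgnop, Matrix.diagonal_mul, if_pos j.2, neg_one_mul]
  · -- no odd part
    have hE : sgnop C p = 1 := by
      rw [sgnop, ← Matrix.diagonal_one]
      congr 1
      funext j
      rw [if_neg (fun hj => hex ⟨j, hj⟩)]
    rw [hE, kpw_one, Matrix.one_mulVec] at hvo
    have hv0 : v = 0 := by
      funext J
      have := congrFun hvo J
      rw [Pi.neg_apply] at this
      exact self_eq_neg.1 this
    refine ⟨0, by rw [totalDegree_zero]; exact Nat.zero_le _, fun h hh => ⟨?_, ?_⟩⟩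
    · rw [hv0, Matrix.mulVec_zero, map_zero, Pi.zero_apply]
    · rw [map_zero, map_zero, neg_zero]

end ODD

open ODD in
/-- **Piece ODD**, from EVE. -/
theorem t_ODD (hEVE : S_EVE) : S_FNLP := by
  intro C _ _ ι _ _ A w₀ P lam hlam h1 hinv B B' hB hBf p hp hpB hpB' w n v hv i
  have hcomm : ∀ a t, lam a t * sgnop C p = sgnop C p * lam a t := fun a t => sgnop_comm (hp a t)
  have hEE : ∀ x : (Fin n → ι) → C, kpw n (sgnop C p) *ᵥ (kpw n (sgnop C p) *ᵥ x) = x := fun x => by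
    rw [Matrix.mulVec_mulVec, ← kpw_mul, sgnop_mul_self, kpw_one, Matrix.one_mulVec]
  have hvE : kpw n (sgnop C p) *ᵥ v ∈ Lv lam w n := Lv_E hcomm hv
  have hv₁ : (2 : C)⁻¹ • (v + kpw n (sgnop C p) *ᵥ v) ∈ Lv lam w n :=
    Submodule.smul_mem _ _ (Submodule.add_mem _ hv hvE)
  have hv₂ : (2 : C)⁻¹ • (v - kpw n (sgnop C p) *ᵥ v) ∈ Lv lam w n :=
    Submodule.smul_mem _ _ (Submodule.sub_mem _ hv hvE)
  have e₁ : kpw n (sgnop C p) *ᵥ ((2 : C)⁻¹ • (v + kpw n (sgnop C p) *ᵥ v)) =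
      (2 : C)⁻¹ • (v + kpw n (sgnop C p) *ᵥ v) := by
    rw [Matrix.mulVec_smul, Matrix.mulVec_add, hEE, add_comm]
  have e₂ : kpw n (sgnop C p) *ᵥ ((2 : C)⁻¹ • (v - kpw n (sgnop C p) *ᵥ v)) =
      - ((2 : C)⁻¹ • (v - kpw n (sgnop C p) *ᵥ v)) := by
    rw [Matrix.mulVec_smul, Matrix.mulVec_sub, hEE, ← smul_neg, neg_sub]
  have hsum : (2 : C)⁻¹ • (v + kpw n (sgnop C p) *ᵥ v) +
      (2 : C)⁻¹ • (v - kpw n (sgnop C p) *ᵥ v) = v := by
    rw [← smul_add, add_add_sub_cancel, ← two_smul C v, smul_smul, inv_mul_cancel₀ two_ne_zero,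
      one_smul]
  obtain ⟨q₁, hd₁, hq₁⟩ := hEVE C ι A w₀ P lam hlam h1 hinv B B' hB hBf p hp hpB hpB' w n _ hv₁ e₁ i
  obtain ⟨q₂, hd₂, hq₂⟩ := odd_case hEVE hlam h1 hinv hB hBf hp hpB hpB' hv₂ e₂ i
  generalize (2 : C)⁻¹ • (v + kpw n (sgnop C p) *ᵥ v) = v₁ at *
  generalize (2 : C)⁻¹ • (v - kpw n (sgnop C p) *ᵥ v) = v₂ at *
  refine ⟨q₁ + q₂, mem_Ep ?_, fun h hh => ⟨?_, ?_⟩⟩
  · refine (totalDegree_add _ _).trans (max_le (hd₁.trans ?_) hd₂)
    unfold bdP
    exact (bdE_mono (by omega)).trans (Nat.le_succ _)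
  · rw [map_add, ← (hq₁ h hh).1, ← (hq₂ h hh).1, eval_mc, eval_mc, ← hsum, Matrix.mulVec_add,
      Pi.add_apply]
  · rw [map_add, (hq₁ h hh).2, (hq₂ h hh).2, ← (hq₁ h hh).1, ← (hq₂ h hh).1, eval_mc, eval_mc,
      kpw_mul, ← Matrix.mulVec_mulVec, ← hsum, Matrix.mulVec_add, e₁, e₂, Matrix.mulVec_add,
      Matrix.mulVec_neg, Pi.add_apply, Pi.neg_apply]

end Pool.Agent.K6.H94.XB
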