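import Pool.Agent.K6.H94.XB.Fin
import Pool.Agent.K6.H94.XB.NFin

/-!
# The explicit bounds, uniformly in the variety
-/

set_option autoImplicit false
set_option linter.unusedSectionVars false

open CategoryTheory AlgebraicGeometry TensorProduct

universe u

namespace Pool.Agent.K6.H94.XB

open Module
open Pool.Agent.H914 Pool.Agent.H914.VarClass Pool.Agent.H914.VarClass.Obj
  Pool.Agent.H914.WeilCohomology Pool.Agent.Y121 Pool.Agent.Y121.AHS Pool.Agent.N996.BP
  Pool.Agent.K6.H61.DH
open Pool.Agent.Y133.Half (pw ClassPred Sys)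

lemma pow_mono {a a' n n' : ℕ} (h : a ≤ a') (hn : n ≤ n') (h1 : 1 ≤ a') : a ^ n ≤ a' ^ n' :=
  (Nat.pow_le_pow_left h n).trans (Nat.pow_le_pow_right h1 hn)

lemma factors_mono {b b' d d' u : ℕ} (hb : b ≤ b') (hd : d ≤ d') :
    factors b d u ≤ factors b' d' u := by
  have hb2 : b ^ 2 ≤ b' ^ 2 := Nat.pow_le_pow_left hb 2
  unfold factors
  refine max_le_max ?_ ?_
  · refine Nat.mul_le_mul (Nat.mul_le_mul (by omega) (pow_mono ?_ hb2 (by omega)))
      (Nat.pow_le_pow_right (by omega) hb2)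
    have h1 : max d u ≤ max d' u := max_le_max hd le_rfl
    have h2 : 2 * max d u * (b ^ 2 + 1) ≤ 2 * max d' u * (b' ^ 2 + 1) :=
      Nat.mul_le_mul (by omega) (by omega)
    omega
  · rcases Nat.eq_zero_or_pos b' with h | h
    · subst h
      obtain rfl : b = 0 := by omega
      exact le_rfl
    · exact pow_mono (Nat.mul_le_mul (by omega) (by omega)) (by omega)
        (Nat.mul_pos (by omega) (by omega))

variable {k : Type u} [Field k] {𝒱 : VarClass k} {ops : CycleOps 𝒱} {T : HodgeTheory ops}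

/-- The number of factors is large enough. -/
lemma bnd_le {X : 𝒱.Obj} {b d u N : ℕ} (hb : finrank T.W.K (T.W.H X) ≤ b) (hd : X.dim ≤ d)
    (hN : factors b d u ≤ N + 1) :
    Pool.Agent.K6.H94.FG.Geo.bnd (finrank T.W.K (T.W.H X)) X.dim u ≤ N + 1 := by
  rw [← Pool.Agent.K6.H94.FG.factors_eq]
  exact (factors_mono hb hd).trans hN

end Pool.Agent.K6.H94.XB
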