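import Mathlib
import Pool.Agent.K6.H94.XB.Stm2

/-!
# Piece TGX (helper78): the explicit theorem on Tate classes
-/

set_option autoImplicit false
set_option linter.unusedSectionVars false

namespace Pool.Agent.K6.H94.XB

open Matrix
open Pool.Agent.K6.H94.TG

namespace TGX

section Form

variable {F : Type} [Field F] {ι : Type} [Fintype ι] [DecidableEq ι]

/-- The action on the tensors with two factors. -/
lemma kpw_two (g b : Matrix ι ι F) (I : Fin 2 → ι) :
    (kpw 2 g *ᵥ fun J => b (J 0) (J 1)) I = (g * b * gᵀ) (I 0) (I 1) := by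
  rw [Matrix.mulVec, dotProduct, ← (finTwoArrowEquiv ι).symm.sum_comp, Fintype.sum_prod_type,
    Matrix.mul_apply, Finset.sum_comm]
  refine Finset.sum_congr rfl fun j _ => ?_
  rw [Matrix.mul_apply, Finset.sum_mul]
  refine Finset.sum_congr rfl fun i _ => ?_
  rw [kpw_apply, Fin.prod_univ_two, Matrix.transpose_apply]
  simp only [finTwoArrowEquiv_symm_apply, Matrix.cons_val_zero, Matrix.cons_val_one]
  ring

/-- Invariance of the inverse form gives invariance of the form. -/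
lemma form_of_inv {g b b' : Matrix ι ι F} (h1 : b' * b = 1) (h2 : g * b' * gᵀ = b') :
    gᵀ * b * g = b := by
  have h3 : b * b' = 1 := mul_eq_one_comm.1 h1
  have h4 : g * (b' * gᵀ * b) = 1 := by
    rw [← h1]
    conv_rhs => rw [← h2]
    simp only [Matrix.mul_assoc]
  have h5 : (b' * gᵀ * b) * g = 1 := mul_eq_one_comm.1 h4
  calc gᵀ * b * g = (b * b') * (gᵀ * b * g) := by rw [h3, Matrix.one_mul]
    _ = b * ((b' * gᵀ * b) * g) := by simp only [Matrix.mul_assoc]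
    _ = b := by rw [h5, Matrix.mul_one]

/-- A matrix which commutes with the parity operator preserves the parity. -/
lemma par_of_comm [CharZero F] {p : ι → Bool} {M : Matrix ι ι F}
    (h : M * sgnop F p = sgnop F p * M) : PreservesParity p M := by
  intro i j hij
  have h1 := congrFun (congrFun h i) j
  rw [sgnop, Matrix.mul_diagonal, Matrix.diagonal_mul] at h1
  cases hi : p i <;> cases hj : p j
  · exact absurd (hi.trans hj.symm) hij
  · rw [hi, hj] at h1
    simp only [if_true, Bool.false_eq_true, if_false] at h1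
    have h2 : (2 : F) * M i j = 0 := by linear_combination -h1
    exact (mul_eq_zero.1 h2).resolve_left two_ne_zero
  · rw [hi, hj] at h1
    simp only [if_true, Bool.false_eq_true, if_false] at h1
    have h2 : (2 : F) * M i j = 0 := by linear_combination h1
    exact (mul_eq_zero.1 h2).resolve_left two_ne_zero
  · exact absurd (hi.trans hj.symm) hij

/-- The inverse of a matrix which preserves the parity. -/
lemma par_inv [CharZero F] {p : ι → Bool} {B : Matrix ι ι F} (hB : PreservesParity p B)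
    (hd : IsUnit B.det) : PreservesParity p B⁻¹ := by
  refine par_of_comm ?_
  have h1 : B * sgnop F p = sgnop F p * B := sgnop_comm hB
  calc B⁻¹ * sgnop F p = B⁻¹ * (sgnop F p * B) * B⁻¹ := by
        rw [Matrix.mul_assoc, Matrix.mul_assoc, Matrix.mul_nonsing_inv B hd, Matrix.mul_one]
    _ = B⁻¹ * (B * sgnop F p) * B⁻¹ := by rw [h1]
    _ = sgnop F p * B⁻¹ := by
        rw [← Matrix.mul_assoc, Matrix.nonsing_inv_mul B hd, Matrix.one_mul]

end Form

section Coc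

variable {K C : Type} [Field K] [Field C] [CharZero C] [Algebra K C] {Γ : Type} [Group Γ]
  {ι μ : Type} [Fintype ι] [DecidableEq ι] [Fintype μ] [DecidableEq μ]
  {ρ : Γ →* Matrix ι ι K} {τ : Γ →* Matrix μ μ K} {A : Type} {P : A → ℤ → Matrix ι ι C}
  {w₀ w : ℕ}

/-- The cocharacters preserve the invariant form. -/
lemma form_cochar [CharZero K] {B : Matrix ι ι K} (hB : ∀ γ, (ρ γ)ᵀ * B * ρ γ = B)
    (hBu : IsUnit B) (hlev : LevelLE ρ P w₀ τ w) (a : A) (s : Cˣ) :
    (cochar (P a) w₀ s)ᵀ * B.map (algebraMap K C) * cochar (P a) w₀ s =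
      B.map (algebraMap K C) := by
  have hd : IsUnit B.det := (Matrix.isUnit_iff_isUnit_det B).1 hBu
  have hT : IsTate ρ 2 (fun J => B⁻¹ (J 0) (J 1)) := by
    refine ⟨⊤, inferInstance, fun δ _ => ?_⟩
    funext I
    rw [kpw_two, inv_form hB hBu δ]
  have h1 := tate_cochar hlev hT a s
  refine form_of_inv (b' := B⁻¹.map (algebraMap K C)) ?_ ?_
  · rw [← Matrix.map_mul, Matrix.nonsing_inv_mul B hd]
    exact Matrix.map_one _ (map_zero _) (map_one _)
  · ext i j
    have h2 := congrFun h1 ![i, j]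
    have h3 : ext C (fun J : Fin 2 → ι => B⁻¹ (J 0) (J 1)) =
        fun J => (B⁻¹.map (algebraMap K C)) (J 0) (J 1) := rfl
    rw [h3, kpw_two] at h2
    exact h2

end Coc

end TGX

open TGX in
/-- **Piece TGX**. -/
theorem t_TGX (h : S_FNLP) : S_TGX := by
  intro C _ _ ι _ _ A P w₀ p hP hPp hred K _ _ Γ _ ρ B hp hBp hB hBu hgen μ _ _ q τ w hq hlev
    Cl S hS hCl hSm n y hy
  have : CharZero K := (algebraMap K C).charZero
  have hd : IsUnit B.det := (Matrix.isUnit_iff_isUnit_det B).1 hBu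
  obtain ⟨Δ₀, hfin, hΔ₀⟩ := hgen
  obtain ⟨⟨Δ, hΔ, hy⟩, hyE⟩ := hy
  have hLv := slc_Lv hy fun a => by
    obtain ⟨e, he, Q, hQ, hcl⟩ := hlev a
    exact ⟨e, he, Q, hQ, hcl Δ hΔ⟩
  have hmapP : ∀ {M : Matrix ι ι K}, PreservesParity p M →
      PreservesParity p (M.map (algebraMap K C)) := by
    intro M hM i j hij
    rw [Matrix.map_apply, hM i j hij, map_zero]
  have hbd := h C ι A w₀ P (fun a t => cochar (P a) w₀ t) (fun _ _ => rfl)
    (fun a => cochar_one (hP a)) (fun a t => by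
      rw [cochar_mul (hP a), inv_mul_cancel, cochar_one (hP a)])
    (B.map (algebraMap K C)) (B⁻¹.map (algebraMap K C))
    (by
      rw [← Matrix.map_mul, Matrix.nonsing_inv_mul B hd]
      exact Matrix.map_one _ (map_zero _) (map_one _))
    (fun a t => form_cochar hB hBu hlev a t) p (fun a t => cochar_par hPp a t) (hmapP hBp)
    (hmapP (par_inv hBp hd)) w
  -- the group with the parity operator
  have hΔ₁ : (Δ ⊓ Δ₀).FiniteIndex := inferInstance
  have hm1 : ∀ δ ∈ Δ ⊓ Δ₀, ∀ s, ((δ, s) : Γ × ℤˣ) ∈ (Δ ⊓ Δ₀).prod ⊤ := fun δ hδ s =>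
    Subgroup.mem_prod.2 ⟨hδ, Subgroup.mem_top _⟩
  have hw1 : ∀ δ, wsg p ρ hp (δ, 1) = ρ δ := fun δ => by
    rw [wsg_apply, psg_one, Matrix.mul_one]
  have hw2 : wsg p ρ hp (1, -1) = sgnop K p := by
    rw [wsg_apply, map_one, Matrix.one_mul, psg_neg_one]
  have ht1 : ∀ δ, wsg q τ hq (δ, 1) = τ δ := fun δ => by
    rw [wsg_apply, psg_one, Matrix.mul_one]
  have ht2 : wsg q τ hq (1, -1) = sgnop K q := by
    rw [wsg_apply, map_one, Matrix.one_mul, psg_neg_one]
  refine core_dec (C := C) (ρ := wsg p ρ hp) (τ := wsg q τ hq) sem (p := p) (B := B)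
    ?_ ?_ hBu ((Δ ⊓ Δ₀).prod ⊤) ?_ (N₂ := bdP (Fintype.card ι) w₀ w) (Cl := Cl) hS ?_ ?_ n y
    ?_ ?_
  · rintro ⟨γ, s⟩
    exact par_mul (hp γ) (par_psg s)
  · rintro ⟨γ, s⟩
    rw [wsg_apply, Matrix.transpose_mul]
    have h1 : (psg K p s)ᵀ = psg K p s := Matrix.diagonal_transpose _
    have h2 : s * s = 1 := by
      rcases unit_cases s with h | h <;> rw [h] <;> simp
    calc (psg K p s)ᵀ * (ρ γ)ᵀ * B * (ρ γ * psg K p s) =
          psg K p s * ((ρ γ)ᵀ * B * ρ γ) * psg K p s := by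
          rw [h1]
          simp only [Matrix.mul_assoc]
      _ = B * (psg K p s * psg K p s) := by
          rw [hB γ, ← psg_comm hBp, Matrix.mul_assoc]
      _ = B := by rw [← psg_mul, h2, psg_one, Matrix.mul_one]
  · intro m U hU
    have hU1 : ∀ g ∈ {g | ∃ δ ∈ Δ ⊓ Δ₀, g = ρ δ}, ∀ x ∈ U, kpw m g *ᵥ x ∈ U := by
      rintro _ ⟨δ, hδ, rfl⟩ x hx
      have h1 := hU ⟨(δ, 1), hm1 δ hδ 1⟩ x hx
      change kpw m (wsg p ρ hp (δ, 1)) *ᵥ x ∈ U at h1
      rwa [hw1] at h1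
    have hU2 : ∀ x ∈ U, kpw m (sgnop K p) *ᵥ x ∈ U := by
      intro x hx
      have h1 := hU ⟨(1, -1), hm1 1 (Subgroup.one_mem _) (-1)⟩ x hx
      change kpw m (wsg p ρ hp (1, -1)) *ᵥ x ∈ U at h1
      rwa [hw2] at h1
    obtain ⟨W₀, hW₀, hc⟩ := cr_of_reductive hred hΔ₀ hlev (Δ ⊓ Δ₀) hΔ₁
      inf_le_right m U (fun g x hx => hU1 _ ⟨g, g.2, rfl⟩ x hx)
    obtain ⟨W, hW, hWE, hc'⟩ := avg {g | ∃ δ ∈ Δ ⊓ Δ₀, g = ρ δ} (E := sgnop K p)
      sgnop_mul_self (by rintro _ ⟨δ, _, rfl⟩; exact sgnop_comm (hp δ)) hU1 hU2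
      (W₀ := W₀) (by rintro _ ⟨δ, hδ, rfl⟩ x hx; exact hW₀ ⟨δ, hδ⟩ x hx) hc
    refine ⟨W, ?_, hc'⟩
    rintro ⟨⟨δ, s⟩, hδs⟩ x hx
    have hδ := (Subgroup.mem_prod.1 hδs).1
    change kpw m (wsg p ρ hp (δ, s)) *ᵥ x ∈ W
    rw [wsg_apply, kpw_mul, ← Matrix.mulVec_mulVec]
    refine hW _ ⟨δ, hδ, rfl⟩ _ ?_
    rcases unit_cases s with h | h
    · rw [h, psg_one, kpw_one, Matrix.one_mulVec]
      exact hx
    · rw [h, psg_neg_one]
      exact hWE x hx
  · intro m x hx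
    refine hCl m x ⟨⟨Δ ⊓ Δ₀, hΔ₁, fun δ hδ => ?_⟩, ?_⟩
    · have h1 := hx (δ, 1) (hm1 δ hδ 1)
      rwa [hw1] at h1
    · have h1 := hx (1, -1) (hm1 1 (Subgroup.one_mem _) (-1))
      rwa [hw2] at h1
  · intro m hm z hz
    refine hSm m hm z ⟨⟨Δ ⊓ Δ₀, hΔ₁, fun δ hδ => ?_⟩, ?_⟩
    · have h1 := hz (δ, 1) (hm1 δ hδ 1)
      rwa [hw1, ht1] at h1
    · have h1 := hz (1, -1) (hm1 1 (Subgroup.one_mem _) (-1))
      rwa [hw2, ht2] at h1
  · rintro ⟨δ, s⟩ hδs
    have hδ := (Subgroup.mem_prod.1 hδs).1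
    rw [wsg_apply, wsg_apply, act_mul]
    rcases unit_cases s with h | h
    · rw [h, psg_one, psg_one, act_one]
      exact hy δ hδ.1
    · rw [h, psg_neg_one, psg_neg_one, hyE]
      exact hy δ hδ.1
  · intro x hx i
    obtain ⟨f, hf, hfe⟩ := hbd n (ext C x) (hLv (ext_span_mem x hx)) i
    refine ⟨f, hf, ?_⟩
    rintro ⟨δ, s⟩ hδs
    have hδ := (Subgroup.mem_prod.1 hδs).1
    rcases unit_cases s with h | h
    · have h1 := hΔ₀ (mc n (ext C x) i - f) (fun h hh => by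
        rw [map_sub, (hfe h hh).1, sub_self]) δ hδ.2
      rw [map_sub, sub_eq_zero] at h1
      rw [h, hw1]
      exact h1
    · have h1 := hΔ₀ (rmul (sgnop C p) (mc n (ext C x) i - f)) (fun h hh => by
        rw [eval_rmul, map_sub, (hfe h hh).2, sub_self]) δ hδ.2
      rw [eval_rmul, map_sub, sub_eq_zero] at h1
      have h2 : (wsg p ρ hp (δ, s)).map (algebraMap K C) =
          (ρ δ).map (algebraMap K C) * sgnop C p := by
        rw [wsg_apply, h, psg_neg_one, Matrix.map_mul, sgnop_map]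
      rw [h2]
      exact h1

end Pool.Agent.K6.H94.XB
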