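import Mathlib
import Pool.Agent.K6.H94.XB.Stm2

/-!
# Piece TRX: algebraically independent linear forms in other generators
-/

set_option autoImplicit false
set_option linter.unusedSectionVars false

namespace Pool.Agent.K6.H94.XB

open Set Pool.Agent.N996.BP

/-- The linear forms in `x'` which are algebraic over fewer than `r` forms are not all of them. -/
theorem trx_ne_top {C K : Type} [Field C] [Field K] [Algebra C K] {r : ℕ} {m m' : Type} [Fintype m]
    [Fintype m'] (x : m → K) (x' : m' → K) (l : Fin r → m → C)
    (hl : AlgebraicIndependent C (fun k => ∑ j, algebraMap C K (l k j) * x j))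
    (hx : ∀ j, IsAlgebraic (Algebra.adjoin C (range x')) (x j)) {κ : Type} [Fintype κ]
    {y : κ → K} (hy : Fintype.card κ < r) : algForms x' (Algebra.adjoin C (range y)) ≠ ⊤ := by
  classical
  intro htop
  have h1 : ∀ k, IsAlgebraic (Algebra.adjoin C (range y)) (x' k) := by
    intro k
    have h2 : (Pi.single k 1 : m' → C) ∈ algForms x' (Algebra.adjoin C (range y)) := by
      rw [htop]; exact Submodule.mem_top
    change IsAlgebraic _ _ at h2
    have h3 : ∑ j, algebraMap C K ((Pi.single k 1 : m' → C) j) * x' j = x' k := by
      rw [Finset.sum_eq_single k]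
      · rw [Pi.single_eq_same, map_one, one_mul]
      · intro j _ hj
        rw [Pi.single_eq_of_ne hj, map_zero, zero_mul]
      · intro h; exact absurd (Finset.mem_univ k) h
    rwa [h3] at h2
  have h4 : range x' ⊆ (AlgebraicIndependent.matroid C K).closure (range y) := by
    rw [AlgebraicIndependent.matroid_closure_eq]
    rintro _ ⟨i, rfl⟩
    exact h1 i
  have h5 : range x ⊆ (AlgebraicIndependent.matroid C K).closure (range x') := by
    rw [AlgebraicIndependent.matroid_closure_eq]
    rintro _ ⟨i, rfl⟩
    exact hx i
  have h6 : range x ⊆ (AlgebraicIndependent.matroid C K).closure (range y) :=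
    h5.trans (Matroid.closure_subset_closure_of_subset_closure h4)
  have h7 : ∀ j, IsAlgebraic (Algebra.adjoin C (range y)) (x j) := by
    intro j
    have h8 := h6 ⟨j, rfl⟩
    rw [AlgebraicIndependent.matroid_closure_eq] at h8
    exact h8
  have h9 := card_le_of_alg (y := y) hl fun i => by
    refine Finset.sum_induction _ (fun z => IsAlgebraic (Algebra.adjoin C (range y)) z)
      (fun a b ha hb => ha.add hb) isAlgebraic_zero fun j _ => ?_
    exact IsAlgebraic.mul
      (isAlgebraic_algebraMap (algebraMap C (Algebra.adjoin C (range y)) (l i j))) (h7 j)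
  rw [Fintype.card_fin] at h9
  omega

/-- **Piece TRX**. -/
theorem t_TRX : S_TRX := by
  intro C K _ _ _ r m m' _ _ x x' l hl hx
  classical
  suffices h : ∀ n ≤ r, ∃ (κ : Type) (_ : Fintype κ) (lam : κ → m' → C), Fintype.card κ = n ∧
      AlgebraicIndependent C (lin lam x') by
    obtain ⟨κ, _, lam, h1, h2⟩ := h r le_rfl
    let e : Fin r ≃ κ := (Fintype.equivFinOfCardEq h1).symm
    exact ⟨fun k => lam (e k), h2.comp e e.injective⟩
  intro n
  induction n with
  | zero =>
    intro _
    exact ⟨Empty, inferInstance, Empty.elim, rfl,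
      algebraicIndependent_empty_type_iff.2 (FaithfulSMul.algebraMap_injective C K)⟩
  | succ n ih =>
    intro hn
    obtain ⟨κ, _, lam, h1, h2⟩ := ih (by omega)
    have h3 := trx_ne_top x x' l hl hx (y := lin lam x') (by omega)
    obtain ⟨μ, hμ⟩ : ∃ μ, μ ∉ algForms x' (Algebra.adjoin C (range (lin lam x'))) := by
      by_contra hc
      push Not at hc
      exact h3 (Submodule.eq_top_iff'.2 hc)
    have key : lin (fun o : Option κ => o.elim μ lam) x' =
        fun o : Option κ => o.elim (∑ k, algebraMap C K (μ k) * x' k) (lin lam x') := by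
      funext o
      rcases o with _ | i <;> rfl
    refine ⟨Option κ, inferInstance, fun o => o.elim μ lam, by
      rw [Fintype.card_option, h1], ?_⟩
    rw [key]
    exact (h2.option_iff_transcendental _).2 hμ

end Pool.Agent.K6.H94.XB
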