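import Pool.Agent.K6.H94.XB.Main
import Pool.Agent.K6.H94.XB.Trx
import Pool.Agent.K6.H94.XB.Eve
import Pool.Agent.K6.H94.XB.Odd
import Pool.Agent.K6.H94.XB.Tgx

/-!
# The explicit theorem on Tate classes
-/

set_option autoImplicit false

namespace Pool.Agent.K6.H94.XB

/-- The matrix coefficients of all tensors of bounded level have explicitly bounded degree, on both
cosets. -/
theorem fnlp : S_FNLP := t_ODD (t_EVE t_GP star (t_JAR t_DUA) t_TRX)

/-- The explicit theorem on Tate classes. -/
theorem tgx : S_TGX := t_TGX fnlp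

end Pool.Agent.K6.H94.XB
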