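import Mathlib
import Pool.Agent.K6.H94.XB.TMain
import Pool.Agent.K6.H94.TG.Tpw

/-!
# One power suffices: even Tate classes, with an explicit bound for the classes on `U × X ^ n`
-/

set_option autoImplicit false
set_option linter.unusedSectionVars false

namespace Pool.Agent.K6.H94.XB

open Matrix
open Pool.Agent.K6.H94.TG

variable {C : Type} [Field C] [CharZero C] {ι : Type} [Fintype ι] [DecidableEq ι] {A : Type}
  {P : A → ℤ → Matrix ι ι C} {w₀ : ℕ}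

lemma par_of_comm {p : ι → Bool} {g : Matrix ι ι C} (h : g * sgnop C p = sgnop C p * g) :
    PreservesParity p g := by
  intro i j hij
  have h1 := congrFun (congrFun h i) j
  rw [sgnop, Matrix.mul_diagonal, Matrix.diagonal_mul] at h1
  cases hi : p i <;> cases hj : p j
  · exact absurd (hi.trans hj.symm) hij
  · rw [hi, hj] at h1
    simp only [Bool.false_eq_true, if_true, if_false, mul_neg, mul_one, one_mul] at h1
    exact self_eq_neg.1 h1.symm
  · rw [hi, hj] at h1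
    simp only [Bool.false_eq_true, if_true, if_false, mul_one, neg_mul, one_mul] at h1
    exact self_eq_neg.1 h1
  · exact absurd (hi.trans hj.symm) hij

/-- **Main theorem for even Tate classes, with the explicit bound.** -/
theorem main_evenX {p : ι → Bool} (hP : ∀ a, IsGrading (P a) w₀)
    (hPp : ∀ a k, PreservesParity p (P a k)) (hred : GeneratesReductive P w₀) :
    ∃ N : ℕ, ∀ (K : Type) [Field K] [Algebra K C] (Γ : Type) [Group Γ] (ρ : Γ →* Matrix ι ι K)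
      (B : Matrix ι ι K) (g : (Matrix ι ι C)ˣ), PreservesParity p (g : Matrix ι ι C) →
      IsParity p ρ → PreservesParity p B →
      (∀ γ, (ρ γ)ᵀ * B * ρ γ = B) → IsUnit B → IsGenerated ρ (conj g P) w₀ →
      ∀ (w : ℕ) (μ : Type) [Fintype μ] [DecidableEq μ] (q : μ → Bool) (τ : Γ →* Matrix μ μ K),
      IsParity q τ → LevelLE ρ (conj g P) w₀ τ w →
      ∀ (Cl : ∀ n, Submodule K ((Fin n → ι) → K)) (S : ∀ n, Submodule K ((Fin n → ι) → μ → K)),
        IsSystem p B Cl S → (∀ m ≤ N, ∀ x, IsEvenTate p ρ m x → x ∈ Cl m) →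
        (∀ n x, IsEvenTate p ρ n x → x ∈ Cl n) ∧
          ((∀ m ≤ bdP (Fintype.card ι) w₀ w, ∀ y, IsEvenTateM p q ρ τ m y → y ∈ S m) →
            ∀ n y, IsEvenTateM p q ρ τ n y → y ∈ S n) := by
  have hE1 : sgnop C p * sgnop C p = 1 := sgnop_mul_self
  have hcomm : ∀ a t, cochar (P a) w₀ t * sgnop C p = sgnop C p * cochar (P a) w₀ t :=
    fun a t => sgnop_comm (cochar_par hPp a t)
  obtain ⟨N₁, hN₁⟩ := hil C ι (Gp2 P w₀ (sgnop C p)) (gpr2 P w₀ (sgnop C p))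
    (gp2_cr hP hred hE1 hcomm)
  refine ⟨N₁, fun K _ _ Γ _ ρ B g hgp hp hBp hB hBu hgen w μ _ _ q τ hq hlev Cl S hS hC => ?_⟩
  have : CharZero K := (algebraMap K C).charZero
  have hgE : (g : Matrix ι ι C) * sgnop C p = sgnop C p * (g : Matrix ι ι C) := sgnop_comm hgp
  have hgE' := inv_comm hgE
  have hgen' := hgen
  obtain ⟨Δ₀, hfin, hΔ₀⟩ := hgen
  have hCl : ∀ n x, IsEvenTate p ρ n x → x ∈ Cl n := by
    have h1 := hN₁ (Big g (Hom p Cl)) (Big_isSys (Hom_isSys hS.1) g) (fun m hm x hx => by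
      rw [mem_Big]
      refine mem_spn_of_red fun r => ?_
      rw [mem_Hom]
      intro e
      refine hC m hm _ ⟨⟨Δ₀, hfin, fun δ hδ => ?_⟩, ?_⟩
      · rw [kpw_part (hp δ), ← red_mulVec, fixed_of_cochar hΔ₀ (fun a t => ?_) hδ]
        rw [cochar_conj, kpw_conj, kpw_inv_cancel, fixed_gp2_cochar hP hx]
      · have h2 : Par p (sgnop K p) := by
          rw [← psg_neg_one]
          exact par_psg _
        rw [kpw_part h2, ← red_mulVec, sgnop_map]
        congr 2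
        rw [Matrix.mulVec_mulVec, ← kpw_mul, ← hgE, kpw_mul, ← Matrix.mulVec_mulVec,
          fixed_gp2_E hE1 hx])
    intro n x hx
    have h2 : kpw n ((g⁻¹ : (Matrix ι ι C)ˣ) : Matrix ι ι C) *ᵥ ext C x ∈
        Fixed (gpr2 P w₀ (sgnop C p)) n := by
      refine mem_fixed_gp2 (fun a t => ?_) ?_
      · have h3 := tate_cochar hlev hx.1 a t
        rw [cochar_conj, kpw_conj] at h3
        have h4 := congrArg (fun z => kpw n ((g⁻¹ : (Matrix ι ι C)ˣ) : Matrix ι ι C) *ᵥ z) h3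
        simp only [kpw_inv_cancel] at h4
        exact h4
      · rw [Matrix.mulVec_mulVec, ← kpw_mul, ← hgE', kpw_mul, ← Matrix.mulVec_mulVec]
        congr 1
        rw [← sgnop_map (algebraMap K C), map_kpw_mulVec, hx.2]
    have h3 := h1 n h2
    rw [mem_Big, kpw_cancel] at h3
    have h4 := mem_of_ext_mem h3
    rw [mem_Hom] at h4
    rw [← sum_part (p := p) x]
    exact Submodule.sum_mem _ fun e _ => h4 e
  refine ⟨hCl, fun hSm => tgx C ι A (conj g P) w₀ p (fun a => grading_conj (hP a) g)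
    (fun a k => ?_) (reductive_conj hred g) K Γ ρ B hp hBp hB hBu hgen' μ q τ w hq hlev Cl S hS.2
    hCl hSm⟩
  have h1 : PreservesParity p ((g⁻¹ : (Matrix ι ι C)ˣ) : Matrix ι ι C) := par_of_comm hgE'
  exact par_mul (par_mul hgp (hPp a k)) h1

/-- The bound `2 (r + 2) (2 a (r + 1) + 1) ^ r · (2 c + 1) ^ r · 4` is at most
`(2 (r + 2) s) ^ (2 (r + 1))` for `s ≥ a + 1`, `s ≥ c + 1`. -/
lemma bd_le {r a c s : ℕ} (ha : a + 1 ≤ s) (hc : c + 1 ≤ s) :
    2 * bdM r a * (2 * c + 1) ^ r ≤ (2 * (r + 2) * s) ^ (2 * r) * (4 * (r + 2)) := by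
  have h1 : 2 * a * (r + 1) + 1 ≤ 2 * (r + 2) * s := by
    calc 2 * a * (r + 1) + 1 ≤ 2 * a * (r + 2) + 2 * (r + 2) := by nlinarith
      _ = 2 * (r + 2) * (a + 1) := by ring
      _ ≤ 2 * (r + 2) * s := by gcongr
  have h2 : 2 * c + 1 ≤ 2 * (r + 2) * s := by
    calc 2 * c + 1 ≤ 2 * (c + 1) := by omega
      _ ≤ 2 * s := by gcongr
      _ = 2 * 1 * s := by ring
      _ ≤ 2 * (r + 2) * s := by gcongr; omega
  calc 2 * bdM r a * (2 * c + 1) ^ r =
        4 * (r + 2) * (2 * a * (r + 1) + 1) ^ r * (2 * c + 1) ^ r := by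
        rw [bdM]
        ring
    _ ≤ 4 * (r + 2) * (2 * (r + 2) * s) ^ r * (2 * (r + 2) * s) ^ r := by gcongr
    _ = (2 * (r + 2) * s) ^ (2 * r) * (4 * (r + 2)) := by
        rw [two_mul r, pow_add]
        ring

lemma bdN_le (b w₀ w : ℕ) :
    bdN b w₀ w ≤ (2 * (b ^ 2 + 2) * (w₀ + w + 1)) ^ (2 * (b ^ 2 + 1)) := by
  rw [bdN, mul_add 2 (b ^ 2) 1, mul_one, pow_add]
  refine (bd_le (s := w₀ + w + 1) ?_ (by omega)).trans ?_
  · have : max w₀ w ≤ w₀ + w := max_le (by omega) (by omega)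
    omega
  · gcongr
    have h1 : 1 ≤ w₀ + w + 1 := by omega
    have h2 : 1 ≤ b ^ 2 + 2 := by omega
    calc 4 * (b ^ 2 + 2) = 4 * (b ^ 2 + 2) * (1 * (1 * 1)) := by ring
      _ ≤ 4 * (b ^ 2 + 2) * ((b ^ 2 + 2) * ((w₀ + w + 1) * (w₀ + w + 1))) := by gcongr
      _ = (2 * (b ^ 2 + 2) * (w₀ + w + 1)) ^ 2 := by ring

lemma bdP_le (b w₀ w : ℕ) :
    bdP b w₀ w ≤ (2 * (b ^ 2 + 2) * (2 * w₀ + w + 2)) ^ (2 * (b ^ 2 + 1)) := by
  rw [bdP, bdE, mul_add 2 (b ^ 2) 1, mul_one, pow_add]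
  set s := 2 * w₀ + w + 2 with hs
  have h0 := bd_le (r := b ^ 2) (a := max (2 * w₀) (w + w₀)) (c := w + w₀) (s := s) (by
    have : max (2 * w₀) (w + w₀) ≤ 2 * w₀ + w := max_le (by omega) (by omega)
    omega) (by omega)
  have h1 : 1 ≤ (2 * (b ^ 2 + 2) * s) ^ (2 * b ^ 2) := Nat.one_le_pow _ _ (by positivity)
  have h2 : 2 ≤ s := by omega
  have h3 : 2 ≤ b ^ 2 + 2 := by omega
  calc 4 * bdM (b ^ 2) (max (2 * w₀) (w + w₀)) * (2 * (w + w₀) + 1) ^ b ^ 2 + 1 =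
        2 * (2 * bdM (b ^ 2) (max (2 * w₀) (w + w₀)) * (2 * (w + w₀) + 1) ^ b ^ 2) + 1 := by ring
    _ ≤ 2 * ((2 * (b ^ 2 + 2) * s) ^ (2 * b ^ 2) * (4 * (b ^ 2 + 2))) +
        (2 * (b ^ 2 + 2) * s) ^ (2 * b ^ 2) := by gcongr
    _ = (2 * (b ^ 2 + 2) * s) ^ (2 * b ^ 2) * (8 * (b ^ 2 + 2) + 1) := by ring
    _ ≤ (2 * (b ^ 2 + 2) * s) ^ (2 * b ^ 2) * (2 * (b ^ 2 + 2) * s) ^ 2 := by
        gcongr
        calc 8 * (b ^ 2 + 2) + 1 ≤ 4 * (b ^ 2 + 2) * (2 * (2 * 2)) := by omega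
          _ ≤ 4 * (b ^ 2 + 2) * ((b ^ 2 + 2) * (s * s)) := by gcongr
          _ = (2 * (b ^ 2 + 2) * s) ^ 2 := by ring

/-- **Main theorem for all Tate classes, with the explicit bound.** -/
theorem main_uniformX (hP : ∀ a, IsGrading (P a) w₀) (hred : GeneratesReductive P w₀) :
    ∃ N : ℕ, ∀ (K : Type) [Field K] [Algebra K C] (Γ : Type) [Group Γ] (ρ : Γ →* Matrix ι ι K)
      (p : ι → Bool) (B : Matrix ι ι K) (g : (Matrix ι ι C)ˣ), IsParity p ρ →
      (∀ γ, (ρ γ)ᵀ * B * ρ γ = B) → IsUnit B → IsGenerated ρ (conj g P) w₀ →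
      ∀ (w : ℕ) (μ : Type) [Fintype μ] [DecidableEq μ] (τ : Γ →* Matrix μ μ K),
      LevelLE ρ (conj g P) w₀ τ w →
      ∀ (Cl : ∀ n, Submodule K ((Fin n → ι) → K)) (S : ∀ n, Submodule K ((Fin n → ι) → μ → K)),
        IsSystem p B Cl S → (∀ m ≤ N, ∀ x, IsTate ρ m x → x ∈ Cl m) →
        (∀ n x, IsTate ρ n x → x ∈ Cl n) ∧
          ((∀ m ≤ bdN (Fintype.card ι) w₀ w, ∀ y, IsTateM ρ τ m y → y ∈ S m) →
            ∀ n y, IsTateM ρ τ n y → y ∈ S n) := by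
  obtain ⟨N₁, hN₁⟩ := hil C ι (Gp P w₀) (gpr P w₀) (gp_cr hP hred)
  refine ⟨N₁, fun K _ _ Γ _ ρ p B g hp hB hBu hgen w μ _ _ τ hlev Cl S hS hC => ?_⟩
  have : CharZero K := (algebraMap K C).charZero
  have hd : IsUnit B.det := (Matrix.isUnit_iff_isUnit_det B).1 hBu
  obtain ⟨Δ₀, hfin, hΔ₀⟩ := hgen
  have hCl : ∀ n x, IsTate ρ n x → x ∈ Cl n := by
    have h1 := hN₁ (Big g (Hom p Cl)) (Big_isSys (Hom_isSys hS.1) g) (fun m hm x hx => by
      rw [mem_Big]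
      refine mem_spn_of_red fun r => ?_
      rw [mem_Hom]
      intro e
      refine hC m hm _ ⟨Δ₀, hfin, fun δ hδ => ?_⟩
      rw [kpw_part (hp δ), ← red_mulVec, fixed_of_cochar hΔ₀ (fun a t => ?_) hδ]
      rw [cochar_conj, kpw_conj, kpw_inv_cancel, fixed_gp_cochar hP hx])
    intro n x hx
    have h2 : kpw n ((g⁻¹ : (Matrix ι ι C)ˣ) : Matrix ι ι C) *ᵥ ext C x ∈ Fixed (gpr P w₀) n := by
      refine mem_fixed_gp fun a t => ?_
      have h3 := tate_cochar hlev hx a t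
      rw [cochar_conj, kpw_conj] at h3
      have h4 := congrArg (fun z => kpw n ((g⁻¹ : (Matrix ι ι C)ˣ) : Matrix ι ι C) *ᵥ z) h3
      simp only [kpw_inv_cancel] at h4
      exact h4
    have h3 := h1 n h2
    rw [mem_Big, kpw_cancel] at h3
    have h4 := mem_of_ext_mem h3
    rw [mem_Hom] at h4
    rw [← sum_part (p := p) x]
    exact Submodule.sum_mem _ fun e _ => h4 e
  have hPc : ∀ a, IsGrading (conj g P a) w₀ := fun a => grading_conj (hP a) g
  have hbd := fnl C ι A w₀ (conj g P) (fun a t => cochar (conj g P a) w₀ t) (fun _ _ => rfl)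
    (fun a => cochar_one (hPc a)) (fun a t => by
      rw [cochar_mul (hPc a), inv_mul_cancel, cochar_one (hPc a)])
    (B.map (algebraMap K C)) (B⁻¹.map (algebraMap K C))
    (by
      rw [← Matrix.map_mul, Matrix.nonsing_inv_mul B hd]
      exact Matrix.map_one _ (map_zero _) (map_one _))
    (fun a t => TGX.form_cochar hB hBu hlev a t) w
  exact ⟨hCl, fun hSm => core (P := conj g P) sem hp hB hBu hfin
    (fun Δ hΔ hle n => cr_of_reductive (reductive_conj hred g) hΔ₀ hlev Δ hΔ hle n) hΔ₀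
    hbd hlev hS.2 hCl fun m hm y hy => hSm m hm y hy⟩

/-- **Abelian varieties**: the number of factors is explicit and independent of the dimension of the
second factor. -/
theorem main_abelianX (hP : ∀ a, IsGrading (P a) w₀) (hred : GeneratesReductive P w₀) :
    ∃ N : ℕ, ∀ (K : Type) [Field K] [Algebra K C] (Γ : Type) [Group Γ] (ρ : Γ →* Matrix ι ι K)
      (B : Matrix ι ι K) (g : (Matrix ι ι C)ˣ),
      (∀ γ, (ρ γ)ᵀ * B * ρ γ = B) → IsUnit B → IsGenerated ρ (conj g P) w₀ →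
      ∀ (u : ℕ) (μ : Type) [Fintype μ] [DecidableEq μ] (τ : Γ →* Matrix μ μ K),
      LevelLE ρ (conj g P) w₀ τ u →
      ∀ (Cl : ∀ n, Submodule K ((Fin n → ι) → K))
        (S : ∀ j n, Submodule K ((Fin n → ι) → (Fin j → μ) → K)),
        IsAbelianSystem B Cl S → (∀ m ≤ N, ∀ x, IsTate ρ m x → x ∈ Cl m) →
        (∀ n x, IsTate ρ n x → x ∈ Cl n) ∧
          ∀ j, (∀ m ≤ (2 * (Fintype.card ι ^ 2 + 2) * (w₀ + j * u + 1)) ^
              (2 * (Fintype.card ι ^ 2 + 1)), ∀ y, IsTateM ρ (tpow τ j) m y → y ∈ S j m) →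
            ∀ n y, IsTateM ρ (tpow τ j) n y → y ∈ S j n := by
  obtain ⟨N, hN⟩ := main_uniformX hP hred
  refine ⟨N, fun K _ _ Γ _ ρ B g hB hBu hgen u μ _ _ τ hlev Cl S hS hC => ⟨?_, ?_⟩⟩
  · exact (hN K Γ ρ (fun _ => true) B g (fun γ i j h => absurd rfl h) hB hBu hgen (0 * u)
      (Fin 0 → μ) (tpow τ 0) (level_tpow hlev 0) Cl (S 0) (hS 0) hC).1
  · intro j hSm
    exact (hN K Γ ρ (fun _ => true) B g (fun γ i j h => absurd rfl h) hB hBu hgen (j * u)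
      (Fin j → μ) (tpow τ j) (level_tpow hlev j) Cl (S j) (hS j) hC).2
      fun m hm => hSm m (hm.trans (bdN_le _ _ _))

/-- **Main theorem for even Tate classes, with the simple explicit bound.** -/
theorem main_evenS {p : ι → Bool} (hP : ∀ a, IsGrading (P a) w₀)
    (hPp : ∀ a k, PreservesParity p (P a k)) (hred : GeneratesReductive P w₀) :
    ∃ N : ℕ, ∀ (K : Type) [Field K] [Algebra K C] (Γ : Type) [Group Γ] (ρ : Γ →* Matrix ι ι K)
      (B : Matrix ι ι K) (g : (Matrix ι ι C)ˣ), PreservesParity p (g : Matrix ι ι C) →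
      IsParity p ρ → PreservesParity p B →
      (∀ γ, (ρ γ)ᵀ * B * ρ γ = B) → IsUnit B → IsGenerated ρ (conj g P) w₀ →
      ∀ (w : ℕ) (μ : Type) [Fintype μ] [DecidableEq μ] (q : μ → Bool) (τ : Γ →* Matrix μ μ K),
      IsParity q τ → LevelLE ρ (conj g P) w₀ τ w →
      ∀ (Cl : ∀ n, Submodule K ((Fin n → ι) → K)) (S : ∀ n, Submodule K ((Fin n → ι) → μ → K)),
        IsSystem p B Cl S → (∀ m ≤ N, ∀ x, IsEvenTate p ρ m x → x ∈ Cl m) →
        (∀ n x, IsEvenTate p ρ n x → x ∈ Cl n) ∧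
          ((∀ m ≤ (2 * (Fintype.card ι ^ 2 + 2) * (2 * w₀ + w + 2)) ^
              (2 * (Fintype.card ι ^ 2 + 1)), ∀ y, IsEvenTateM p q ρ τ m y → y ∈ S m) →
            ∀ n y, IsEvenTateM p q ρ τ n y → y ∈ S n) := by
  obtain ⟨N, hN⟩ := main_evenX hP hPp hred
  refine ⟨N, fun K _ _ Γ _ ρ B g hgp hp hBp hB hBu hgen w μ _ _ q τ hq hlev Cl S hS hC => ?_⟩
  obtain ⟨h1, h2⟩ := hN K Γ ρ B g hgp hp hBp hB hBu hgen w μ q τ hq hlev Cl S hS hC
  exact ⟨h1, fun hSm => h2 fun m hm => hSm m (hm.trans (bdP_le _ _ _))⟩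

end Pool.Agent.K6.H94.XB
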